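import Pool.Agent.H.MP_b2d7dd_lc.TE.Blk

/-!
# Module CntL: counting bit strings

`cnt m P` = the number of bit strings of length `m` with the property `P`.
`cnt_append`: split the strings with `Fin.appendEquiv` (`List.ofFn_fin_append`).
`cnt_blocks`: `TI.card_join`, `TE.bl_join`, `Equiv.subtypePiEquivPi` (see TE/CntM, `CntM_pi`).
-/

namespace Pool.Agent.TW

open Pool.Agent.TE (bl)
open Pool.Agent.TI (join)

/-- The number of bit strings of length `m` with the property `P`. -/
noncomputable def cnt (m : ℕ) (P : List Bool → Prop) : ℕ :=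
  Nat.card {r : Fin m → Bool // P (List.ofFn r)}

theorem cnt_le (m : ℕ) (P : List Bool → Prop) : cnt m P ≤ 2 ^ m := by
  unfold cnt
  have h := Nat.card_le_card_of_injective
    (Subtype.val : {r : Fin m → Bool // P (List.ofFn r)} → (Fin m → Bool)) Subtype.val_injective
  rw [Nat.card_eq_fintype_card (α := Fin m → Bool), Fintype.card_fun, Fintype.card_bool,
    Fintype.card_fin] at h
  exact h

theorem cnt_mono {m : ℕ} {P Q : List Bool → Prop} (h : ∀ z, z.length = m → P z → Q z) :
    cnt m P ≤ cnt m Q := by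
  unfold cnt
  refine Nat.card_le_card_of_injective
    (fun r : {r : Fin m → Bool // P (List.ofFn r)} =>
      (⟨r.1, h _ (by simp) r.2⟩ : {r : Fin m → Bool // Q (List.ofFn r)})) fun a b hab => ?_
  have h1 : a.1 = b.1 := Subtype.mk.inj hab
  exact Subtype.ext h1

private theorem CntL_filter (m : ℕ) (P : List Bool → Prop)
    [DecidablePred fun r : Fin m → Bool => P (List.ofFn r)] :
    cnt m P = (Finset.univ.filter fun r : Fin m → Bool => P (List.ofFn r)).card := by
  unfold cnt
  rw [Nat.card_eq_fintype_card, Fintype.card_subtype]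

private theorem CntL_sum (m : ℕ) (P : List Bool → Prop)
    [DecidablePred fun r : Fin m → Bool => P (List.ofFn r)] :
    cnt m P = ∑ r : Fin m → Bool, if P (List.ofFn r) then 1 else 0 := by
  rw [CntL_filter, Finset.card_filter]

private theorem CntL_card (m : ℕ) : Fintype.card (Fin m → Bool) = 2 ^ m := by
  rw [Fintype.card_fun, Fintype.card_bool, Fintype.card_fin]

theorem cnt_or {m : ℕ} (P Q : List Bool → Prop) :
    cnt m (fun z => P z ∨ Q z) ≤ cnt m P + cnt m Q := by
  classical
  rw [CntL_filter, CntL_filter, CntL_filter]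
  refine le_trans (Finset.card_le_card ?_) (Finset.card_union_le _ _)
  intro r hr
  rw [Finset.mem_filter] at hr
  rw [Finset.mem_union, Finset.mem_filter, Finset.mem_filter]
  rcases hr.2 with h | h
  · exact Or.inl ⟨Finset.mem_univ _, h⟩
  · exact Or.inr ⟨Finset.mem_univ _, h⟩

theorem cnt_compl {m : ℕ} (P : List Bool → Prop) :
    cnt m P + cnt m (fun z => ¬ P z) = 2 ^ m := by
  classical
  rw [CntL_filter, CntL_filter, Finset.card_filter_add_card_filter_not, Finset.card_univ, CntL_card]

/-- Union bound over a finite set. -/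
theorem cnt_exists {m : ℕ} {J : Type} (s : Finset J) (P : J → List Bool → Prop) :
    cnt m (fun z => ∃ j ∈ s, P j z) ≤ ∑ j ∈ s, cnt m (P j) := by
  classical
  rw [CntL_filter]
  have h : ∀ j ∈ s, cnt m (P j) =
      (Finset.univ.filter fun r : Fin m → Bool => P j (List.ofFn r)).card :=
    fun j _ => CntL_filter m (P j)
  rw [Finset.sum_congr rfl h]
  refine le_trans (Finset.card_le_card ?_) Finset.card_biUnion_le
  intro r hr
  rw [Finset.mem_filter] at hr
  obtain ⟨j, hj, hr⟩ := hr.2
  rw [Finset.mem_biUnion]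
  exact ⟨j, hj, Finset.mem_filter.2 ⟨Finset.mem_univ _, hr⟩⟩

private theorem CntL_add {a b : ℕ} (P : List Bool → Prop) :
    cnt (a + b) P = ∑ x : Fin a → Bool, cnt b (fun y => P (List.ofFn x ++ y)) := by
  classical
  rw [CntL_sum, ← (Fin.appendEquiv a b).sum_comp, Fintype.sum_prod_type]
  refine Finset.sum_congr rfl fun x _ => ?_
  rw [CntL_sum]
  refine Finset.sum_congr rfl fun y _ => ?_
  have h : List.ofFn ((Fin.appendEquiv a b) (x, y)) = List.ofFn x ++ List.ofFn y :=
    List.ofFn_fin_append x y
  rw [h]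

/-- If the property of `x ++ y` has probability at most `c / K` (over `y`) for every `x` outside of
`A`, then it has probability at most the one of `A` plus `c / K`. -/
theorem cnt_append {a b K c : ℕ} (P A : List Bool → Prop)
    (h : ∀ x : List Bool, x.length = a → ¬ A x → K * cnt b (fun y => P (x ++ y)) ≤ c * 2 ^ b) :
    K * cnt (a + b) P ≤ K * (cnt a A * 2 ^ b) + c * 2 ^ (a + b) := by
  classical
  rw [CntL_add, Finset.mul_sum]
  have h1 : ∀ x : Fin a → Bool, K * cnt b (fun y => P (List.ofFn x ++ y)) ≤
      K * ((if A (List.ofFn x) then 1 else 0) * 2 ^ b) + c * 2 ^ b := by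
    intro x
    by_cases hA : A (List.ofFn x)
    · rw [if_pos hA, one_mul]
      have := Nat.mul_le_mul_left K (cnt_le b (fun y => P (List.ofFn x ++ y)))
      omega
    · rw [if_neg hA, zero_mul, mul_zero, zero_add]
      exact h _ (by simp) hA
  refine (Finset.sum_le_sum fun x _ => h1 x).trans (le_of_eq ?_)
  rw [Finset.sum_add_distrib, ← Finset.mul_sum, ← Finset.sum_mul, ← CntL_sum, Finset.sum_const,
    Finset.card_univ, CntL_card, smul_eq_mul, pow_add]
  ring

private theorem CntL_const (m : ℕ) (p : Prop) [Decidable p] :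
    cnt m (fun _ => p) = (if p then 1 else 0) * 2 ^ m := by
  classical
  rw [CntL_sum]
  by_cases h : p
  · simp [h]
  · simp [h]

/-- The property depends on the first `a` bits only. -/
theorem cnt_take {a b : ℕ} (P : List Bool → Prop) :
    cnt (a + b) (fun z => P (z.take a)) = cnt a P * 2 ^ b := by
  classical
  rw [CntL_add, CntL_sum a P, Finset.sum_mul]
  refine Finset.sum_congr rfl fun x _ => ?_
  rw [← CntL_const]
  congr 1
  funext y
  rw [List.take_left' (by simp)]

theorem cnt_blocks {T w : ℕ} (P : List Bool → Prop) :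
    cnt (T * w) (fun z => ∀ j < T, P (bl w z j)) = cnt w P ^ T := by
  have h0 : cnt (T * w) (fun z => ∀ j < T, P (bl w z j)) =
      Nat.card {ρ : Fin T → Fin w → Bool // ∀ j < T, P (bl w (join ρ) j)} :=
    Pool.Agent.TI.card_join T w (fun z => ∀ j < T, P (bl w z j))
  rw [h0]
  have h1 : Nat.card {ρ : Fin T → Fin w → Bool // ∀ j < T, P (bl w (join ρ) j)} =
      Nat.card {ρ : Fin T → Fin w → Bool // ∀ j, P (List.ofFn (ρ j))} := by
    refine Nat.card_congr (Equiv.subtypeEquivRight fun ρ => ?_)
    constructor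
    · intro h j
      have := h j.1 j.2
      rwa [Pool.Agent.TE.bl_join ρ j.1 j.2] at this
    · intro h j hj
      rw [Pool.Agent.TE.bl_join ρ j hj]
      exact h ⟨j, hj⟩
  rw [h1, Nat.card_congr (Equiv.subtypePiEquivPi (p := fun (_ : Fin T) (r : Fin w → Bool) =>
    P (List.ofFn r))), Nat.card_pi, Finset.prod_const, Finset.card_univ, Fintype.card_fin]
  rfl

/-- Strings as families of blocks. -/
theorem cnt_fam {T w : ℕ} (P : List Bool → Prop) :
    cnt (T * w) P = Nat.card {ρ : Fin T → Fin w → Bool // P (join ρ)} :=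
  Pool.Agent.TI.card_join T w P

end Pool.Agent.TW
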