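import Pool.Agent.H.MP_b2d7dd_lc.TW.Rep
import Pool.Agent.H.MP_b2d7dd_lc.TI.Tokz

/-!
# Module Stk: the subterms of a sequence of terms

`Stk T st U`: the tokens `T` are the tokens of the terms `st` (all of them `VB`), and `U` is the
list of all subterms starting at the tokens of `T`, the last token first (so `U.getD a` starts at
the token `T.reverse.getD a`). `tt u` = the exponent of a power, otherwise `1`; `ev U a` = the
function of `tt (U.getD a)`. All the proofs are inductions on `Stk`.
-/

namespace Pool.Agent.TW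

open Pool.Agent.TI Finset

/-- The exponent of a term. -/
def tt : Tm → Tm
  | .pow _ t => t
  | _ => .one

/-- Tokens, terms, and all subterms. -/
inductive Stk : List Tok → List Tm → List Tm → Prop
  | nil : Stk [] [] []
  | one {T : List Tok} {st U : List Tm} (h : Stk T st U) :
      Stk ((0, []) :: T) (.one :: st) (U ++ [.one])
  | var {T : List Tok} {st U : List Tm} (w : List Bool) (h : Stk T st U) :
      Stk ((4, w) :: T) (.var w :: st) (U ++ [.var w])
  | add {T : List Tok} {st U : List Tm} {a b : Tm} (h : Stk T (a :: b :: st) U) :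
      Stk ((1, []) :: T) (.add a b :: st) (U ++ [.add a b])
  | mul {T : List Tok} {st U : List Tm} {a b : Tm} (h : Stk T (a :: b :: st) U) :
      Stk ((2, []) :: T) (.mul a b :: st) (U ++ [.mul a b])
  | pow {T : List Tok} {st U : List Tm} {w : List Bool} {b : Tm}
      (h : Stk T (.var w :: b :: st) U) :
      Stk ((3, []) :: T) (.pow (.var w) b :: st) (U ++ [.pow (.var w) b])

/-- The exponent function of the `a`-th subterm. -/
def ev (U : List Tm) (a : ℕ) : Fn := vf (tt (U.getD a .one))

/-- The possible pairs (base, exponent function). -/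
def atoms (T : List Tok) (U : List Tm) : Set (List Bool × Fn) :=
  {p | p.1 ∈ names T ∧ ∃ a < U.length, p.2 = ev U a}

theorem Stk.length {T : List Tok} {st U : List Tm} (h : Stk T st U) : U.length = T.length := by
  induction h with
  | nil => rfl
  | one _ ih => simp [ih]
  | var w _ ih => simp [ih]
  | add _ ih => simp [ih]
  | mul _ ih => simp [ih]
  | pow _ ih => simp [ih]

theorem Stk.tail {q : Tok} {T : List Tok} {st U : List Tm} (h : Stk (q :: T) st U) :
    ∃ st' U' u, Stk T st' U' ∧ U = U' ++ [u] := by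
  cases h with
  | one h => exact ⟨_, _, _, h, rfl⟩
  | var w h => exact ⟨_, _, _, h, rfl⟩
  | add h => exact ⟨_, _, _, h, rfl⟩
  | mul h => exact ⟨_, _, _, h, rfl⟩
  | pow h => exact ⟨_, _, _, h, rfl⟩

theorem Stk.toks {T : List Tok} {st U : List Tm} (h : Stk T st U) :
    T = st.flatMap Tm.toks ∧ ∀ t ∈ st, VB t := by
  induction h with
  | nil => exact ⟨rfl, by simp⟩
  | one _ ih =>
    refine ⟨by simp [Tm.toks, ← ih.1], ?_⟩
    intro t ht
    rcases List.mem_cons.1 ht with rfl | ht
    · exact trivial
    · exact ih.2 t ht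
  | var w _ ih =>
    refine ⟨by simp [Tm.toks, ← ih.1], ?_⟩
    intro t ht
    rcases List.mem_cons.1 ht with rfl | ht
    · exact trivial
    · exact ih.2 t ht
  | add _ ih =>
    refine ⟨?_, ?_⟩
    · conv_lhs => rw [ih.1]
      simp [Tm.toks]
    · intro t ht
      rcases List.mem_cons.1 ht with rfl | ht
      · exact ⟨ih.2 _ (by simp), ih.2 _ (by simp)⟩
      · exact ih.2 t (by simp [ht])
  | mul _ ih =>
    refine ⟨?_, ?_⟩
    · conv_lhs => rw [ih.1]
      simp [Tm.toks]
    · intro t ht
      rcases List.mem_cons.1 ht with rfl | ht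
      · exact ⟨ih.2 _ (by simp), ih.2 _ (by simp)⟩
      · exact ih.2 t (by simp [ht])
  | pow _ ih =>
    refine ⟨?_, ?_⟩
    · conv_lhs => rw [ih.1]
      simp [Tm.toks]
    · intro t ht
      rcases List.mem_cons.1 ht with rfl | ht
      · exact ⟨⟨_, rfl⟩, ih.2 _ (by simp)⟩
      · exact ih.2 t (by simp [ht])

theorem Stk.exists_toks {T : List Tok} {st U : List Tm} (h : Stk T st U) {t : Tm} (ht : VB t) :
    ∃ U', Stk (t.toks ++ T) (t :: st) (U ++ U') := by
  induction t generalizing T st U with
  | one => exact ⟨[.one], h.one⟩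
  | var w => exact ⟨[.var w], h.var w⟩
  | add s t ihs iht =>
    obtain ⟨U1, h1⟩ := iht h ht.2
    obtain ⟨U2, h2⟩ := ihs h1 ht.1
    refine ⟨U1 ++ U2 ++ [.add s t], ?_⟩
    have h3 := h2.add
    simpa [Tm.toks] using h3
  | mul s t ihs iht =>
    obtain ⟨U1, h1⟩ := iht h ht.2
    obtain ⟨U2, h2⟩ := ihs h1 ht.1
    refine ⟨U1 ++ U2 ++ [.mul s t], ?_⟩
    have h3 := h2.mul
    simpa [Tm.toks] using h3
  | pow s t _ iht =>
    obtain ⟨⟨w, rfl⟩, ht2⟩ := ht
    obtain ⟨U1, h1⟩ := iht h ht2
    refine ⟨U1 ++ [.var w] ++ [.pow (.var w) t], ?_⟩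
    have h3 := (h1.var w).pow
    simpa [Tm.toks] using h3

theorem Stk.pair {s t : Tm} (hs : VB s) (ht : VB t) : ∃ U, Stk (s.toks ++ t.toks) [s, t] U := by
  obtain ⟨U1, h1⟩ := Stk.nil.exists_toks ht
  obtain ⟨U2, h2⟩ := h1.exists_toks hs
  rw [List.append_nil] at h2
  exact ⟨_, h2⟩

/-- A variable on top of the stack comes from the last token. -/
theorem Stk.var_top {T : List Tok} {w : List Bool} {st U : List Tm}
    (h : Stk T (.var w :: st) U) : ∃ T', T = (4, w) :: T' := by
  cases h with
  | var _ h => exact ⟨_, rfl⟩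

theorem Stk_top {T : List Tok} {u : Tm} {st U : List Tm}
    (h : Stk T (u :: st) U) : ∃ U', U = U' ++ [u] := by
  cases h with
  | one h => exact ⟨_, rfl⟩
  | var w h => exact ⟨_, rfl⟩
  | add h => exact ⟨_, rfl⟩
  | mul h => exact ⟨_, rfl⟩
  | pow h => exact ⟨_, rfl⟩

theorem Stk_top_var {T : List Tok} {w : List Bool} {b : Tm} {st U : List Tm}
    (h : Stk T (.var w :: b :: st) U) : ∃ T' U', T = (4, w) :: T' ∧
      U = U' ++ [b] ++ [.var w] ∧ T'.length = U'.length + 1 := by
  cases h with
  | var _ h =>
    obtain ⟨U', rfl⟩ := Stk_top h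
    refine ⟨_, U', rfl, rfl, ?_⟩
    have := h.length
    simp at this
    omega

/-- One step for statements on the tokens and the subterms at a place. -/
theorem Stk_getD {q d : Tok} {T : List Tok} {u e : Tm} {U : List Tm} {a : ℕ}
    (hl : U.length = T.length) (ha : a < (q :: T).length) :
    (a < T.length ∧ (q :: T).reverse.getD a d = T.reverse.getD a d ∧
      (U ++ [u]).getD a e = U.getD a e ∧ (U ++ [u]).getD (a - 2) e = U.getD (a - 2) e) ∨
    (a = T.length ∧ (q :: T).reverse.getD a d = q ∧ (U ++ [u]).getD a e = u) := by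
  rw [List.length_cons] at ha
  rcases Nat.lt_or_ge a T.length with h | h
  · left
    refine ⟨h, ?_, ?_, ?_⟩
    · rw [List.reverse_cons, List.getD_append _ _ _ _ (by rw [List.length_reverse]; exact h)]
    · rw [List.getD_append _ _ _ _ (by omega)]
    · rw [List.getD_append _ _ _ _ (by omega)]
  · right
    have e1 : a = T.length := by omega
    subst e1
    refine ⟨rfl, ?_, ?_⟩
    · rw [List.reverse_cons, List.getD_append_right _ _ _ _ (by simp)]
      simp
    · rw [List.getD_append_right _ _ _ _ (by omega), hl]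
      simp

/-- The exponents in terms of the tokens. -/
theorem Stk.tt_eq {T : List Tok} {st U : List Tm} (h : Stk T st U) {a : ℕ} (ha : a < T.length) :
    tt (U.getD a .one) =
      if (T.reverse.getD a (0, [])).1 = 3 then U.getD (a - 2) .one else .one := by
  induction h with
  | nil => simp at ha
  | one h ih =>
    rcases Stk_getD (u := Tm.one) (e := Tm.one) (d := ((0, []) : Tok)) h.length ha with
      ⟨h1, h2, h3, h4⟩ | ⟨_, h2, h3⟩
    · rw [h2, h3, h4]
      exact ih h1
    · rw [h2, h3]
      simp [tt]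
  | var w h ih =>
    rcases Stk_getD (u := Tm.var w) (e := Tm.one) (d := ((0, []) : Tok)) h.length ha with
      ⟨h1, h2, h3, h4⟩ | ⟨_, h2, h3⟩
    · rw [h2, h3, h4]
      exact ih h1
    · rw [h2, h3]
      simp [tt]
  | @add T st U s t h ih =>
    rcases Stk_getD (u := Tm.add s t) (e := Tm.one) (d := ((0, []) : Tok)) h.length ha with
      ⟨h1, h2, h3, h4⟩ | ⟨_, h2, h3⟩
    · rw [h2, h3, h4]
      exact ih h1
    · rw [h2, h3]
      simp [tt]
  | @mul T st U s t h ih =>
    rcases Stk_getD (u := Tm.mul s t) (e := Tm.one) (d := ((0, []) : Tok)) h.length ha with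
      ⟨h1, h2, h3, h4⟩ | ⟨_, h2, h3⟩
    · rw [h2, h3, h4]
      exact ih h1
    · rw [h2, h3]
      simp [tt]
  | @pow T st U w b h ih =>
    rcases Stk_getD (u := Tm.pow (.var w) b) (e := Tm.one) (d := ((0, []) : Tok)) h.length ha with
      ⟨h1, h2, h3, h4⟩ | ⟨h1, h2, h3⟩
    · rw [h2, h3, h4]
      exact ih h1
    · rw [h2, h3]
      obtain ⟨T', U', rfl, rfl, hl⟩ := Stk_top_var h
      have e1 : a - 2 = U'.length := by
        rw [h1, List.length_cons]
        omega
      rw [e1, if_pos rfl, List.append_assoc, List.append_assoc,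
        List.getD_append_right _ _ _ _ le_rfl]
      simp [tt]

/-- For a power the exponent is two steps before. -/
theorem Stk.two_le {T : List Tok} {st U : List Tm} (h : Stk T st U) {a : ℕ} (ha : a < T.length)
    (h3 : (T.reverse.getD a (0, [])).1 = 3) : 2 ≤ a := by
  induction h with
  | nil => simp at ha
  | one h ih =>
    rcases Stk_getD (u := Tm.one) (e := Tm.one) (d := ((0, []) : Tok)) h.length ha with
      ⟨h1, h2, _, _⟩ | ⟨_, h2, _⟩
    · exact ih h1 (by rw [← h2]; exact h3)
    · rw [h2] at h3
      simp at h3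
  | var w h ih =>
    rcases Stk_getD (u := Tm.one) (e := Tm.one) (d := ((0, []) : Tok)) h.length ha with
      ⟨h1, h2, _, _⟩ | ⟨_, h2, _⟩
    · exact ih h1 (by rw [← h2]; exact h3)
    · rw [h2] at h3
      simp at h3
  | add h ih =>
    rcases Stk_getD (u := Tm.one) (e := Tm.one) (d := ((0, []) : Tok)) h.length ha with
      ⟨h1, h2, _, _⟩ | ⟨_, h2, _⟩
    · exact ih h1 (by rw [← h2]; exact h3)
    · rw [h2] at h3
      simp at h3
  | mul h ih =>
    rcases Stk_getD (u := Tm.one) (e := Tm.one) (d := ((0, []) : Tok)) h.length ha with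
      ⟨h1, h2, _, _⟩ | ⟨_, h2, _⟩
    · exact ih h1 (by rw [← h2]; exact h3)
    · rw [h2] at h3
      simp at h3
  | pow h ih =>
    rcases Stk_getD (u := Tm.one) (e := Tm.one) (d := ((0, []) : Tok)) h.length ha with
      ⟨h1, h2, _, _⟩ | ⟨h1, _, _⟩
    · exact ih h1 (by rw [← h2]; exact h3)
    · obtain ⟨T', U', rfl, rfl, hl⟩ := Stk_top_var h
      rw [h1, List.length_cons]
      omega

theorem Stk.mem {T : List Tok} {st U : List Tm} (h : Stk T st U) :
    ∀ u ∈ st, ∃ a < U.length, U.getD a .one = u := by
  have key : ∀ (U : List Tm) (v u : Tm), (∃ a < U.length, U.getD a .one = u) →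
      ∃ a < (U ++ [v]).length, (U ++ [v]).getD a .one = u := by
    rintro U v u ⟨a, ha, he⟩
    refine ⟨a, by simp; omega, ?_⟩
    rw [List.getD_append _ _ _ _ ha]
    exact he
  have last : ∀ (U : List Tm) (v : Tm),
      ∃ a < (U ++ [v]).length, (U ++ [v]).getD a .one = v := by
    intro U v
    refine ⟨U.length, by simp, ?_⟩
    rw [List.getD_append_right _ _ _ _ le_rfl]
    simp
  induction h with
  | nil => simp
  | one h ih =>
    intro u hu
    rcases List.mem_cons.1 hu with rfl | hu
    · exact last _ _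
    · exact key _ _ _ (ih u hu)
  | var w h ih =>
    intro u hu
    rcases List.mem_cons.1 hu with rfl | hu
    · exact last _ _
    · exact key _ _ _ (ih u hu)
  | add h ih =>
    intro u hu
    rcases List.mem_cons.1 hu with rfl | hu
    · exact last _ _
    · exact key _ _ _ (ih u (by simp [hu]))
  | mul h ih =>
    intro u hu
    rcases List.mem_cons.1 hu with rfl | hu
    · exact last _ _
    · exact key _ _ _ (ih u (by simp [hu]))
  | pow h ih =>
    intro u hu
    rcases List.mem_cons.1 hu with rfl | hu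
    · exact last _ _
    · exact key _ _ _ (ih u (by simp [hu]))

theorem Stk_all {P : Tm → Prop} {U : List Tm} (h1 : P .one) (h : ∀ u ∈ U, P u) (a : ℕ) :
    P (U.getD a .one) := by
  rcases Nat.lt_or_ge a U.length with ha | ha
  · rw [List.getD_eq_getElem _ _ ha]
    exact h _ (List.getElem_mem ha)
  · rw [List.getD_eq_default _ _ ha]
    exact h1

theorem Stk_vb {T : List Tok} {st U : List Tm} (h : Stk T st U) : ∀ u ∈ U, VB u := by
  induction h with
  | nil => simp
  | one h ih =>
    intro u hu
    rcases List.mem_append.1 hu with hu | hu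
    · exact ih u hu
    · rw [List.mem_singleton.1 hu]
      exact trivial
  | var w h ih =>
    intro u hu
    rcases List.mem_append.1 hu with hu | hu
    · exact ih u hu
    · rw [List.mem_singleton.1 hu]
      exact trivial
  | add h ih =>
    intro u hu
    rcases List.mem_append.1 hu with hu | hu
    · exact ih u hu
    · rw [List.mem_singleton.1 hu]
      exact ⟨h.toks.2 _ (by simp), h.toks.2 _ (by simp)⟩
  | mul h ih =>
    intro u hu
    rcases List.mem_append.1 hu with hu | hu
    · exact ih u hu
    · rw [List.mem_singleton.1 hu]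
      exact ⟨h.toks.2 _ (by simp), h.toks.2 _ (by simp)⟩
  | pow h ih =>
    intro u hu
    rcases List.mem_append.1 hu with hu | hu
    · exact ih u hu
    · rw [List.mem_singleton.1 hu]
      exact ⟨⟨_, rfl⟩, h.toks.2 _ (by simp)⟩

theorem Stk_vb_tt {u : Tm} (h : VB u) : VB (tt u) := by
  cases u with
  | one => exact trivial
  | var w => exact trivial
  | add s t => exact trivial
  | mul s t => exact trivial
  | pow s t => exact h.2

theorem Stk.vb {T : List Tok} {st U : List Tm} (h : Stk T st U) (a : ℕ) :
    VB (U.getD a .one) ∧ VB (tt (U.getD a .one)) := by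
  have h1 : VB (U.getD a .one) := Stk_all (P := VB) trivial (Stk_vb h) a
  exact ⟨h1, Stk_vb_tt h1⟩

theorem Stk_length_ge {T : List Tok} {s t : Tm} {st U : List Tm} (h : Stk T (s :: t :: st) U) :
    s.sz + t.sz ≤ T.length := by
  have h1 := congrArg List.length h.toks.1
  rw [List.flatMap_cons, List.flatMap_cons, List.length_append, List.length_append,
    Tm.length_toks, Tm.length_toks] at h1
  omega

theorem Stk_sz {T : List Tok} {st U : List Tm} (h : Stk T st U) : ∀ u ∈ U, u.sz ≤ T.length := by
  induction h with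
  | nil => simp
  | one h ih =>
    intro u hu
    rw [List.length_cons]
    rcases List.mem_append.1 hu with hu | hu
    · exact (ih u hu).trans (Nat.le_succ _)
    · rw [List.mem_singleton.1 hu, Tm.sz]
      omega
  | var w h ih =>
    intro u hu
    rw [List.length_cons]
    rcases List.mem_append.1 hu with hu | hu
    · exact (ih u hu).trans (Nat.le_succ _)
    · rw [List.mem_singleton.1 hu, Tm.sz]
      omega
  | add h ih =>
    intro u hu
    rw [List.length_cons]
    rcases List.mem_append.1 hu with hu | hu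
    · exact (ih u hu).trans (Nat.le_succ _)
    · have := Stk_length_ge h
      rw [List.mem_singleton.1 hu, Tm.sz]
      omega
  | mul h ih =>
    intro u hu
    rw [List.length_cons]
    rcases List.mem_append.1 hu with hu | hu
    · exact (ih u hu).trans (Nat.le_succ _)
    · have := Stk_length_ge h
      rw [List.mem_singleton.1 hu, Tm.sz]
      omega
  | pow h ih =>
    intro u hu
    rw [List.length_cons]
    rcases List.mem_append.1 hu with hu | hu
    · exact (ih u hu).trans (Nat.le_succ _)
    · have := Stk_length_ge h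
      rw [List.mem_singleton.1 hu, Tm.sz]
      omega

theorem Stk_sz_tt (u : Tm) : (tt u).sz ≤ u.sz := by
  cases u with
  | one => exact le_rfl
  | var w => exact le_rfl
  | add s t => simp only [tt, Tm.sz]; omega
  | mul s t => simp only [tt, Tm.sz]; omega
  | pow s t => simp only [tt, Tm.sz]; omega

theorem Stk.sz {T : List Tok} {st U : List Tm} (h : Stk T st U) (a : ℕ) :
    (U.getD a .one).sz ≤ T.length + 1 ∧ (tt (U.getD a .one)).sz ≤ T.length + 1 := by
  have h1 : (U.getD a .one).sz ≤ T.length + 1 := by
    refine Stk_all (P := fun u => u.sz ≤ T.length + 1) ?_ ?_ a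
    · show Tm.sz .one ≤ T.length + 1
      rw [Tm.sz]
      omega
    · intro u hu
      exact (Stk_sz h u hu).trans (Nat.le_succ _)
  exact ⟨h1, (Stk_sz_tt _).trans h1⟩

theorem ev_append {U : List Tm} {u : Tm} {a : ℕ} (ha : a < U.length) :
    ev (U ++ [u]) a = ev U a := by
  unfold ev
  rw [List.getD_append _ _ _ _ ha]

theorem ev_last (U : List Tm) (u : Tm) : ev (U ++ [u]) U.length = vf (tt u) := by
  unfold ev
  rw [List.getD_append_right _ _ _ _ le_rfl]
  simp

theorem Stk_atoms_mono (q : Tok) (T : List Tok) (U : List Tm) (u : Tm) :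
    TW.atoms T U ⊆ TW.atoms (q :: T) (U ++ [u]) := by
  rintro p ⟨h1, a, ha, h2⟩
  refine ⟨?_, a, by simp; omega, ?_⟩
  · have e : names (q :: T) = names [q] ++ names T := names_append [q] T
    rw [e]
    exact List.mem_append_right _ h1
  · rw [ev_append ha]
    exact h2

theorem Stk_vf_one : vf .one = 1 := by
  funext x
  simp [vf, Tm.val]

theorem Stk_atoms {T : List Tok} {st U : List Tm} (h : Stk T st U) :
    ∀ u ∈ U, At (TW.atoms T U) u := by
  induction h with
  | nil => simp
  | one h ih =>
    intro u hu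
    rcases List.mem_append.1 hu with hu | hu
    · exact (ih u hu).mono (Stk_atoms_mono _ _ _ _)
    · rw [List.mem_singleton.1 hu]
      exact trivial
  | @var T st U w h ih =>
    intro u hu
    rcases List.mem_append.1 hu with hu | hu
    · exact (ih u hu).mono (Stk_atoms_mono _ _ _ _)
    · rw [List.mem_singleton.1 hu]
      refine ⟨?_, U.length, by simp, ?_⟩
      · simp [names]
      · rw [ev_last]
        exact Stk_vf_one.symm
  | @add T st U s t h ih =>
    intro u hu
    rcases List.mem_append.1 hu with hu | hu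
    · exact (ih u hu).mono (Stk_atoms_mono _ _ _ _)
    · rw [List.mem_singleton.1 hu]
      obtain ⟨a, _, ha2⟩ := h.mem s (by simp)
      obtain ⟨b, _, hb2⟩ := h.mem t (by simp)
      refine ⟨?_, ?_⟩
      · rw [← ha2]
        exact (Stk_all (P := At (TW.atoms T U)) trivial ih a).mono (Stk_atoms_mono _ _ _ _)
      · rw [← hb2]
        exact (Stk_all (P := At (TW.atoms T U)) trivial ih b).mono (Stk_atoms_mono _ _ _ _)
  | @mul T st U s t h ih =>
    intro u hu
    rcases List.mem_append.1 hu with hu | hu
    · exact (ih u hu).mono (Stk_atoms_mono _ _ _ _)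
    · rw [List.mem_singleton.1 hu]
      obtain ⟨a, _, ha2⟩ := h.mem s (by simp)
      obtain ⟨b, _, hb2⟩ := h.mem t (by simp)
      refine ⟨?_, ?_⟩
      · rw [← ha2]
        exact (Stk_all (P := At (TW.atoms T U)) trivial ih a).mono (Stk_atoms_mono _ _ _ _)
      · rw [← hb2]
        exact (Stk_all (P := At (TW.atoms T U)) trivial ih b).mono (Stk_atoms_mono _ _ _ _)
  | @pow T st U w b h ih =>
    intro u hu
    rcases List.mem_append.1 hu with hu | hu
    · exact (ih u hu).mono (Stk_atoms_mono _ _ _ _)
    · rw [List.mem_singleton.1 hu]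
      obtain ⟨T', hT'⟩ := h.var_top
      refine ⟨?_, U.length, by simp, ?_⟩
      · rw [hT']
        simp [names, nmB]
      · rw [ev_last]
        rfl

theorem Stk.atoms {T : List Tok} {st U : List Tm} (h : Stk T st U) (a : ℕ) :
    At (atoms T U) (U.getD a .one) :=
  Stk_all (P := At (TW.atoms T U)) trivial (Stk_atoms h) a

end Pool.Agent.TW
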