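import Pool.Agent.H.MP_b2d7dd_lc.TW.Res
import Pool.Agent.H.MP_b2d7dd_lc.TW.Stk
import Pool.Agent.H.MP_b2d7dd_lc.TE.Blk
import Pool.Agent.H.MP_b2d7dd_lc.TI.Mach

/-!
# Module Run: the values of the powers

Parameters: `e` = the modulus is `bval e + 2`; `v` = the number of bits of a random value; `c` = the
number of values for one variable; `N` = the names of the variables; `Z` = the random bits.
The random value with the index `(w, b)` is the block number `idxOf w N * c + b` of `Z`; `wpr` = this
value and its inverse, if this is really the inverse, otherwise `(1, 1)`; `wun` = the unit.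
`tab` = a list of rows of integers, an integer being a sign and a bit list (`zof`). `tval a w` = the
product over the rows `b` of (value `(w, b)`) ^ (entry `a` of the row `b`).
-/

namespace Pool.Agent.TW

open Pool.Agent.TI (Tm Tok Can names fidx fidx_eq bmod bpw beqv)
open Pool.Agent.TE (bl)
open Pool.Agent.H.MP_5be563_lc.PT Finset

/-- Integers. -/
abbrev SI : Type := Bool × List Bool

/-- The value of a signed number. -/
def zof (k : SI) : ℤ := if k.1 then -(bval k.2 : ℤ) else bval k.2

/-- The row of integers. -/
def irow (l : List SI) : ℕ → ℤ := fun a => zof (l.getD a (false, []))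

/-- The value and its inverse. -/
def wpr (e x : List Bool) : List Bool × List Bool :=
  bif beqv (rmu e x (rin e x)) (bmod [true] (md e)) then (bmod x (md e), rin e x)
  else ([true], [true])

open Classical in
/-- The unit. -/
noncomputable def wun (e x : List Bool) : (ZMod (bval e + 2))ˣ :=
  if h : zv e x * zv e x ^ bval e = 1 then ⟨zv e x, zv e x ^ bval e, h, by rw [mul_comm]; exact h⟩
  else 1

private theorem Run_cond (e x : List Bool) :
    beqv (rmu e x (rin e x)) (bmod [true] (md e)) = true ↔ zv e x * zv e x ^ bval e = 1 := by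
  have h1 : zv e (Pool.Agent.H.MP_5be563_lc.PT.bmul x (rin e x)) = zv e x * zv e x ^ bval e := by
    rw [← zv_rin, ← zv_rmu, rmu, zv_bmod]
  unfold rmu
  rw [beqv_bmod_iff, h1, zv_one]

theorem wpr_val (e x : List Bool) : zv e (wpr e x).1 = ↑(wun e x) ∧
    zv e (wpr e x).2 = ↑(wun e x)⁻¹ := by
  by_cases h : zv e x * zv e x ^ bval e = 1
  · have h1 : wpr e x = (bmod x (md e), rin e x) := by
      unfold wpr
      rw [(Run_cond e x).2 h]
      rfl
    have h2 : wun e x = ⟨zv e x, zv e x ^ bval e, h, by rw [mul_comm]; exact h⟩ := dif_pos h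
    rw [h1, h2]
    refine ⟨?_, ?_⟩
    · exact zv_bmod e x
    · exact zv_rin e x
  · have h1 : wpr e x = ([true], [true]) := by
      unfold wpr
      have h3 : beqv (rmu e x (rin e x)) (bmod [true] (md e)) = false :=
        Bool.eq_false_iff.2 fun h3 => h ((Run_cond e x).1 h3)
      rw [h3]
      rfl
    have h2 : wun e x = 1 := dif_neg h
    rw [h1, h2]
    refine ⟨?_, ?_⟩
    · rw [Units.val_one]
      exact zv_one e
    · rw [inv_one, Units.val_one]
      exact zv_one e

/-- For a prime modulus and a value which is not zero, the unit is the value. -/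
theorem wun_val {e x : List Bool} (hp : (bval e + 2).Prime) (hx : zv e x ≠ 0) :
    (wun e x : ZMod (bval e + 2)) = zv e x := by
  have := Fact.mk hp
  have h : zv e x * zv e x ^ bval e = 1 := by
    rw [← pow_succ']
    exact ZMod.pow_card_sub_one_eq_one hx
  have h2 : wun e x = ⟨zv e x, zv e x ^ bval e, h, by rw [mul_comm]; exact h⟩ := dif_pos h
  rw [h2]

/-- Integer powers. -/
def pwz (e : List Bool) (p : List Bool × List Bool) (k : SI) : List Bool :=
  bif k.1 then bpw p.2 k.2 (md e) else bpw p.1 k.2 (md e)

theorem zv_pwz (e x : List Bool) (k : SI) : zv e (pwz e (wpr e x) k) = ↑(wun e x ^ zof k) := by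
  obtain ⟨h1, h2⟩ := wpr_val e x
  obtain ⟨s, l⟩ := k
  cases s
  · show zv e (bpw (wpr e x).1 l (md e)) = ↑(wun e x ^ (bval l : ℤ))
    rw [zv_bpw, h1, zpow_natCast, Units.val_pow_eq_pow_val]
  · show zv e (bpw (wpr e x).2 l (md e)) = ↑(wun e x ^ (-(bval l : ℤ)))
    rw [zv_bpw, h2, zpow_neg, zpow_natCast, ← inv_pow, Units.val_pow_eq_pow_val]

/-- The unit with the index `(w, b)`. -/
noncomputable def wfun (e : List Bool) (v c : ℕ) (N : List (List Bool)) (Z : List Bool)
    (w : List Bool) (b : ℕ) : (ZMod (bval e + 2))ˣ :=
  wun e (bl v Z (N.idxOf w * c + b))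

/-- The value of a power. -/
def tval (e : List Bool) (v c : ℕ) (N : List (List Bool)) (Z : List Bool)
    (tab : List (List SI)) (a : ℕ) (w : List Bool) : List Bool :=
  (List.range tab.length).foldr (fun b acc => rmu e acc
    (pwz e (wpr e (bl v Z (fidx w N * c + b))) ((tab.getD b []).getD a (false, [])))) [true]

private theorem Run_foldr (e : List Bool) (f : ℕ → List Bool) (L : List ℕ) :
    zv e (L.foldr (fun b acc => rmu e acc (f b)) [true]) = (L.map fun b => zv e (f b)).prod := by
  induction L with
  | nil => exact zv_one e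
  | cons b L ih =>
    rw [List.foldr_cons, zv_rmu, ih, List.map_cons, List.prod_cons, mul_comm]

private theorem Run_len (e : List Bool) (f : ℕ → List Bool) (L : List ℕ) :
    (L.foldr (fun b acc => rmu e acc (f b)) [true]).length ≤ e.length + 4 := by
  cases L with
  | nil =>
    simp
  | cons b L => exact length_rmu_le _ _ _

theorem zv_tval (e : List Bool) (v c : ℕ) (N : List (List Bool)) (Z : List Bool)
    (tab : List (List SI)) (a : ℕ) (w : List Bool) :
    zv e (tval e v c N Z tab a w) =
      ↑(∏ b ∈ range (tab.map irow).length,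
        wfun e v c N Z w b ^ (((tab.map irow).getD b 0) a)) := by
  unfold tval
  rw [Run_foldr, List.length_map, Units.coe_prod, Finset.prod_range, ← List.prod_ofFn]
  have h1 : (List.range tab.length).map (fun b => zv e (pwz e (wpr e (bl v Z (fidx w N * c + b)))
      ((tab.getD b []).getD a (false, [])))) = List.ofFn (fun i : Fin tab.length =>
        zv e (pwz e (wpr e (bl v Z (fidx w N * c + i.1))) ((tab.getD i.1 []).getD a (false, [])))) := by
    apply List.ext_getElem
    · simp
    · intro i h2 h3
      rw [List.getElem_map, List.getElem_range, List.getElem_ofFn]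
  rw [h1]
  congr 1
  congr 1
  funext i
  rw [zv_pwz, fidx_eq]
  have h2 : (tab.map irow).getD i.1 0 a = zof ((tab.getD i.1 []).getD a (false, [])) := by
    have h3 : (tab.map irow).getD i.1 0 = irow (tab.getD i.1 []) := by
      rw [List.getD_eq_getElem _ _ (by rw [List.length_map]; exact i.2),
        List.getD_eq_getElem _ _ i.2, List.getElem_map]
    rw [h3]
    rfl
  rw [h2]
  rfl

theorem length_tval_le (e : List Bool) (v c : ℕ) (N : List (List Bool)) (Z : List Bool)
    (tab : List (List SI)) (a : ℕ) (w : List Bool) :
    (tval e v c N Z tab a w).length ≤ e.length + 4 :=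
  Run_len e (fun b => pwz e (wpr e (bl v Z (fidx w N * c + b)))
    ((tab.getD b []).getD a (false, []))) (List.range tab.length)

end Pool.Agent.TW
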