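import Pool.Agent.H.MP_b2d7dd_lc.TI.Blk

/-!
# Module SZ: zeros of Laurent polynomials modulo a prime

The values `bval (List.ofFn ω)`, `ω : Fin v → Bool`, are different elements of `[0, 2 ^ v)`, so
different modulo `r ≥ 2 ^ v`. Multiply the Laurent polynomial by `∏ X_q ^ (D + 1)`: a non-zero
polynomial of total degree at most `2 D Q + Q` (`MvPolynomial.schwartz_zippel_totalDegree`, for the
set of the `2 ^ v` values), which vanishes also at the points with a coordinate zero.
-/

namespace Pool.Agent.TW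

open Pool.Agent.H.MP_5be563_lc.PT

private theorem SZ_val_inj {r v : ℕ} (hv : 2 ^ v ≤ r) :
    Function.Injective fun ω : Fin v → Bool => ((bval (List.ofFn ω) : ℕ) : ZMod r) := by
  intro a b h
  have ha := Pool.Agent.TI.XA_le a
  have hb := Pool.Agent.TI.XA_le b
  unfold Pool.Agent.TI.XA at ha hb
  have h1 : bval (List.ofFn a) % r = bval (List.ofFn b) % r :=
    (ZMod.natCast_eq_natCast_iff' _ _ _).1 h
  rw [Nat.mod_eq_of_lt (by omega), Nat.mod_eq_of_lt (by omega)] at h1
  refine Pool.Agent.TI.XA_inj ?_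
  unfold Pool.Agent.TI.XA
  rw [h1]

private theorem SZ_poly {r Q D : ℕ} [Fact r.Prime] {G : Type} (s : Finset G)
    (m : G → Fin Q → ℤ) (hm : Set.InjOn m s) (hD : ∀ g ∈ s, ∀ q, |m g q| ≤ D) (p : G → ZMod r)
    (hp : ∃ g ∈ s, p g ≠ 0) :
    ∃ P : MvPolynomial (Fin Q) (ZMod r), P ≠ 0 ∧ P.totalDegree ≤ 2 * D * Q + Q ∧
      ∀ x : Fin Q → ZMod r, (∃ q, x q = 0) ∨ ∑ g ∈ s, p g * ∏ q, x q ^ (m g q) = 0 →
        MvPolynomial.eval x P = 0 := by
  classical
  set e : G → (Fin Q →₀ ℕ) := fun g =>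
    Finsupp.equivFunOnFinite.symm fun q => ((D : ℤ) + m g q + 1).toNat with he
  have he' : ∀ g q, e g q = ((D : ℤ) + m g q + 1).toNat := fun g q => rfl
  refine ⟨∑ g ∈ s, MvPolynomial.monomial (e g) (p g), ?_, ?_, ?_⟩
  · obtain ⟨g0, hg0, hp0⟩ := hp
    intro h
    have h1 := congrArg (MvPolynomial.coeff (e g0)) h
    rw [MvPolynomial.coeff_sum, MvPolynomial.coeff_zero, Finset.sum_eq_single g0] at h1
    · rw [MvPolynomial.coeff_monomial, if_pos rfl] at h1
      exact hp0 h1
    · intro g hg hgg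
      rw [MvPolynomial.coeff_monomial, if_neg]
      intro h2
      apply hgg
      apply hm hg hg0
      funext q
      have h3 : e g q = e g0 q := by rw [h2]
      rw [he', he'] at h3
      have h4 := abs_le.1 (hD g hg q)
      have h5 := abs_le.1 (hD g0 hg0 q)
      omega
    · intro h2
      exact absurd hg0 h2
  · refine (MvPolynomial.totalDegree_finsetSum _ _).trans ?_
    refine Finset.sup_le fun g hg => ?_
    refine (MvPolynomial.totalDegree_monomial_le _ _).trans ?_
    rw [Finsupp.sum_fintype _ _ (fun _ => rfl)]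
    calc ∑ q, e g q ≤ ∑ _q : Fin Q, (2 * D + 1) := by
          refine Finset.sum_le_sum fun q _ => ?_
          rw [he']
          have h4 := abs_le.1 (hD g hg q)
          omega
      _ = 2 * D * Q + Q := by
          rw [Finset.sum_const, Finset.card_univ, Fintype.card_fin, smul_eq_mul]
          ring
  · intro x hx
    rw [map_sum]
    by_cases h0 : ∃ q, x q = 0
    · obtain ⟨q, hq⟩ := h0
      refine Finset.sum_eq_zero fun g hg => ?_
      rw [MvPolynomial.eval_monomial, Finsupp.prod_fintype _ _ (fun _ => pow_zero _)]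
      rw [Finset.prod_eq_zero (Finset.mem_univ q), mul_zero]
      rw [hq, he']
      refine zero_pow ?_
      have h4 := abs_le.1 (hD g hg q)
      omega
    · have h1 := hx.resolve_left h0
      push Not at h0
      have h2 : ∀ g ∈ s, MvPolynomial.eval x (MvPolynomial.monomial (e g) (p g)) =
          (∏ q, x q ^ (D + 1)) * (p g * ∏ q, x q ^ (m g q)) := by
        intro g hg
        rw [MvPolynomial.eval_monomial, Finsupp.prod_fintype _ _ (fun _ => pow_zero _)]
        rw [mul_left_comm, ← Finset.prod_mul_distrib]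
        congr 1
        refine Finset.prod_congr rfl fun q _ => ?_
        rw [he', ← zpow_natCast, ← zpow_natCast, ← zpow_add₀ (h0 q)]
        congr 1
        have h4 := abs_le.1 (hD g hg q)
        push_cast
        omega
      rw [Finset.sum_congr rfl h2, ← Finset.mul_sum, h1, mul_zero]

theorem laurent_zeros {r v Q D : ℕ} [Fact r.Prime] (hv : 2 ^ v ≤ r) {G : Type} (s : Finset G)
    (m : G → Fin Q → ℤ) (hm : Set.InjOn m s) (hD : ∀ g ∈ s, ∀ q, |m g q| ≤ D) (p : G → ZMod r)
    (hp : ∃ g ∈ s, p g ≠ 0) :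
    2 ^ v * Nat.card {ω : Fin Q → Fin v → Bool // (∃ q, bval (List.ofFn (ω q)) = 0) ∨
      ∑ g ∈ s, p g * ∏ q, ((bval (List.ofFn (ω q)) : ℕ) : ZMod r) ^ (m g q) = 0} ≤
      (2 * D * Q + Q) * (2 ^ v) ^ Q := by
  classical
  obtain ⟨P, hP0, hPd, hPz⟩ := SZ_poly s m hm hD p hp
  set val : (Fin v → Bool) → ZMod r := fun ω => ((bval (List.ofFn ω) : ℕ) : ZMod r) with hval
  have hinj : Function.Injective val := SZ_val_inj hv
  set S : Finset (ZMod r) := Finset.univ.image val with hS
  have hScard : S.card = 2 ^ v := by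
    rw [hS, Finset.card_image_of_injective _ hinj]
    simp
  have hsz := MvPolynomial.schwartz_zippel_totalDegree hP0 S
  rw [hScard] at hsz
  set Z := Finset.filter (fun f => MvPolynomial.eval f P = 0) (Fintype.piFinset fun _ : Fin Q => S)
    with hZ
  have hle : Nat.card {ω : Fin Q → Fin v → Bool // (∃ q, bval (List.ofFn (ω q)) = 0) ∨
      ∑ g ∈ s, p g * ∏ q, ((bval (List.ofFn (ω q)) : ℕ) : ZMod r) ^ (m g q) = 0} ≤ Z.card := by
    rw [Nat.card_eq_fintype_card, Fintype.card_subtype]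
    refine Finset.card_le_card_of_injOn (fun ω q => val (ω q)) ?_ ?_
    · intro ω hω
      have hω' := (Finset.mem_filter.1 (Finset.mem_coe.1 hω)).2
      refine Finset.mem_coe.2 (Finset.mem_filter.2 ⟨?_, ?_⟩)
      · exact Fintype.mem_piFinset.2 fun q => Finset.mem_image_of_mem _ (Finset.mem_univ _)
      · refine hPz _ ?_
        rcases hω' with ⟨q, hq⟩ | h
        · left
          refine ⟨q, ?_⟩
          rw [hval]
          simp only [hq, Nat.cast_zero]
        · exact Or.inr h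
    · intro ω _ ω' _ h
      funext q
      exact hinj (congrFun h q)
  have h1 : (2 ^ v * Z.card : ℕ) ≤ (2 * D * Q + Q) * (2 ^ v) ^ Q := by
    have h2 : (Z.card : ℚ≥0) ≤ ((P.totalDegree : ℚ≥0) / (2 ^ v : ℕ)) * ((2 ^ v : ℕ) ^ Q : ℚ≥0) := by
      rwa [div_le_iff₀ (by positivity)] at hsz
    have h3 : ((2 ^ v : ℕ) : ℚ≥0) * Z.card ≤ (P.totalDegree : ℚ≥0) * ((2 ^ v : ℕ) ^ Q : ℚ≥0) := by
      calc ((2 ^ v : ℕ) : ℚ≥0) * Z.card ≤ ((2 ^ v : ℕ) : ℚ≥0) *
            (((P.totalDegree : ℚ≥0) / (2 ^ v : ℕ)) * ((2 ^ v : ℕ) ^ Q : ℚ≥0)) := by gcongr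
        _ = _ := by
            have : ((2 ^ v : ℕ) : ℚ≥0) ≠ 0 := by positivity
            field_simp
    have h4 : 2 ^ v * Z.card ≤ P.totalDegree * (2 ^ v) ^ Q := by exact_mod_cast h3
    exact h4.trans (Nat.mul_le_mul_right _ hPd)
  exact (Nat.mul_le_mul_left _ hle).trans h1

end Pool.Agent.TW
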