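import Pool.Agent.H.MP_b2d7dd_lc.TW.Run2

/-!
# Module RunP: the machine runs in polynomial time

`Poly.foldr` (PT/Lists) for `tval` (accumulator of length at most `e.length + 4`) and for `mrun`
(state sizes from `mrun_len`; the name of the last token is a part of a token of `T`). `poly_fidx` is
private in TE/Mach: copy it. `poly_hrow`: `Poly.map` over the range; compute `mrun` for `T.tail` once
(`have` of `Poly` for it; the function of the element `a` takes `p.2 = a` and the rest from `p.1`).
-/

namespace Pool.Agent.TW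

open Pool.Agent.TI (Tm Tok names fidx fidx_eq bmod bpw beqv)
open Pool.Agent.TE (bl)
open Pool.Agent.H.MP_5be563_lc.PT

variable {α : Type} [Enc α]

theorem poly_bl {fw : α → ℕ} {fr : α → List Bool} {fj : α → ℕ} (hw : Poly fw)
    (hr : Poly fr) (hj : Poly fj) : Poly (fun a => bl (fw a) (fr a) (fj a)) := by
  unfold bl
  exact Poly.take hw (Poly.drop (Poly.mul hj hw) hr)

private theorem RunP_c {β : Type} [Enc β] (b : β) : Poly (fun _ : α => b) :=
  Pool.Agent.H.MP_5be563_lc.PT.Poly.const b

private theorem RunP_fidx_le (w : List Bool) (l : List (List Bool)) : fidx w l ≤ l.length := by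
  rw [fidx_eq]
  exact List.idxOf_le_length

private theorem RunP_fidx {fw : α → List Bool} {fl : α → List (List Bool)} (hw : Poly fw)
    (hl : Poly fl) : Poly (fun a => fidx (fw a) (fl a)) := by
  unfold fidx
  refine Poly.foldr (f := fun p : α × ℕ × List Bool =>
      bif decide (p.2.2 = fw p.1) then 0 else p.2.1 + 1) (l := fl) (s0 := fun _ => 0)
      (B := fun a => 2 * sz (fl a) + 1) ?_ hl (by fun_prop)
      (((PBdd.const 2).mul hl.sz_le).add (PBdd.const 1)) ?_
  · exact Poly.cond (by fun_prop) (by fun_prop) (by fun_prop)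
  · intro a l₁ l₂ h
    have h1 : fidx (fw a) l₂ ≤ l₂.length := RunP_fidx_le _ _
    have h2 : l₂.length ≤ (fl a).length := by rw [h]; simp
    have h3 := length_lt_sz (fl a)
    have h4 : sz (fidx (fw a) l₂) = 2 * fidx (fw a) l₂ + 1 := by simp
    change sz (fidx (fw a) l₂) ≤ 2 * sz (fl a) + 1
    rw [h4]
    omega

private theorem RunP_wpr {fe fx : α → List Bool} (he : Poly fe) (hx : Poly fx) :
    Poly (fun a => wpr (fe a) (fx a)) := by
  have h1 : Poly (fun a => rin (fe a) (fx a)) := Pool.Agent.TW.Poly.rin he hx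
  have h2 : Poly (fun a => md (fe a)) := Pool.Agent.TW.Poly.md he
  have h3 : Poly (fun a => rmu (fe a) (fx a) (rin (fe a) (fx a))) :=
    Pool.Agent.TW.Poly.rmu he hx h1
  have h4 : Poly (fun a => bmod [true] (md (fe a))) :=
    Pool.Agent.TI.Poly.bmod (RunP_c _) h2
  have h5 : Poly (fun a => bmod (fx a) (md (fe a))) := Pool.Agent.TI.Poly.bmod hx h2
  unfold wpr
  exact Poly.cond (Pool.Agent.TI.Poly.beqv h3 h4) (Poly.pair h5 h1) (RunP_c _)

private theorem RunP_pwz {fe : α → List Bool} {fp : α → List Bool × List Bool} {fk : α → SI}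
    (he : Poly fe) (hp : Poly fp) (hk : Poly fk) : Poly (fun a => pwz (fe a) (fp a) (fk a)) := by
  have h2 : Poly (fun a => md (fe a)) := Pool.Agent.TW.Poly.md he
  have h3 : Poly (fun a => (fk a).2) := by fun_prop
  unfold pwz
  exact Poly.cond (by fun_prop) (Pool.Agent.TI.Poly.bpw (by fun_prop) h3 h2)
    (Pool.Agent.TI.Poly.bpw (by fun_prop) h3 h2)

private theorem RunP_len (e : List Bool) (f : ℕ → List Bool) (L : List ℕ) :
    (L.foldr (fun b acc => rmu e acc (f b)) [true]).length ≤ e.length + 4 := by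
  cases L with
  | nil => simp
  | cons b L => exact length_rmu_le _ _ _

theorem poly_tval {fe : α → List Bool} {fv fc : α → ℕ} {fN : α → List (List Bool)}
    {fZ : α → List Bool} {ft : α → List (List SI)} {fa : α → ℕ} {fw : α → List Bool}
    (he : Poly fe) (hv : Poly fv) (hc : Poly fc) (hN : Poly fN) (hZ : Poly fZ) (ht : Poly ft)
    (ha : Poly fa) (hw : Poly fw) :
    Poly (fun a => tval (fe a) (fv a) (fc a) (fN a) (fZ a) (ft a) (fa a) (fw a)) := by
  have he1 : Poly (fun p : α × List Bool × ℕ => fe p.1) := he.comp Poly.fst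
  have hb : Poly (fun p : α × List Bool × ℕ => p.2.2) := by fun_prop
  have hfi : Poly (fun p : α × List Bool × ℕ => fidx (fw p.1) (fN p.1)) :=
    RunP_fidx (hw.comp Poly.fst) (hN.comp Poly.fst)
  have hj : Poly (fun p : α × List Bool × ℕ => fidx (fw p.1) (fN p.1) * fc p.1 + p.2.2) :=
    Poly.add (Poly.mul hfi (hc.comp Poly.fst)) hb
  have hbl : Poly (fun p : α × List Bool × ℕ => bl (fv p.1) (fZ p.1)
      (fidx (fw p.1) (fN p.1) * fc p.1 + p.2.2)) :=
    poly_bl (hv.comp Poly.fst) (hZ.comp Poly.fst) hj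
  have hk : Poly (fun p : α × List Bool × ℕ =>
      ((ft p.1).getD p.2.2 []).getD (fa p.1) (false, [])) :=
    Poly.getD (ha.comp Poly.fst) (Poly.getD hb (ht.comp Poly.fst) (RunP_c _)) (RunP_c _)
  have hf : Poly (fun p : α × List Bool × ℕ => rmu (fe p.1) p.2.1
      (pwz (fe p.1) (wpr (fe p.1) (bl (fv p.1) (fZ p.1)
        (fidx (fw p.1) (fN p.1) * fc p.1 + p.2.2)))
        (((ft p.1).getD p.2.2 []).getD (fa p.1) (false, [])))) :=
    Pool.Agent.TW.Poly.rmu he1 (by fun_prop) (RunP_pwz he1 (RunP_wpr he1 hbl) hk)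
  unfold tval
  exact Poly.foldr (f := fun p : α × List Bool × ℕ => rmu (fe p.1) p.2.1
      (pwz (fe p.1) (wpr (fe p.1) (bl (fv p.1) (fZ p.1)
        (fidx (fw p.1) (fN p.1) * fc p.1 + p.2.2)))
        (((ft p.1).getD p.2.2 []).getD (fa p.1) (false, []))))
    (l := fun a => List.range (ft a).length) (s0 := fun _ => [true])
    (B := fun a => 4 * (sz (fe a) + 4) + 1) hf (Poly.range (Poly.length ht)) (RunP_c _)
    (((PBdd.const 4).mul (he.sz_le.add (PBdd.const 4))).add (PBdd.const 1)) (by
      intro a l₁ l₂ _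
      have h1 := RunP_len (fe a) (fun b => pwz (fe a) (wpr (fe a) (bl (fv a) (fZ a)
        (fidx (fw a) (fN a) * fc a + b))) (((ft a).getD b []).getD (fa a) (false, []))) l₂
      refine (sz_bool_list _).2.trans ?_
      have h2 := length_lt_sz (fe a)
      refine Nat.add_le_add_right (Nat.mul_le_mul_left 4 (h1.trans ?_)) 1
      omega)

private theorem RunP_rstep {fe : α → List Bool} {fv fc : α → ℕ} {fN : α → List (List Bool)}
    {fZ : α → List Bool} {ft : α → List (List SI)} {fq : α → Tok}
    {fs : α → List (List Bool) × List (List Bool) × List Bool}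
    (he : Poly fe) (hv : Poly fv) (hc : Poly fc) (hN : Poly fN) (hZ : Poly fZ) (ht : Poly ft)
    (hq : Poly fq) (hs : Poly fs) :
    Poly (fun a => rstep (fe a) (fv a) (fc a) (fN a) (fZ a) (ft a) (fq a) (fs a)) := by
  have hl : Poly (fun a => (fs a).2.1.length) := by fun_prop
  have h1 : Poly (fun a => (fs a).1.headD [true]) := by fun_prop
  have h2 : Poly (fun a => (fs a).1.tail.headD [true]) := by fun_prop
  have h3 : Poly (fun a => tval (fe a) (fv a) (fc a) (fN a) (fZ a) (ft a) (fs a).2.1.length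
      (fq a).2) := poly_tval he hv hc hN hZ ht hl (by fun_prop)
  have h4 : Poly (fun a => tval (fe a) (fv a) (fc a) (fN a) (fZ a) (ft a) (fs a).2.1.length
      (fs a).2.2) := poly_tval he hv hc hN hZ ht hl (by fun_prop)
  have hq1 : Poly (fun a => (fq a).1) := by fun_prop
  have hq0 : Poly (fun a => decide ((fq a).1 = 0)) := Poly.isZero hq1
  have hq4 : Poly (fun a => decide ((fq a).1 = 4)) := Poly.nateq hq1 (RunP_c 4)
  have hu : Poly (fun a => bif decide ((fq a).1 = 0) then [true]
      else bif decide ((fq a).1 = 4) then tval (fe a) (fv a) (fc a) (fN a) (fZ a) (ft a)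
        (fs a).2.1.length (fq a).2
      else bif decide ((fq a).1 = 1) then
        rad (fe a) ((fs a).1.headD [true]) ((fs a).1.tail.headD [true])
      else bif decide ((fq a).1 = 2) then
        rmu (fe a) ((fs a).1.headD [true]) ((fs a).1.tail.headD [true])
      else tval (fe a) (fv a) (fc a) (fN a) (fZ a) (ft a) (fs a).2.1.length (fs a).2.2) :=
    Poly.cond (by fun_prop) (RunP_c _) (Poly.cond (by fun_prop) h3 (Poly.cond (by fun_prop)
      (Pool.Agent.TW.Poly.rad he h1 h2) (Poly.cond (by fun_prop)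
        (Pool.Agent.TW.Poly.rmu he h1 h2) h4)))
  have hr : Poly (fun a => bif decide ((fq a).1 = 0) || decide ((fq a).1 = 4) then (fs a).1
      else (fs a).1.tail.tail) :=
    Poly.cond (Poly.or hq0 hq4) (by fun_prop) (by fun_prop)
  have h5 : Poly (fun a => (fs a).2.1) := by fun_prop
  have h6 : Poly (fun a => (fq a).2) := by fun_prop
  have h7 := Poly.pair (Poly.lcons hu hr) (Poly.pair (Poly.append h5
    (Poly.lcons hu (RunP_c ([] : List (List Bool))))) h6)
  exact h7

private theorem RunP_sz (e : List Bool) (v c : ℕ) (N : List (List Bool)) (Z : List Bool)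
    (tab : List (List SI)) (T l₁ l₂ : List Tok) (h : T = l₁ ++ l₂) :
    sz (mrun e v c N Z tab l₂) ≤ 2 * (sz T * (4 * (sz e + 4) + 2) + 1) + sz T + 3 := by
  obtain ⟨h1, h2, h3, h4⟩ := mrun_len e v c N Z tab l₂
  have hT : l₂.length ≤ sz T := by
    have h5 := length_lt_sz T
    have h6 : l₂.length ≤ T.length := by
      rw [h, List.length_append]
      omega
    omega
  have he := length_lt_sz e
  have hK : ∀ l : List (List Bool), l.length ≤ sz T → (∀ x ∈ l, x.length ≤ e.length + 4) →
      sz l ≤ sz T * (4 * (sz e + 4) + 2) + 1 := by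
    intro l hl hx
    refine (sz_le_of_forall l (4 * (sz e + 4) + 1) fun x hm => ?_).trans ?_
    · have h5 := hx x hm
      have h6 := (sz_bool_list x).2
      omega
    · exact Nat.add_le_add_right (Nat.mul_le_mul_right _ hl) 1
  have k1 := hK _ (h1.trans hT) h3
  have k2 := hK _ (h2.le.trans hT) h4
  have k3 : sz (mrun e v c N Z tab l₂).2.2 ≤ sz T + 1 := by
    cases l₂ with
    | nil =>
      show sz ([] : List Bool) ≤ _
      rw [sz_lnil]
      omega
    | cons q l =>
      rw [Run2_name]
      have h5 : sz q < sz T := by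
        refine sz_mem_lt ?_
        rw [h]
        exact List.mem_append_right _ List.mem_cons_self
      have h6 := sz_prod q
      omega
  rw [sz_prod, sz_prod (mrun e v c N Z tab l₂).2]
  omega

theorem poly_mrun {fe : α → List Bool} {fv fc : α → ℕ} {fN : α → List (List Bool)}
    {fZ : α → List Bool} {ft : α → List (List SI)} {fT : α → List Tok}
    (he : Poly fe) (hv : Poly fv) (hc : Poly fc) (hN : Poly fN) (hZ : Poly fZ) (ht : Poly ft)
    (hT : Poly fT) :
    Poly (fun a => mrun (fe a) (fv a) (fc a) (fN a) (fZ a) (ft a) (fT a)) := by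
  have hf : Poly (fun p : α × (List (List Bool) × List (List Bool) × List Bool) × Tok =>
      rstep (fe p.1) (fv p.1) (fc p.1) (fN p.1) (fZ p.1) (ft p.1) p.2.2 p.2.1) :=
    RunP_rstep (he.comp Poly.fst) (hv.comp Poly.fst) (hc.comp Poly.fst) (hN.comp Poly.fst)
      (hZ.comp Poly.fst) (ht.comp Poly.fst) (by fun_prop) (by fun_prop)
  exact Poly.foldr
    (f := fun p : α × (List (List Bool) × List (List Bool) × List Bool) × Tok =>
      rstep (fe p.1) (fv p.1) (fc p.1) (fN p.1) (fZ p.1) (ft p.1) p.2.2 p.2.1)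
    (l := fT) (s0 := fun _ => (([], [], []) : List (List Bool) × List (List Bool) × List Bool))
    (B := fun a => 2 * (sz (fT a) * (4 * (sz (fe a) + 4) + 2) + 1) + sz (fT a) + 3) hf hT
    (RunP_c _)
    ((((PBdd.const 2).mul ((hT.sz_le.mul (((PBdd.const 4).mul (he.sz_le.add
      (PBdd.const 4))).add (PBdd.const 2))).add (PBdd.const 1))).add hT.sz_le).add
      (PBdd.const 3)) (by
      intro a l₁ l₂ h
      exact RunP_sz (fe a) (fv a) (fc a) (fN a) (fZ a) (ft a) (fT a) l₁ l₂ h)

theorem poly_hrow {fe : α → List Bool} {fv fc : α → ℕ} {fN : α → List (List Bool)}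
    {fZ : α → List Bool} {ft : α → List (List SI)} {fT : α → List Tok}
    (he : Poly fe) (hv : Poly fv) (hc : Poly fc) (hN : Poly fN) (ht : Poly ft)
    (hT : Poly fT) (hZ : Poly fZ) :
    Poly (fun a => hrow (fe a) (fv a) (fc a) (fN a) (ft a) (fT a) (fZ a)) := by
  have h1 : Poly (fun a => mrun (fe a) (fv a) (fc a) (fN a) (fZ a) (ft a) (fT a).tail) :=
    poly_mrun he hv hc hN hZ ht (Poly.tail hT)
  have h2 : Poly (fun p : α × ℕ =>
      (mrun (fe p.1) (fv p.1) (fc p.1) (fN p.1) (fZ p.1) (ft p.1) (fT p.1).tail).2.1) := by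
    have h3 : Poly (fun p : α × ℕ =>
        mrun (fe p.1) (fv p.1) (fc p.1) (fN p.1) (fZ p.1) (ft p.1) (fT p.1).tail) :=
      h1.comp Poly.fst
    fun_prop
  have h4 : Poly (fun p : α × ℕ => (fT p.1).reverse) := Poly.reverse (hT.comp Poly.fst)
  have h5 : Poly (fun p : α × ℕ => ((fT p.1).reverse.getD p.2 (0, [])).1) := by
    have h6 : Poly (fun p : α × ℕ => (fT p.1).reverse.getD p.2 (0, [])) :=
      Poly.getD (by fun_prop) h4 (RunP_c _)
    fun_prop
  have hf : Poly (fun p : α × ℕ =>
      bif decide (((fT p.1).reverse.getD p.2 (0, [])).1 = 3) then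
        (mrun (fe p.1) (fv p.1) (fc p.1) (fN p.1) (fZ p.1) (ft p.1) (fT p.1).tail).2.1.getD
          (p.2 - 2) [true] else [true]) :=
    Poly.cond (by fun_prop) (Poly.getD (by fun_prop) h2 (RunP_c _)) (RunP_c _)
  unfold hrow
  exact Pool.Agent.H.MP_5be563_lc.PT.Poly.map (f := fun a i => bif decide (((fT a).reverse.getD i (0, [])).1 = 3) then
        (mrun (fe a) (fv a) (fc a) (fN a) (fZ a) (ft a) (fT a).tail).2.1.getD
          (i - 2) [true] else [true]) (l := fun a => List.range (fT a).length) hf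
    (Poly.range (Poly.length hT))

end Pool.Agent.TW
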