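import Pool.Agent.H.MP_b2d7dd_lc.TW.MRat
import Pool.Agent.H.MP_b2d7dd_lc.TW.Run

/-!
# Module Lift: from residues to integers

`row` = a list of `L` residues, `dprod` = the product `D` of the denominators of its entries (found
by `mden`), the lifted row has as entries the integers of smallest absolute value (relative to the
bound `PB`: residues at most `bval PB` are taken as they are, the others minus the modulus) which are
congruent to `D * entry`. Lifted rows with an entry of absolute value more than `bval PB` are
dropped (`ltab`).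
`lift_complete`: by `den_small` the denominator `d_a` of the entry `c_a` satisfies `d_a ≤ N ^ 2`,
`d_a c_a ≡ n_a`, `|n_a| ≤ N`; so `D c_a ≡ (∏_{b ≠ a} d_b) n_a`, which is at most
`N ^ (2 (L - 1) + 1) ≤ P` in absolute value, and `2 P < r`. `D ≠ 0` by `den_pos` (`r` is prime).
-/

namespace Pool.Agent.TW

open Pool.Agent.TI Pool.Agent.H.MP_5be563_lc.PT

variable {α : Type} [Enc α]

/-- The product of the denominators. -/
def dprod (e NB : List Bool) (k L : ℕ) (row : List (List Bool)) : List Bool :=
  (List.range L).foldr (fun a acc => rmu e acc (mden e NB k (row.getD a []))) [true]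

/-- The integer congruent to `D x`. -/
def lent (e PB D x : List Bool) : SI :=
  bif ble (rmu e D x) PB then (false, rmu e D x)
  else (true, bsub (badd (md e) [true]) (rmu e D x))

/-- The lifted row. -/
def lift (e NB PB : List Bool) (k L : ℕ) (row : List (List Bool)) : List SI :=
  (List.range L).map fun a => lent e PB (dprod e NB k L row) (row.getD a [])

/-- The entries are small. -/
def lok (PB : List Bool) (l : List SI) : Bool := l.all fun x => ble x.2 PB

/-- The table. -/
def ltab (e NB PB : List Bool) (k L : ℕ) (rows : List (List (List Bool))) : List (List SI) :=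
  (rows.map (lift e NB PB k L)).filter (lok PB)

private theorem Lift_md (e : List Bool) : bval (badd (md e) [true]) = bval e + 2 := by
  rw [bval_badd]
  exact bval_md e

private theorem Lift_rmu_lt (e x y : List Bool) : bval (rmu e x y) < bval e + 2 := by
  rw [rmu, bval_bmod_md]
  exact Nat.mod_lt _ (by omega)

private theorem Lift_neg (e x y : List Bool) :
    bval (bsub (badd (md e) [true]) (rmu e x y)) = bval e + 2 - bval (rmu e x y) := by
  rw [bval_bsub (by rw [Lift_md]; exact (Lift_rmu_lt e x y).le), Lift_md]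

theorem zof_lent (e PB D x : List Bool) :
    ((zof (lent e PB D x) : ℤ) : ZMod (bval e + 2)) = zv e D * zv e x := by
  rw [← zv_rmu]
  unfold lent
  cases ble (rmu e D x) PB with
  | true =>
    show (((bval (rmu e D x) : ℕ) : ℤ) : ZMod (bval e + 2)) = zv e (rmu e D x)
    rw [Int.cast_natCast]
    rfl
  | false =>
    show ((-((bval (bsub (badd (md e) [true]) (rmu e D x)) : ℕ) : ℤ) : ℤ) : ZMod (bval e + 2)) =
      zv e (rmu e D x)
    rw [Lift_neg, Int.cast_neg, Int.cast_natCast, Nat.cast_sub (Lift_rmu_lt e D x).le,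
      ZMod.natCast_self, zero_sub, neg_neg]
    rfl

private theorem Lift_getD (e NB PB : List Bool) (k L : ℕ) (row : List (List Bool)) {a : ℕ}
    (ha : a < L) : irow (lift e NB PB k L row) a =
      zof (lent e PB (dprod e NB k L row) (row.getD a [])) := by
  unfold irow lift
  rw [List.getD_eq_getElem _ _ (by simpa using ha), List.getElem_map, List.getElem_range]

theorem lift_cong (e NB PB : List Bool) (k L : ℕ) (row : List (List Bool)) {a : ℕ}
    (ha : a < L) : ((irow (lift e NB PB k L row) a : ℤ) : ZMod (bval e + 2)) =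
      zv e (dprod e NB k L row) * zv e (row.getD a []) := by
  rw [Lift_getD e NB PB k L row ha, zof_lent]

private theorem Lift_zof_default : zof ((false, []) : SI) = 0 := by
  simp [zof]

theorem lift_out (e NB PB : List Bool) (k L : ℕ) (row : List (List Bool)) {a : ℕ}
    (ha : L ≤ a) : irow (lift e NB PB k L row) a = 0 := by
  unfold irow lift
  rw [List.getD_eq_default _ _ (by simpa using ha)]
  exact Lift_zof_default

private theorem Lift_abs (x : SI) : |zof x| = (bval x.2 : ℤ) := by
  obtain ⟨s, l⟩ := x
  cases s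
  · show |((bval l : ℕ) : ℤ)| = _
    exact abs_of_nonneg (Int.natCast_nonneg _)
  · show |(-((bval l : ℕ) : ℤ))| = _
    rw [abs_neg]
    exact abs_of_nonneg (Int.natCast_nonneg _)

theorem mem_ltab {e NB PB : List Bool} {k L : ℕ} {rows : List (List (List Bool))}
    {l : List SI} (h : l ∈ ltab e NB PB k L rows) :
    (∃ row ∈ rows, l = lift e NB PB k L row) ∧ ∀ a, |irow l a| ≤ bval PB := by
  unfold ltab at h
  rw [List.mem_filter, List.mem_map] at h
  obtain ⟨⟨row, hr, hl⟩, hok⟩ := h
  refine ⟨⟨row, hr, hl.symm⟩, fun a => ?_⟩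
  unfold irow
  by_cases ha : a < l.length
  · rw [List.getD_eq_getElem _ _ ha, Lift_abs]
    unfold lok at hok
    rw [List.all_eq_true] at hok
    have h1 := (ble_iff _ _).1 (hok _ (List.getElem_mem ha))
    exact_mod_cast h1
  · rw [List.getD_eq_default _ _ (by omega), Lift_zof_default, abs_zero]
    exact Int.natCast_nonneg _

private theorem Lift_foldr (e : List Bool) (f : ℕ → List Bool) (L : List ℕ) :
    zv e (L.foldr (fun a acc => rmu e acc (f a)) [true]) = (L.map fun a => zv e (f a)).prod := by
  induction L with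
  | nil => exact zv_one e
  | cons b L ih =>
    rw [List.foldr_cons, zv_rmu, ih, List.map_cons, List.prod_cons, mul_comm]

private theorem Lift_dprod (e NB : List Bool) (k L : ℕ) (row : List (List Bool)) :
    zv e (dprod e NB k L row) = ∏ a ∈ Finset.range L,
      ((den (bval e + 2) (bval NB) k (bval (row.getD a []) % (bval e + 2)) : ℕ) :
        ZMod (bval e + 2)) := by
  unfold dprod
  rw [Lift_foldr, Finset.prod_range, ← List.prod_ofFn]
  congr 1
  apply List.ext_getElem
  · simp
  · intro i h2 h3
    rw [List.getElem_map, List.getElem_range, List.getElem_ofFn]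
    unfold zv
    rw [mden_val]

theorem lift_complete {e NB PB : List Bool} {k L : ℕ} (hp : (bval e + 2).Prime)
    (hN : 1 ≤ bval NB) (hk : bval e + 2 ≤ 2 ^ (k / 2))
    (hNr : (bval NB) ^ 2 * (bval NB + 1) < bval e + 2)
    (hP : (bval NB) ^ (2 * L + 1) ≤ bval PB) (hPr : 2 * bval PB < bval e + 2)
    {row : List (List Bool)}
    (h : ∀ a < L, ∃ (n : ℤ) (D' : ℕ), |n| ≤ bval NB ∧ 0 < D' ∧ D' ≤ bval NB ∧
      (D' : ZMod (bval e + 2)) * zv e (row.getD a []) = (n : ZMod (bval e + 2))) :
    lok PB (lift e NB PB k L row) = true ∧ zv e (dprod e NB k L row) ≠ 0 := by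
  have hfact : Fact (bval e + 2).Prime := ⟨hp⟩
  set r := bval e + 2 with hrdef
  set N := bval NB with hNdef
  have hr2 : 2 ≤ r := hp.two_le
  have hc : ∀ a, bval (row.getD a []) % r < r := fun a => Nat.mod_lt _ (by omega)
  set d : ℕ → ℕ := fun a => den r N k (bval (row.getD a []) % r) with hd
  have hdpos : ∀ a, 0 < d a ∧ d a < r := fun a => den_pos hN hr2 (hc a)
  have hD : zv e (dprod e NB k L row) = ∏ a ∈ Finset.range L, ((d a : ℕ) : ZMod r) :=
    Lift_dprod e NB k L row
  have hdz : ∀ a, ((d a : ℕ) : ZMod r) ≠ 0 := by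
    intro a h0
    rw [ZMod.natCast_eq_zero_iff] at h0
    have := Nat.le_of_dvd (hdpos a).1 h0
    have := (hdpos a).2
    omega
  have hds : ∀ a < L, d a ≤ N ^ 2 ∧ ∃ n1 : ℤ, |n1| ≤ N ∧
      ((d a : ℕ) : ZMod r) * zv e (row.getD a []) = (n1 : ZMod r) := by
    intro a ha
    obtain ⟨n, D', hn, hD0, hDN, hE⟩ := h a ha
    have hcast : ((bval (row.getD a []) % r : ℕ) : ZMod r) = zv e (row.getD a []) := by
      rw [ZMod.natCast_mod]
      rfl
    have hmod : (D' : ℤ) * ((bval (row.getD a []) % r : ℕ) : ℤ) ≡ n [ZMOD r] := by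
      rw [← ZMod.intCast_eq_intCast_iff, Int.cast_mul, Int.cast_natCast, Int.cast_natCast, hcast]
      exact hE
    obtain ⟨h1, n1, h2, h3⟩ := den_small (k := k) hN hp (hc a) hk hNr hn hD0 hDN hmod
    refine ⟨h1, n1, h2, ?_⟩
    rw [← ZMod.intCast_eq_intCast_iff, Int.cast_mul, Int.cast_natCast, Int.cast_natCast,
      hcast] at h3
    exact h3
  refine ⟨?_, ?_⟩
  · unfold lok
    rw [List.all_eq_true]
    intro x hx
    unfold lift at hx
    rw [List.mem_map] at hx
    obtain ⟨a, ha, rfl⟩ := hx
    rw [List.mem_range] at ha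
    rw [ble_iff]
    obtain ⟨-, n1, hn1, hE⟩ := hds a ha
    set M : ℤ := ((∏ b ∈ (Finset.range L).erase a, d b : ℕ) : ℤ) * n1 with hM
    have hval : zv e (rmu e (dprod e NB k L row) (row.getD a [])) = (M : ZMod r) := by
      rw [zv_rmu, hD, hM, ← Finset.mul_prod_erase _ _ (Finset.mem_range.2 ha), Int.cast_mul, ← hE,
        Int.cast_natCast, Nat.cast_prod]
      ring
    have hMabs : |M| ≤ bval PB := by
      rw [hM, abs_mul, Nat.abs_cast]
      have h1 : ∏ b ∈ (Finset.range L).erase a, d b ≤ (N ^ 2) ^ ((Finset.range L).erase a).card := by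
        apply Finset.prod_le_pow_card
        intro b hb
        exact (hds b (Finset.mem_range.1 (Finset.mem_of_mem_erase hb))).1
      have h2 : (N ^ 2) ^ ((Finset.range L).erase a).card * N ≤ bval PB := by
        refine le_trans ?_ hP
        rw [← pow_mul, ← pow_succ]
        apply Nat.pow_le_pow_right hN
        have h3 : ((Finset.range L).erase a).card ≤ L := by
          refine (Finset.card_le_card (Finset.erase_subset _ _)).trans ?_
          rw [Finset.card_range]
        omega
      have h4 : ((∏ b ∈ (Finset.range L).erase a, d b : ℕ) : ℤ) * |n1| ≤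
          (((N ^ 2) ^ ((Finset.range L).erase a).card : ℕ) : ℤ) * (N : ℤ) :=
        mul_le_mul (by exact_mod_cast h1) hn1 (abs_nonneg _) (Int.natCast_nonneg _)
      refine h4.trans ?_
      exact_mod_cast h2
    set v := bval (rmu e (dprod e NB k L row) (row.getD a [])) with hv
    have hvr : v < r := Lift_rmu_lt _ _ _
    have hcong : (r : ℤ) ∣ (v : ℤ) - M := by
      have h1 : (((v : ℤ) - M : ℤ) : ZMod r) = 0 := by
        rw [Int.cast_sub, Int.cast_natCast, ← hval]
        exact sub_self _
      exact (ZMod.intCast_zmod_eq_zero_iff_dvd _ _).1 h1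
    obtain ⟨q, hq⟩ := hcong
    rw [abs_le] at hMabs
    have hq' : q = 0 ∨ q = 1 := by
      have h1 : -(r : ℤ) < r * q := by
        rw [← hq]
        have : (0 : ℤ) ≤ v := Int.natCast_nonneg _
        have : (2 * bval PB : ℤ) < r := by exact_mod_cast hPr
        omega
      have h2 : r * q < 2 * (r : ℤ) := by
        rw [← hq]
        have : (v : ℤ) < r := by exact_mod_cast hvr
        have : (2 * bval PB : ℤ) < r := by exact_mod_cast hPr
        omega
      have h3 : (0 : ℤ) < r := by exact_mod_cast (by omega : 0 < r)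
      have h4 : -1 < q := by nlinarith
      have h5 : q < 2 := by nlinarith
      omega
    unfold lent
    cases hb : ble (rmu e (dprod e NB k L row) (row.getD a [])) PB with
    | true => exact (ble_iff _ _).1 hb
    | false =>
      have h1 : ¬ v ≤ bval PB := by
        rw [hv, ← ble_iff, hb]
        simp
      show bval (bsub (badd (md e) [true]) (rmu e (dprod e NB k L row) (row.getD a []))) ≤ bval PB
      rw [Lift_neg, ← hv, ← hrdef]
      rcases hq' with hq0 | hq1
      · rw [hq0, mul_zero] at hq
        omega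
      · rw [hq1, mul_one] at hq
        omega
  · rw [hD]
    exact Finset.prod_ne_zero_iff.2 fun a _ => hdz a

end Pool.Agent.TW
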