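import Pool.Agent.H.MP_b2d7dd_lc.TW.MEl
import Pool.Agent.H.MP_5be563_lc.PT.Tree

/-!
# Module MElP: the elimination runs in polynomial time

`Poly.foldl` (PT/Typed) over the range; bound for the size of the states from `melim_len` (the
rows of the input may be arbitrary, so first every row is brought into the form
`(List.range L).map (fun j => bmod (v.getD j []) (md e))`, function `mnorm`; this does not change the
values). `List.find?`: `Poly.find?` of PT/Tree.
-/

namespace Pool.Agent.TW

open Pool.Agent.TI Pool.Agent.H.MP_5be563_lc.PT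

variable {α : Type} [Enc α]

/-- Normalisation of a row. -/
def mnorm (e : List Bool) (L : ℕ) (v : List (List Bool)) : List (List Bool) :=
  (List.range L).map fun j => bmod (v.getD j []) (md e)

private theorem MElP_getD {β : Type} (L : ℕ) (f : ℕ → β) (d : β) (j : ℕ) :
    ((List.range L).map f).getD j d = if j < L then f j else d := by
  by_cases h : j < L
  · rw [if_pos h, List.getD_eq_getElem _ _ (by simpa using h)]
    simp
  · rw [if_neg h, List.getD_eq_default _ _ (by simpa using h)]

theorem evr_mnorm (e : List Bool) (L : ℕ) (v : List (List Bool)) (h : v.length = L) :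
    evr e (mnorm e L v) = evr e v := by
  funext j
  unfold evr mnorm
  rw [MElP_getD]
  by_cases hj : j < L
  · rw [if_pos hj, zv_bmod]
  · rw [if_neg hj, List.getD_eq_default v _ (by omega)]

theorem mnorm_length (e : List Bool) (L : ℕ) (v : List (List Bool)) :
    (mnorm e L v).length = L := by
  simp [mnorm]

/-- The pivot rows. -/
def pivots (e : List Bool) (L : ℕ) (rows : List (List (List Bool))) : List (List (List Bool)) :=
  (melim e L (rows.map (mnorm e L))).1

theorem pivots_val (e : List Bool) (L : ℕ) (rows : List (List (List Bool)))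
    (h : ∀ v ∈ rows, v.length = L) :
    (pivots e L rows).map (evr e) =
      (erun (fun x : ZMod (bval e + 2) => x ^ bval e) L (rows.map (evr e))).1 := by
  unfold pivots
  rw [melim_val e L _ (by
    intro v hv
    obtain ⟨w, _, rfl⟩ := List.mem_map.1 hv
    exact mnorm_length e L w), List.map_map]
  congr 2
  exact List.map_congr_left fun v hv => evr_mnorm e L v (h v hv)

theorem pivots_len (e : List Bool) (L : ℕ) (rows : List (List (List Bool))) :
    (pivots e L rows).length ≤ L ∧ ∀ v ∈ pivots e L rows, v.length = L ∧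
      ∀ x ∈ v, x.length ≤ e.length + 4 := by
  have h := melim_len e L (rows.map (mnorm e L)) (List.range L) (by
    intro v hv
    obtain ⟨w, _, rfl⟩ := List.mem_map.1 hv
    exact mnorm_length e L w)
  refine ⟨?_, h.2.2.1⟩
  have h1 := h.1
  rwa [List.length_range] at h1

/-- the bound for the size of a row -/
private def MElP_R (k L : ℕ) : ℕ := L * (4 * (k + 4) + 2) + 1

private theorem MElP_sz {k L : ℕ} {v : List (List Bool)} (h1 : v.length = L)
    (h2 : ∀ x ∈ v, x.length ≤ k + 4) : sz v ≤ MElP_R k L := by
  refine (sz_le_of_forall v (4 * (k + 4) + 1) fun x hx => ?_).trans ?_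
  · have := (sz_bool_list x).2
    have := h2 x hx
    omega
  · rw [h1]
    exact le_rfl

private theorem MElP_mem {e : List Bool} {L : ℕ} {w : List (List Bool)} {x : List Bool}
    (hx : x ∈ mnorm e L w) : x.length ≤ e.length + 4 := by
  obtain ⟨j, _, rfl⟩ := List.mem_map.1 hx
  have h1 := length_bmod_le (w.getD j []) (md e)
  have h2 := length_md_le e
  omega

private theorem MElP_mnorm {β : Type} [Enc β] {fe : β → List Bool} {fL : β → ℕ}
    {fv : β → List (List Bool)} (he : Poly fe) (hL : Poly fL) (hv : Poly fv) :
    Poly (fun b => mnorm (fe b) (fL b) (fv b)) := by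
  unfold mnorm
  exact H.MP_5be563_lc.PT.Poly.map (f := fun b j => bmod ((fv b).getD j []) (md (fe b))) (by fun_prop) (by fun_prop)

private theorem MElP_row {β : Type} [Enc β] {fe : β → List Bool} {fL fa : β → ℕ}
    {fw fv : β → List (List Bool)} (he : Poly fe) (hL : Poly fL) (ha : Poly fa) (hw : Poly fw)
    (hv : Poly fv) : Poly (fun b => melimRow (fe b) (fL b) (fa b) (fw b) (fv b)) := by
  unfold melimRow
  exact H.MP_5be563_lc.PT.Poly.map (f := fun b j => rsb (fe b) ((fv b).getD j [])
    (rmu (fe b) ((fv b).getD (fa b) []) ((fw b).getD j []))) (by fun_prop) (by fun_prop)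

private theorem MElP_scale {β : Type} [Enc β] {fe : β → List Bool} {fL fa : β → ℕ}
    {fv : β → List (List Bool)} (he : Poly fe) (hL : Poly fL) (ha : Poly fa)
    (hv : Poly fv) : Poly (fun b => mscale (fe b) (fL b) (fa b) (fv b)) := by
  unfold mscale
  exact H.MP_5be563_lc.PT.Poly.map (f := fun b j => rmu (fe b) (rin (fe b) ((fv b).getD (fa b) []))
    ((fv b).getD j [])) (by fun_prop) (by fun_prop)

private theorem MElP_step {β : Type} [Enc β] {fe : β → List Bool} {fL fa : β → ℕ}
    {fs : β → List (List (List Bool)) × List (List (List Bool))} (he : Poly fe) (hL : Poly fL)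
    (ha : Poly fa) (hs : Poly fs) : Poly (fun b => mestep (fe b) (fL b) (fa b) (fs b)) := by
  have hsc : Poly (fun p : β × List (List Bool) =>
      mscale (fe p.1) (fL p.1) (fa p.1) p.2) :=
    MElP_scale (by fun_prop) (by fun_prop) (by fun_prop) (by fun_prop)
  have hrow : Poly (fun p : (β × List (List Bool)) × List (List Bool) =>
      melimRow (fe p.1.1) (fL p.1.1) (fa p.1.1)
        (mscale (fe p.1.1) (fL p.1.1) (fa p.1.1) p.1.2) p.2) :=
    MElP_row (by fun_prop) (by fun_prop) (by fun_prop)
      (MElP_scale (by fun_prop) (by fun_prop) (by fun_prop) (by fun_prop)) (by fun_prop)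
  have h00 : Poly (fun p : β × List (List Bool) => p.2.getD (fa p.1) []) := by fun_prop
  have h0 : Poly (fun p : β × List (List Bool) => rnz (fe p.1) (p.2.getD (fa p.1) [])) :=
    Poly.rnz (by fun_prop) h00
  have h01 : Poly (fun b => (fs b).2) := by fun_prop
  have h1 : Poly (fun b => (fs b).2.find? (fun v => rnz (fe b) (v.getD (fa b) []))) :=
    @H.MP_5be563_lc.PT.Poly.find? β (List (List Bool)) _ _
      (fun b v => rnz (fe b) (v.getD (fa b) [])) (fun b => (fs b).2) h0 h01
  have h2 : Poly (fun p : β × List (List Bool) => (fs p.1).1.map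
      (melimRow (fe p.1) (fL p.1) (fa p.1) (mscale (fe p.1) (fL p.1) (fa p.1) p.2))) :=
    H.MP_5be563_lc.PT.Poly.map (f := fun (p : β × List (List Bool)) v => melimRow (fe p.1) (fL p.1)
      (fa p.1) (mscale (fe p.1) (fL p.1) (fa p.1) p.2) v) hrow (by fun_prop)
  have h3 : Poly (fun p : β × List (List Bool) => (fs p.1).2.map
      (melimRow (fe p.1) (fL p.1) (fa p.1) (mscale (fe p.1) (fL p.1) (fa p.1) p.2))) :=
    H.MP_5be563_lc.PT.Poly.map (f := fun (p : β × List (List Bool)) v => melimRow (fe p.1) (fL p.1)
      (fa p.1) (mscale (fe p.1) (fL p.1) (fa p.1) p.2) v) hrow (by fun_prop)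
  have key := Poly.ocase h1 hs (g := fun b v => (mscale (fe b) (fL b) (fa b) v ::
      (fs b).1.map (melimRow (fe b) (fL b) (fa b) (mscale (fe b) (fL b) (fa b) v)),
      (fs b).2.map (melimRow (fe b) (fL b) (fa b) (mscale (fe b) (fL b) (fa b) v))))
    (Poly.pair (Poly.lcons hsc h2) h3)
  refine (show (fun b => mestep (fe b) (fL b) (fa b) (fs b)) = _ from ?_) ▸ key
  funext b
  unfold mestep
  cases (fs b).2.find? (fun v => rnz (fe b) (v.getD (fa b) [])) <;> rfl

theorem poly_pivots {fe : α → List Bool} {fL : α → ℕ} {fr : α → List (List (List Bool))}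
    (he : Poly fe) (hL : Poly fL) (hr : Poly fr) :
    Poly (fun a => pivots (fe a) (fL a) (fr a)) := by
  have key := Poly.foldl (f := fun p : α × (List (List (List Bool)) × List (List (List Bool))) × ℕ =>
      mestep (fe p.1) (fL p.1) p.2.2 p.2.1) (l := fun a => List.range (fL a))
    (s0 := fun a => (([] : List (List (List Bool))), (fr a).map (mnorm (fe a) (fL a))))
    (B := fun a => (fL a * (MElP_R (fe a).length (fL a) + 1) + 1) +
      ((fr a).length * (MElP_R (fe a).length (fL a) + 1) + 1) + 1)
    (MElP_step (by fun_prop) (by fun_prop) (by fun_prop) (by fun_prop))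
    (by fun_prop)
    (Poly.pair (by fun_prop) (H.MP_5be563_lc.PT.Poly.map (f := fun a v => mnorm (fe a) (fL a) v)
      (MElP_mnorm (by fun_prop) (by fun_prop) (by fun_prop)) hr))
    (by
      have h1 : PBdd (fun a => (fe a).length) := he.sz_le.mono fun a => (length_lt_sz _).le
      have h2 : PBdd fL := hL.sz_le.mono fun a => by rw [sz_nat]; omega
      have h3 : PBdd (fun a => (fr a).length) := hr.sz_le.mono fun a => (length_lt_sz _).le
      have h4 : PBdd (fun a => MElP_R (fe a).length (fL a) + 1) :=
        ((h2.mul (((PBdd.const 4).mul (h1.add (PBdd.const 4))).add (PBdd.const 2))).add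
          (PBdd.const 1)).add (PBdd.const 1)
      exact (((h2.mul h4).add (PBdd.const 1)).add ((h3.mul h4).add (PBdd.const 1))).add
        (PBdd.const 1))
    (by
      intro a l₁ l₂ hl
      have hlen : l₁.length ≤ fL a := by
        have := congrArg List.length hl
        simp at this
        omega
      have hm := melim_len (fe a) (fL a) ((fr a).map (mnorm (fe a) (fL a))) l₁ (by
        intro v hv
        obtain ⟨w, _, rfl⟩ := List.mem_map.1 hv
        exact mnorm_length _ _ w)
      simp only at hm ⊢
      set s := l₁.foldl (fun s b => mestep (fe a) (fL a) b s)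
        (([] : List (List (List Bool))), (fr a).map (mnorm (fe a) (fL a)))
      rw [sz_prod]
      have h1 : sz s.1 ≤ fL a * (MElP_R (fe a).length (fL a) + 1) + 1 := by
        refine (sz_le_of_forall s.1 (MElP_R (fe a).length (fL a)) fun v hv => ?_).trans ?_
        · exact MElP_sz (hm.2.2.1 v hv).1 (hm.2.2.1 v hv).2
        · exact Nat.add_le_add_right (Nat.mul_le_mul_right _ (hm.1.trans hlen)) 1
      have h2 : sz s.2 ≤ (fr a).length * (MElP_R (fe a).length (fL a) + 1) + 1 := by
        refine (sz_le_of_forall s.2 (MElP_R (fe a).length (fL a)) fun v hv => ?_).trans ?_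
        · refine MElP_sz (hm.2.2.2 v hv).1 fun x hx => ?_
          rcases (hm.2.2.2 v hv).2 with h3 | h3
          · obtain ⟨w, _, rfl⟩ := List.mem_map.1 h3
            exact MElP_mem hx
          · exact h3 x hx
        · rw [hm.2.1, List.length_map]
      omega)
  exact Poly.comp (f := fun p : List (List (List Bool)) × List (List (List Bool)) => p.1)
    (by fun_prop) key

end Pool.Agent.TW
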