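import Mathlib

/-!
# Module Lin: small relations between integer vectors

`v_0, ..., v_{L-1}` integer vectors (finitely supported families over `Γ`) with entries at most `B`
in absolute value. `S` = the greedy basis over `ℚ` (the `s` such that `v_s` is not a rational
combination of the `v_a`, `a < s`). The vectors `v_s`, `s ∈ S`, are independent over `ℚ`, so there
are `d = card S` elements `γ_j` of `Γ` such that the minor `D = det (v_s (γ_j))` is not zero (the
columns of a matrix of rank `d` span; choose a basis among the columns). By Cramer's rule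
`D v_a = ∑ n_as v_s`, where `n_as` is the determinant with the row of `s` replaced by the one of
`v_a` (`v_a` is a rational combination of the `v_s`, `s ∈ S`, `s ≤ a`; the coefficients are unique).
`|D|, |n_as| ≤ d! B ^ d ≤ L! B ^ L` (`Matrix.det_le`). If `r ∤ D`, then the minor is not zero
modulo the prime `r`, so the `v_s` are independent modulo `r`.
-/

namespace Pool.Agent.TW

open Finset

/-- Bound for the minors. -/
def NB (L B : ℕ) : ℕ := L.factorial * B ^ L

/-- The greedy basis. -/
private theorem Lin_greedy {L : ℕ} {V : Type} [AddCommGroup V] [Module ℚ V] (w : Fin L → V) :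
    ∃ S : Finset (Fin L), LinearIndependent ℚ (fun s : S => w s) ∧
      ∀ a, ∃ c : Fin L → ℚ, (∀ s, c s ≠ 0 → s ∈ S ∧ s ≤ a) ∧ w a = ∑ s, c s • w s := by
  classical
  obtain ⟨S, hS⟩ : ∃ S : Finset (Fin L), ∀ s, s ∈ S ↔
      w s ∉ Submodule.span ℚ (w '' {a | a < s}) :=
    ⟨univ.filter fun s => w s ∉ Submodule.span ℚ (w '' {a | a < s}), fun s => by simp⟩
  refine ⟨S, ?_, ?_⟩
  · by_contra hdep
    obtain ⟨g, hg, i0, hi0⟩ := Fintype.not_linearIndependent_iff.1 hdep
    obtain ⟨i, hi, hmax⟩ := Finset.exists_max_image (univ.filter fun i : S => g i ≠ 0)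
      (fun i => (i : Fin L)) ⟨i0, by simp [hi0]⟩
    rw [mem_filter] at hi
    apply (hS i).1 i.2
    have h1 : g i • w i = -∑ j ∈ univ.erase i, g j • w j := by
      rw [← Finset.add_sum_erase univ _ (mem_univ i)] at hg
      exact eq_neg_of_add_eq_zero_left hg
    have h2 : w i = (g i)⁻¹ • (-∑ j ∈ univ.erase i, g j • w j) := by
      rw [← h1, smul_smul, inv_mul_cancel₀ hi.2, one_smul]
    rw [h2]
    apply Submodule.smul_mem
    apply Submodule.neg_mem
    apply Submodule.sum_mem
    intro j hj
    by_cases hgj : g j = 0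
    · rw [hgj, zero_smul]
      exact Submodule.zero_mem _
    · apply Submodule.smul_mem
      apply Submodule.subset_span
      refine ⟨j, ?_, rfl⟩
      have h3 := hmax j (by rw [mem_filter]; exact ⟨mem_univ _, hgj⟩)
      refine lt_of_le_of_ne h3 fun h => (Finset.ne_of_mem_erase hj) (Subtype.ext h)
  · have hspan : ∀ n : ℕ, ∀ a : Fin L, (a : ℕ) = n →
        w a ∈ Submodule.span ℚ (w '' (S.filter fun s => s ≤ a : Finset (Fin L))) := by
      intro n
      induction n using Nat.strong_induction_on with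
      | _ n ih =>
        intro a ha
        by_cases haS : a ∈ S
        · apply Submodule.subset_span
          exact ⟨a, by rw [Finset.mem_coe, mem_filter]; exact ⟨haS, le_rfl⟩, rfl⟩
        · have h1 : w a ∈ Submodule.span ℚ (w '' {b | b < a}) := by
            by_contra h
            exact haS ((hS a).2 h)
          refine (Submodule.span_le.2 ?_) h1
          rintro _ ⟨b, hb, rfl⟩
          have hb' : b < a := hb
          have h2 := ih (b : ℕ) (by rw [← ha]; exact hb') b rfl
          refine (Submodule.span_mono ?_) h2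
          apply Set.image_mono
          intro x hx
          rw [Finset.mem_coe, mem_filter] at hx ⊢
          exact ⟨hx.1, hx.2.trans hb'.le⟩
    intro a
    obtain ⟨c, hc⟩ := (Submodule.mem_span_image_finset_iff_exists_fun ℚ).1 (hspan a a rfl)
    refine ⟨fun s => if h : s ∈ S.filter (fun s => s ≤ a) then c ⟨s, h⟩ else 0, ?_, ?_⟩
    · intro s hs
      by_cases h : s ∈ S.filter (fun s => s ≤ a)
      · rw [mem_filter] at h
        exact h
      · simp only [dif_neg h] at hs
        exact absurd rfl hs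
    · rw [← hc, ← Finset.sum_subset (subset_univ (S.filter fun s => s ≤ a))]
      · rw [← Finset.sum_coe_sort (S.filter fun s => s ≤ a)]
        apply sum_congr rfl
        intro s _
        dsimp only
        rw [dif_pos s.2]
      · intro s _ hs
        dsimp only
        rw [dif_neg hs, zero_smul]

/-- A minor that is not zero. -/
private theorem Lin_minor {ι Γ : Type} [Fintype ι] [DecidableEq ι] (w : ι → Γ → ℚ)
    (hw : LinearIndependent ℚ w) : ∃ γ : ι → Γ, (Matrix.of fun s j => w s (γ j)).det ≠ 0 := by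
  classical
  have hspan : Submodule.span ℚ (Set.range fun (g : Γ) (s : ι) => w s g) = ⊤ := by
    by_contra hne
    obtain ⟨f, hf0, hf⟩ := Submodule.exists_le_ker_of_lt_top _ (lt_top_iff_ne_top.2 hne)
    apply hf0
    have h1 : ∑ s, (f fun j => if s = j then 1 else 0) • w s = 0 := by
      funext g
      have h2 : f (fun s => w s g) = 0 := hf (Submodule.subset_span ⟨g, rfl⟩)
      rw [LinearMap.pi_apply_eq_sum_univ] at h2
      rw [Finset.sum_apply, Pi.zero_apply]
      refine Eq.trans (sum_congr rfl fun s _ => ?_) h2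
      rw [Pi.smul_apply, smul_eq_mul, smul_eq_mul, mul_comm]
    have h3 := Fintype.linearIndependent_iff.1 hw _ h1
    apply LinearMap.ext
    intro x
    rw [LinearMap.pi_apply_eq_sum_univ, LinearMap.zero_apply]
    apply sum_eq_zero
    intro s _
    rw [h3 s, smul_zero]
  obtain ⟨b, hb, hbs, hbi⟩ := exists_linearIndependent ℚ
    (Set.range fun (g : Γ) (s : ι) => w s g)
  rw [hspan] at hbs
  let B : Module.Basis b ℚ (ι → ℚ) := Module.Basis.mk hbi (by
    rw [Subtype.range_coe, hbs])
  let e : b ≃ ι := B.indexEquiv (Pi.basisFun ℚ ι)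
  have hex : ∀ j : ι, ∃ g : Γ, (fun s => w s g) = (e.symm j : ι → ℚ) := fun j =>
    hb (e.symm j).2
  choose γ hγ using hex
  refine ⟨γ, ?_⟩
  have h4 : LinearIndependent ℚ (fun j : ι => ((e.symm j : b) : ι → ℚ)) :=
    hbi.comp e.symm e.symm.injective
  have h5 : LinearIndependent ℚ (Matrix.of fun (j s : ι) => w s (γ j)).row := by
    have h6 : (Matrix.of fun (j s : ι) => w s (γ j)).row =
        fun j : ι => ((e.symm j : b) : ι → ℚ) := by
      funext j
      exact hγ j
    rw [h6]
    exact h4
  rw [Matrix.linearIndependent_rows_iff_isUnit, Matrix.isUnit_iff_isUnit_det,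
    ← Matrix.det_transpose] at h5
  exact h5.ne_zero

/-- Independence from a minor. -/
private theorem Lin_indep {L : ℕ} {Γ R : Type} [CommRing R] [IsDomain R] (S : Finset (Fin L))
    (v : Fin L → Γ → R) (γ : S → Γ) (h : (Matrix.of fun (s j : S) => v s (γ j)).det ≠ 0)
    (θ : Fin L → R) (hθ : ∀ s, s ∉ S → θ s = 0) (h0 : ∀ g, ∑ s, θ s * v s g = 0) : θ = 0 := by
  classical
  have h1 : Matrix.vecMul (fun s : S => θ s) (Matrix.of fun (s j : S) => v s (γ j)) = 0 := by
    funext j
    rw [Matrix.vecMul, Pi.zero_apply, ← h0 (γ j), dotProduct]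
    rw [← Finset.sum_subset (subset_univ S) (fun s _ hs => by rw [hθ s hs, zero_mul]),
      ← Finset.sum_coe_sort S]
    rfl
  have h2 := Matrix.eq_zero_of_vecMul_eq_zero h h1
  funext s
  by_cases hs : s ∈ S
  · exact congrFun h2 ⟨s, hs⟩
  · exact hθ s hs

theorem lin {L : ℕ} {Γ : Type} (v : Fin L → Γ →₀ ℤ) {B : ℕ} (h1 : 1 ≤ B)
    (hB : ∀ a g, |v a g| ≤ B) :
    ∃ (S : Finset (Fin L)) (D : ℤ) (n : Fin L → Fin L → ℤ), D ≠ 0 ∧ |D| ≤ NB L B ∧
      (∀ a s, |n a s| ≤ NB L B) ∧
      (∀ a s, n a s ≠ 0 → s ∈ S ∧ s ≤ a) ∧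
      (∀ s ∈ S, ∀ s' ∈ S, n s s' = if s = s' then D else 0) ∧
      (∀ a, D • v a = ∑ s, n a s • v s) ∧
      (∀ θ : Fin L → ℤ, (∀ s, s ∉ S → θ s = 0) → ∑ s, θ s • v s = 0 → θ = 0) ∧
      (∀ r : ℕ, r.Prime → ¬ (r : ℤ) ∣ D → ∀ θ : Fin L → ZMod r, (∀ s, s ∉ S → θ s = 0) →
        (∀ g, ∑ s, θ s * (v s g : ZMod r) = 0) → θ = 0) := by
  classical
  obtain ⟨S, hS, hc⟩ := Lin_greedy (V := Γ → ℚ) (fun a g => (v a g : ℚ))
  choose c hc1 hc2 using hc
  obtain ⟨γ, hγ⟩ := Lin_minor (fun (s : S) (g : Γ) => (v s g : ℚ)) hS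
  obtain ⟨A, hA⟩ : ∃ A : Matrix S S ℤ, A = Matrix.of fun (s j : S) => v s (γ j) := ⟨_, rfl⟩
  obtain ⟨AQ, hAQ⟩ : ∃ AQ : Matrix S S ℚ, AQ = Matrix.of fun (s j : S) => (v s (γ j) : ℚ) :=
    ⟨_, rfl⟩
  have hAA : A.map (fun x : ℤ => (x : ℚ)) = AQ := by
    rw [hA, hAQ]
    rfl
  have hdet : ((A.det : ℤ) : ℚ) = AQ.det := by
    rw [← hAA]
    exact Int.cast_det A
  have hD0 : A.det ≠ 0 := by
    intro h
    rw [h, Int.cast_zero] at hdet
    rw [hAQ] at hdet
    exact hγ hdet.symm
  have hcard : Fintype.card S ≤ L := by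
    rw [Fintype.card_coe]
    exact (card_le_univ S).trans (by rw [Fintype.card_fin])
  have hB0 : (1 : ℤ) ≤ B := by exact_mod_cast h1
  have hbound : ∀ M : Matrix S S ℤ, (∀ i j, |M i j| ≤ B) → |M.det| ≤ (NB L B : ℤ) := by
    intro M hM
    have h2 := Matrix.det_le (abv := AbsoluteValue.abs) (x := (B : ℤ)) hM
    refine h2.trans ?_
    rw [nsmul_eq_mul, NB]
    push_cast
    apply mul_le_mul _ (pow_le_pow_right₀ hB0 hcard) (by positivity) (by positivity)
    exact_mod_cast Nat.factorial_le hcard
  obtain ⟨n, hn⟩ : ∃ n : Fin L → Fin L → ℤ, n = fun a s =>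
      if h : s ∈ S then (A.updateRow ⟨s, h⟩ (fun j => v a (γ j))).det else 0 := ⟨_, rfl⟩
  have hkey : ∀ a s, ((n a s : ℤ) : ℚ) = c a s * (A.det : ℤ) := by
    intro a s
    by_cases h : s ∈ S
    · rw [hn]
      simp only [dif_pos h]
      rw [Int.cast_det, Matrix.map_updateRow, hAA, hdet]
      have h2 : ((fun x : ℤ => (x : ℚ)) ∘ fun j => v a (γ j)) = ∑ k : S, c a k • AQ k := by
        funext j
        have h3 := congrFun (hc2 a) (γ j)
        rw [Finset.sum_apply] at h3
        rw [Finset.sum_apply]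
        simp only [Pi.smul_apply] at h3 ⊢
        rw [Function.comp_apply, h3, ← Finset.sum_subset (subset_univ S) (fun s _ hs => by
          have h4 : c a s = 0 := by
            by_contra h5
            exact hs (hc1 a s h5).1
          rw [h4, zero_smul]), ← Finset.sum_coe_sort S]
        apply sum_congr rfl
        intro k _
        rw [hAQ]
        rfl
      rw [h2, Matrix.det_updateRow_sum]
      rfl
    · have h4 : c a s = 0 := by
        by_contra h5
        exact h (hc1 a s h5).1
      rw [hn]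
      simp only [dif_neg h]
      rw [h4, zero_mul, Int.cast_zero]
  refine ⟨S, A.det, n, hD0, ?_, ?_, ?_, ?_, ?_, ?_, ?_⟩
  · apply hbound
    intro i j
    rw [hA]
    exact hB _ _
  · intro a s
    rw [hn]
    by_cases h : s ∈ S
    · simp only [dif_pos h]
      apply hbound
      intro i j
      by_cases hi : i = ⟨s, h⟩
      · rw [hi, Matrix.updateRow_self]
        exact hB _ _
      · rw [Matrix.updateRow_ne hi, hA]
        exact hB _ _
    · simp only [dif_neg h, abs_zero]
      positivity
  · intro a s hns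
    apply hc1
    intro h
    have h2 := hkey a s
    rw [h, zero_mul] at h2
    exact hns (by exact_mod_cast h2)
  · intro s hs s' hs'
    rw [hn]
    simp only [dif_pos hs']
    by_cases h : s = s'
    · subst h
      rw [if_pos rfl]
      congr 1
      have h2 : (fun j => v s (γ j)) = A ⟨s, hs⟩ := by
        rw [hA]
        rfl
      rw [h2, Matrix.updateRow_eq_self]
    · rw [if_neg h]
      have hne : (⟨s', hs'⟩ : S) ≠ ⟨s, hs⟩ := fun h' => h (congrArg Subtype.val h').symm
      apply Matrix.det_zero_of_row_eq hne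
      rw [Matrix.updateRow_self, Matrix.updateRow_ne hne.symm, hA]
      rfl
  · intro a
    apply Finsupp.ext
    intro g
    have h2 := congrFun (hc2 a) g
    rw [Finset.sum_apply] at h2
    simp only [Pi.smul_apply, smul_eq_mul] at h2
    rw [Finsupp.finsetSum_apply]
    simp only [Finsupp.smul_apply, smul_eq_mul]
    have h3 : (((A.det * v a g : ℤ)) : ℚ) = ((∑ s, n a s * v s g : ℤ) : ℚ) := by
      rw [Int.cast_mul, Int.cast_sum, h2, Finset.mul_sum]
      apply sum_congr rfl
      intro s _
      rw [Int.cast_mul, hkey a s]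
      ring
    exact_mod_cast h3
  · intro θ hθ h0
    apply Lin_indep S (fun a g => v a g) γ (by rw [← hA]; exact hD0) θ hθ
    intro g
    have h2 := congrArg (fun f : Γ →₀ ℤ => f g) h0
    simp only [Finsupp.finsetSum_apply, Finsupp.smul_apply, smul_eq_mul, Finsupp.coe_zero,
      Pi.zero_apply] at h2
    exact h2
  · intro r hr hrD θ hθ h0
    have : Fact r.Prime := ⟨hr⟩
    apply Lin_indep S (fun a g => (v a g : ZMod r)) γ _ θ hθ h0
    have h2 : (Matrix.of fun (s j : S) => (v s (γ j) : ZMod r)) =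
        A.map (fun x : ℤ => (x : ZMod r)) := by
      rw [hA]
      rfl
    rw [h2, ← Int.cast_det, Ne, ZMod.intCast_zmod_eq_zero_iff_dvd]
    exact hrD

end Pool.Agent.TW
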