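import Mathlib

/-!
# Module Elim: elimination

Rows are functions `ℕ → K` (only the columns `a < L` are used). The state is a pair: the pivot
rows found so far, and the remaining rows. Column `a` is processed as follows: a remaining row `v`
with `v a ≠ 0` is looked for; if there is one, it is multiplied by `iv (v a)` (in a field, the
inverse), becomes a new pivot row `w`, and `v' a * w` is subtracted from all other rows `v'` (old
pivot rows, remaining rows).

`erun_sound` holds for every commutative ring and every function `iv`: all rows are linear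
combinations of the given rows.

`erun_complete`: all the given rows `v` satisfy `v a = ∑_{s ∈ S} c a s * v s` for `a < L`, where
`c a s = 0` for `s > a` and `c s s' = δ` for `s, s' ∈ S`; and the only linear form supported on `S`
which vanishes on all the given rows is zero. Invariants after the columns `< a` (field, `iv` the
inverse): the relations hold for all rows (they are linear); remaining rows vanish at all columns
`< a`, so a remaining row can be non-zero at `a` only if `a ∈ S` (otherwise `v a = ∑ c a s * v s`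
over `s < a`); every pivot row belongs to some `b ∈ S`, `b < a`, is one at `b` and zero at the other
pivots; every linear form which vanishes on the pivot rows and the remaining rows vanishes on the
given rows. If at the end `b ∈ S` is not a pivot, the form `θ_b = 1`, `θ_p = - u_p b` for the pivots
`p` (`u_p` the pivot row of `p`) vanishes on all rows, a contradiction. So the pivots are the
elements of `S`, and `u_p a = ∑ c a s * u_p s = c a p`.
-/

namespace Pool.Agent.TW

open Finset

variable {K : Type}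

/-- The multiple of the row `w` which cancels column `a` is subtracted. -/
def elimRow [CommRing K] (a : ℕ) (w v : ℕ → K) : ℕ → K := fun j => v j - v a * w j

/-- One column. -/
def estep [CommRing K] [DecidableEq K] (iv : K → K) (a : ℕ)
    (s : List (ℕ → K) × List (ℕ → K)) : List (ℕ → K) × List (ℕ → K) :=
  match s.2.find? (fun v => decide (v a ≠ 0)) with
  | none => s
  | some v => ((fun j => iv (v a) * v j) :: s.1.map (elimRow a fun j => iv (v a) * v j),
      s.2.map (elimRow a fun j => iv (v a) * v j))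

/-- All columns `a < L`, in increasing order. -/
def erun [CommRing K] [DecidableEq K] (iv : K → K) (L : ℕ) (rows : List (ℕ → K)) :
    List (ℕ → K) × List (ℕ → K) :=
  (List.range L).foldl (fun s a => estep iv a s) ([], rows)

/-- A linear form on the multiple of a row. -/
theorem Elim_smul [CommRing K] (T : Finset ℕ) (k v : ℕ → K) (x : K) :
    ∑ j ∈ T, k j * (x * v j) = x * ∑ j ∈ T, k j * v j := by
  rw [Finset.mul_sum]
  exact Finset.sum_congr rfl fun j _ => by ring

/-- A linear form on an eliminated row. -/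
theorem Elim_row [CommRing K] (T : Finset ℕ) (k w v : ℕ → K) (a : ℕ) :
    ∑ j ∈ T, k j * elimRow a w v j = ∑ j ∈ T, k j * v j - v a * ∑ j ∈ T, k j * w j := by
  rw [Finset.mul_sum, ← Finset.sum_sub_distrib]
  exact Finset.sum_congr rfl fun j _ => by
    unfold elimRow
    ring

theorem Elim_cases [CommRing K] [DecidableEq K] (iv : K → K) (a : ℕ)
    (s : List (ℕ → K) × List (ℕ → K)) :
    ((∀ v ∈ s.2, v a = 0) ∧ estep iv a s = s) ∨
    ∃ v ∈ s.2, v a ≠ 0 ∧ estep iv a s =
      ((fun j => iv (v a) * v j) :: s.1.map (elimRow a fun j => iv (v a) * v j),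
      s.2.map (elimRow a fun j => iv (v a) * v j)) := by
  cases h : s.2.find? (fun v => decide (v a ≠ 0)) with
  | none =>
    left
    refine ⟨fun v hv => ?_, ?_⟩
    · have h1 := List.find?_eq_none.1 h v hv
      by_contra h2
      exact h1 (decide_eq_true h2)
    · unfold estep
      rw [h]
  | some v =>
    right
    refine ⟨v, List.mem_of_find?_eq_some h, ?_, ?_⟩
    · exact of_decide_eq_true (List.find?_some (p := fun v : ℕ → K => decide (v a ≠ 0)) h)
    · unfold estep
      rw [h]

theorem Elim_succ [CommRing K] [DecidableEq K] (iv : K → K) (L : ℕ) (rows : List (ℕ → K)) :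
    erun iv (L + 1) rows = estep iv L (erun iv L rows) := by
  unfold erun
  rw [List.range_succ, List.foldl_append, List.foldl_cons, List.foldl_nil]

theorem Elim_sound [CommRing K] [DecidableEq K] (iv : K → K) (L : ℕ) (rows : List (ℕ → K))
    (T : Finset ℕ) (k : ℕ → K) (h : ∀ v ∈ rows, ∑ j ∈ T, k j * v j = 0) :
    (∀ v ∈ (erun iv L rows).1, ∑ j ∈ T, k j * v j = 0) ∧
      ∀ v ∈ (erun iv L rows).2, ∑ j ∈ T, k j * v j = 0 := by
  induction L with
  | zero =>
    refine ⟨fun v hv => ?_, h⟩
    exact absurd hv List.not_mem_nil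
  | succ L ih =>
    obtain ⟨ih1, ih2⟩ := ih
    rw [Elim_succ]
    rcases Elim_cases iv L (erun iv L rows) with ⟨_, h2⟩ | ⟨v, h1, _, h2⟩
    · rw [h2]
      exact ⟨ih1, ih2⟩
    · rw [h2]
      have hw : ∑ j ∈ T, k j * (iv (v L) * v j) = 0 := by
        rw [Elim_smul, ih2 v h1, mul_zero]
      refine ⟨fun u hu => ?_, fun u hu => ?_⟩
      · rcases List.mem_cons.1 hu with hu | hu
        · rw [hu]
          exact hw
        · obtain ⟨u0, hu0, rfl⟩ := List.mem_map.1 hu
          rw [Elim_row, ih1 u0 hu0, hw, mul_zero, sub_zero]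
      · obtain ⟨u0, hu0, rfl⟩ := List.mem_map.1 hu
        rw [Elim_row, ih2 u0 hu0, hw, mul_zero, sub_zero]

theorem erun_sound [CommRing K] [DecidableEq K] (iv : K → K) (L : ℕ) (rows : List (ℕ → K))
    (M : ℕ) (k : ℕ → K) (h : ∀ v ∈ rows, ∑ j ∈ range M, k j * v j = 0) :
    ∀ v ∈ (erun iv L rows).1, ∑ j ∈ range M, k j * v j = 0 :=
  (Elim_sound iv L rows (range M) k h).1

theorem erun_length [CommRing K] [DecidableEq K] (iv : K → K) (L : ℕ) (rows : List (ℕ → K)) :
    (erun iv L rows).1.length ≤ L := by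
  induction L with
  | zero => exact le_rfl
  | succ L ih =>
    rw [Elim_succ]
    rcases Elim_cases iv L (erun iv L rows) with ⟨_, h2⟩ | ⟨v, _, _, h2⟩
    · rw [h2]
      exact ih.trans (Nat.le_succ L)
    · rw [h2, List.length_cons, List.length_map]
      exact Nat.succ_le_succ ih

/-- The invariants. -/
theorem Elim_inv [Field K] [DecidableEq K] (L : ℕ) (rows : List (ℕ → K))
    (S : Finset ℕ) (c : ℕ → ℕ → K)
    (hc : ∀ v ∈ rows, ∀ a < L, v a = ∑ s ∈ S, c a s * v s)
    (hlt : ∀ a s, a < s → c a s = 0) (a : ℕ) (ha : a ≤ L) :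
    (∀ v ∈ (erun (fun x => x⁻¹) a rows).1, ∀ b < L, v b = ∑ s ∈ S, c b s * v s) ∧
    (∀ v ∈ (erun (fun x => x⁻¹) a rows).2, ∀ b < L, v b = ∑ s ∈ S, c b s * v s) ∧
    (∀ v ∈ (erun (fun x => x⁻¹) a rows).2, ∀ b < a, v b = 0) ∧
    (∃ (T : Finset ℕ) (f : ℕ → ℕ → K), T ⊆ S ∧ (∀ b ∈ T, b < a) ∧
      (∀ u, u ∈ (erun (fun x => x⁻¹) a rows).1 ↔ ∃ b ∈ T, u = f b) ∧
      ∀ b ∈ T, ∀ b' ∈ T, f b b' = if b' = b then 1 else 0) ∧
    (∀ θ : ℕ → K, (∀ v ∈ (erun (fun x => x⁻¹) a rows).1, ∑ s ∈ S, θ s * v s = 0) →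
      (∀ v ∈ (erun (fun x => x⁻¹) a rows).2, ∑ s ∈ S, θ s * v s = 0) →
      ∀ v ∈ rows, ∑ s ∈ S, θ s * v s = 0) := by
  induction a with
  | zero =>
    refine ⟨fun v hv => absurd hv List.not_mem_nil, hc, fun v _ b hb => absurd hb (Nat.not_lt_zero b),
      ⟨∅, fun _ _ => 0, empty_subset _, fun b hb => absurd hb (notMem_empty b), fun u => ?_,
        fun b hb => absurd hb (notMem_empty b)⟩, fun θ _ h => h⟩
    constructor
    · intro hu
      exact absurd hu List.not_mem_nil
    · rintro ⟨b, hb, _⟩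
      exact absurd hb (notMem_empty b)
  | succ a ih =>
    obtain ⟨i1, i2, i3, ⟨T, f, i4, i5, i6, i7⟩, i8⟩ := ih (by omega)
    rw [Elim_succ]
    rcases Elim_cases (fun x : K => x⁻¹) a (erun (fun x => x⁻¹) a rows) with
      ⟨h1, h2⟩ | ⟨v, h1, h3, h2⟩
    · rw [h2]
      refine ⟨i1, i2, fun v hv b hb => ?_, ⟨T, f, i4, fun b hb => (i5 b hb).trans (Nat.lt_succ_self a),
        i6, i7⟩, i8⟩
      rcases Nat.lt_succ_iff_lt_or_eq.1 hb with hb | hb
      · exact i3 v hv b hb
      · rw [hb]
        exact h1 v hv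
    · rw [h2]
      obtain ⟨w, hw⟩ : ∃ w : ℕ → K, w = fun j => (v a)⁻¹ * v j := ⟨_, rfl⟩
      have hwa : w a = 1 := by
        rw [hw]
        exact inv_mul_cancel₀ h3
      have hwb : ∀ b < a, w b = 0 := by
        intro b hb
        rw [hw]
        show (v a)⁻¹ * v b = 0
        rw [i3 v h1 b hb, mul_zero]
      have hwr : ∀ b < L, w b = ∑ s ∈ S, c b s * w s := by
        intro b hb
        rw [hw]
        show (v a)⁻¹ * v b = ∑ s ∈ S, c b s * ((v a)⁻¹ * v s)
        rw [Elim_smul, ← i2 v h1 b hb]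
      have haS : a ∈ S := by
        by_contra haS
        apply h3
        rw [i2 v h1 a (by omega)]
        refine sum_eq_zero fun s hs => ?_
        rcases lt_trichotomy s a with h4 | h4 | h4
        · rw [i3 v h1 s h4, mul_zero]
        · rw [h4] at hs
          exact absurd hs haS
        · rw [hlt a s h4, zero_mul]
      have haT : a ∉ T := fun h => lt_irrefl a (i5 a h)
      have hel : ∀ u : ℕ → K, (∀ b < L, u b = ∑ s ∈ S, c b s * u s) →
          ∀ b < L, elimRow a w u b = ∑ s ∈ S, c b s * elimRow a w u s := by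
        intro u hu b hb
        rw [Elim_row, ← hu b hb, ← hwr b hb]
        rfl
      show (∀ u ∈ (fun j => (v a)⁻¹ * v j) :: (erun (fun x => x⁻¹) a rows).1.map
            (elimRow a fun j => (v a)⁻¹ * v j), ∀ b < L, u b = ∑ s ∈ S, c b s * u s) ∧
        (∀ u ∈ (erun (fun x => x⁻¹) a rows).2.map (elimRow a fun j => (v a)⁻¹ * v j),
          ∀ b < L, u b = ∑ s ∈ S, c b s * u s) ∧
        (∀ u ∈ (erun (fun x => x⁻¹) a rows).2.map (elimRow a fun j => (v a)⁻¹ * v j),
          ∀ b < a + 1, u b = 0) ∧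
        (∃ (T : Finset ℕ) (f : ℕ → ℕ → K), T ⊆ S ∧ (∀ b ∈ T, b < a + 1) ∧
          (∀ u, u ∈ (fun j => (v a)⁻¹ * v j) :: (erun (fun x => x⁻¹) a rows).1.map
            (elimRow a fun j => (v a)⁻¹ * v j) ↔ ∃ b ∈ T, u = f b) ∧
          ∀ b ∈ T, ∀ b' ∈ T, f b b' = if b' = b then 1 else 0) ∧
        (∀ θ : ℕ → K, (∀ u ∈ (fun j => (v a)⁻¹ * v j) :: (erun (fun x => x⁻¹) a rows).1.map
            (elimRow a fun j => (v a)⁻¹ * v j), ∑ s ∈ S, θ s * u s = 0) →
          (∀ u ∈ (erun (fun x => x⁻¹) a rows).2.map (elimRow a fun j => (v a)⁻¹ * v j),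
            ∑ s ∈ S, θ s * u s = 0) →
          ∀ u ∈ rows, ∑ s ∈ S, θ s * u s = 0)
      rw [← hw]
      refine ⟨?_, ?_, ?_, ?_, ?_⟩
      · intro u hu
        rcases List.mem_cons.1 hu with hu | hu
        · rw [hu]
          exact hwr
        · obtain ⟨u0, hu0, rfl⟩ := List.mem_map.1 hu
          exact hel u0 (i1 u0 hu0)
      · intro u hu
        obtain ⟨u0, hu0, rfl⟩ := List.mem_map.1 hu
        exact hel u0 (i2 u0 hu0)
      · intro u hu b hb
        obtain ⟨u0, hu0, rfl⟩ := List.mem_map.1 hu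
        show u0 b - u0 a * w b = 0
        rcases Nat.lt_succ_iff_lt_or_eq.1 hb with hb | hb
        · rw [i3 u0 hu0 b hb, hwb b hb, mul_zero, sub_zero]
        · rw [hb, hwa, mul_one, sub_self]
      · obtain ⟨g, hga, hgb⟩ : ∃ g : ℕ → ℕ → K, g a = w ∧ ∀ b, b ≠ a → g b = elimRow a w (f b) :=
          ⟨fun b => if b = a then w else elimRow a w (f b), if_pos rfl, fun b hb => if_neg hb⟩
        have hTa : ∀ b ∈ T, b ≠ a := fun b hb h => haT (h ▸ hb)
        refine ⟨insert a T, g, ?_, ?_, ?_, ?_⟩
        · exact insert_subset haS i4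
        · intro b hb
          rcases mem_insert.1 hb with hb | hb
          · omega
          · exact (i5 b hb).trans (Nat.lt_succ_self a)
        · intro u
          constructor
          · intro hu
            rcases List.mem_cons.1 hu with hu | hu
            · exact ⟨a, mem_insert_self a T, by rw [hu, hga]⟩
            · obtain ⟨u0, hu0, rfl⟩ := List.mem_map.1 hu
              obtain ⟨b, hb, rfl⟩ := (i6 u0).1 hu0
              exact ⟨b, mem_insert_of_mem hb, (hgb b (hTa b hb)).symm⟩
          · rintro ⟨b, hb, rfl⟩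
            rcases mem_insert.1 hb with hb | hb
            · rw [hb, hga]
              exact List.mem_cons_self
            · rw [hgb b (hTa b hb)]
              exact List.mem_cons_of_mem _ (List.mem_map_of_mem ((i6 _).2 ⟨b, hb, rfl⟩))
        · intro b hb b' hb'
          rcases mem_insert.1 hb with hb | hb
          · rw [hb, hga]
            rcases mem_insert.1 hb' with hb' | hb'
            · rw [hb', if_pos rfl, hwa]
            · rw [hwb b' (i5 b' hb'), if_neg (hTa b' hb')]
          · rw [hgb b (hTa b hb)]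
            show f b b' - f b a * w b' = _
            rcases mem_insert.1 hb' with hb' | hb'
            · rw [hb', hwa, mul_one, sub_self, if_neg (hTa b hb).symm]
            · rw [hwb b' (i5 b' hb'), mul_zero, sub_zero, i7 b hb b' hb']
      · intro θ h4 h5
        have h6 : ∑ s ∈ S, θ s * w s = 0 := h4 w List.mem_cons_self
        refine i8 θ (fun u hu => ?_) (fun u hu => ?_)
        · have h7 := h4 _ (List.mem_cons_of_mem _ (List.mem_map_of_mem (f := elimRow a w) hu))
          rw [Elim_row, h6, mul_zero, sub_zero] at h7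
          exact h7
        · have h7 := h5 _ (List.mem_map_of_mem (f := elimRow a w) hu)
          rw [Elim_row, h6, mul_zero, sub_zero] at h7
          exact h7

theorem erun_complete [Field K] [DecidableEq K] (L : ℕ) (rows : List (ℕ → K))
    (S : Finset ℕ) (hS : S ⊆ range L) (c : ℕ → ℕ → K)
    (hc : ∀ v ∈ rows, ∀ a < L, v a = ∑ s ∈ S, c a s * v s)
    (hlt : ∀ a s, a < s → c a s = 0)
    (hδ : ∀ s ∈ S, ∀ s' ∈ S, c s s' = if s = s' then 1 else 0)
    (hind : ∀ θ : ℕ → K, (∀ s, s ∉ S → θ s = 0) → (∀ v ∈ rows, ∑ s ∈ S, θ s * v s = 0) →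
      ∀ s, θ s = 0) :
    (∀ u ∈ (erun (fun x => x⁻¹) L rows).1, ∃ s ∈ S, ∀ a < L, u a = c a s) ∧
      ∀ s ∈ S, ∃ u ∈ (erun (fun x => x⁻¹) L rows).1, ∀ a < L, u a = c a s := by
  obtain ⟨i1, _, i3, ⟨T, f, i4, i5, i6, i7⟩, i8⟩ := Elim_inv L rows S c hc hlt L le_rfl
  have hTS : T = S := by
    refine Subset.antisymm i4 fun b hb => ?_
    by_contra hbT
    obtain ⟨θ, hθ⟩ : ∃ θ : ℕ → K, θ = fun s => if s = b then 1 else if s ∈ T then - f s b else 0 :=
      ⟨_, rfl⟩
    have h1 : ∀ s, s ∉ S → θ s = 0 := by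
      intro s hs
      rw [hθ]
      show (if s = b then (1 : K) else if s ∈ T then - f s b else 0) = 0
      have h2 : s ≠ b := fun h => hs (h ▸ hb)
      rw [if_neg h2, if_neg (fun h => hs (i4 h))]
    have h2 : ∀ v ∈ (erun (fun x => x⁻¹) L rows).2, ∑ s ∈ S, θ s * v s = 0 := by
      intro v hv
      refine sum_eq_zero fun s hs => ?_
      rw [i3 v hv s (mem_range.1 (hS hs)), mul_zero]
    have h3 : ∀ v ∈ (erun (fun x => x⁻¹) L rows).1, ∑ s ∈ S, θ s * v s = 0 := by
      intro v hv
      obtain ⟨p, hp, rfl⟩ := (i6 v).1 hv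
      have h4 : ∀ s ∈ S, θ s * f p s = (if s = b then f p b else 0) +
          (if s = p then - f p b else 0) := by
        intro s _
        rw [hθ]
        show (if s = b then (1 : K) else if s ∈ T then - f s b else 0) * f p s = _
        by_cases hsb : s = b
        · rw [if_pos hsb, if_pos hsb, if_neg (fun h => hbT (by rw [← hsb, h]; exact hp)), hsb,
            one_mul, add_zero]
        · rw [if_neg hsb, if_neg hsb, zero_add]
          by_cases hsT : s ∈ T
          · rw [if_pos hsT, i7 p hp s hsT]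
            by_cases hsp : s = p
            · rw [if_pos hsp, if_pos hsp, mul_one, hsp]
            · rw [if_neg hsp, if_neg hsp, mul_zero]
          · have hsp : s ≠ p := fun h => hsT (h ▸ hp)
            rw [if_neg hsT, zero_mul, if_neg hsp]
      rw [sum_congr rfl h4, sum_add_distrib, sum_ite_eq' S b, if_pos hb, sum_ite_eq' S p,
        if_pos (i4 hp), add_neg_cancel]
    have h5 := hind θ h1 (i8 θ h3 h2) b
    rw [hθ] at h5
    simp at h5
  have key : ∀ b ∈ S, ∀ a < L, f b a = c a b := by
    intro b hb a ha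
    rw [i1 (f b) ((i6 _).2 ⟨b, hTS ▸ hb, rfl⟩) a ha]
    have h1 : ∀ s ∈ S, c a s * f b s = if s = b then c a b else 0 := by
      intro s hs
      rw [i7 b (hTS ▸ hb) s (hTS ▸ hs)]
      by_cases hsb : s = b
      · rw [if_pos hsb, if_pos hsb, mul_one, hsb]
      · rw [if_neg hsb, if_neg hsb, mul_zero]
    rw [sum_congr rfl h1, sum_ite_eq' S b, if_pos hb]
  refine ⟨fun u hu => ?_, fun s hs => ?_⟩
  · obtain ⟨b, hb, rfl⟩ := (i6 u).1 hu
    exact ⟨b, i4 hb, key b (i4 hb)⟩
  · exact ⟨f s, (i6 _).2 ⟨s, hTS ▸ hs, rfl⟩, key s hs⟩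

end Pool.Agent.TW
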