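import Pool.Agent.H.MP_b2d7dd_lc.TW.Res
import Pool.Agent.H.MP_b2d7dd_lc.TW.Elim

/-!
# Module MEl: the elimination on bit lists

A row is a list of `L` residues (bit lists); `evr e row` = the row as a function `ℕ → ZMod (bval e +
2)` (zero beyond the end). `melim_val`: the elimination on bit lists computes `erun` of module Elim
with `iv x = x ^ bval e`. The rows have length `L`, so that all functions vanish at `j ≥ L`
(invariant), therefore `evr` of the new rows are equal as functions to the rows of `estep`
(`List.getD` of `(List.range L).map f`). The order of the rows is the same.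
`melim_len`: sizes of the states, for the proof of polynomial time.
-/

namespace Pool.Agent.TW

open Pool.Agent.TI Pool.Agent.H.MP_5be563_lc.PT

variable {α : Type} [Enc α]

/-- A row as a function. -/
def evr (e : List Bool) (row : List (List Bool)) : ℕ → ZMod (bval e + 2) :=
  fun a => zv e (row.getD a [])

/-- The multiple of the row `w` which cancels column `a` is subtracted. -/
def melimRow (e : List Bool) (L a : ℕ) (w v : List (List Bool)) : List (List Bool) :=
  (List.range L).map fun j => rsb e (v.getD j []) (rmu e (v.getD a []) (w.getD j []))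

/-- The row is multiplied by the inverse of its entry at `a`. -/
def mscale (e : List Bool) (L a : ℕ) (v : List (List Bool)) : List (List Bool) :=
  (List.range L).map fun j => rmu e (rin e (v.getD a [])) (v.getD j [])

/-- One column. -/
def mestep (e : List Bool) (L a : ℕ) (s : List (List (List Bool)) × List (List (List Bool))) :
    List (List (List Bool)) × List (List (List Bool)) :=
  match s.2.find? (fun v => rnz e (v.getD a [])) with
  | none => s
  | some v => (mscale e L a v :: s.1.map (melimRow e L a (mscale e L a v)),
      s.2.map (melimRow e L a (mscale e L a v)))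

/-- All columns. -/
def melim (e : List Bool) (L : ℕ) (rows : List (List (List Bool))) :
    List (List (List Bool)) × List (List (List Bool)) :=
  (List.range L).foldl (fun s a => mestep e L a s) ([], rows)

theorem MEl_getD_map (L : ℕ) (f : ℕ → List Bool) {j : ℕ} (hj : j < L) :
    ((List.range L).map f).getD j [] = f j := by
  rw [List.getD_eq_getElem _ _ (by rw [List.length_map, List.length_range]; exact hj),
    List.getElem_map, List.getElem_range]

theorem MEl_getD_out {v : List (List Bool)} {L j : ℕ} (hv : v.length = L) (hj : ¬ j < L) :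
    v.getD j [] = [] :=
  List.getD_eq_default _ _ (by omega)

theorem MEl_elimRow (e : List Bool) (L a : ℕ) {w v : List (List Bool)} (hw : w.length = L)
    (hv : v.length = L) :
    evr e (melimRow e L a w v) = elimRow a (evr e w) (evr e v) := by
  funext j
  show zv e ((melimRow e L a w v).getD j []) =
    zv e (v.getD j []) - zv e (v.getD a []) * zv e (w.getD j [])
  by_cases hj : j < L
  · unfold melimRow
    rw [MEl_getD_map L _ hj, zv_rsb, zv_rmu]
  · rw [MEl_getD_out (by unfold melimRow; rw [List.length_map, List.length_range]) hj,
      MEl_getD_out hv hj, MEl_getD_out hw hj, zv_nil, mul_zero, sub_zero]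

theorem MEl_scale (e : List Bool) (L a : ℕ) {v : List (List Bool)} (hv : v.length = L) :
    evr e (mscale e L a v) = fun j => (evr e v a) ^ bval e * evr e v j := by
  funext j
  show zv e ((mscale e L a v).getD j []) = zv e (v.getD a []) ^ bval e * zv e (v.getD j [])
  by_cases hj : j < L
  · unfold mscale
    rw [MEl_getD_map L _ hj, zv_rmu, zv_rin]
  · rw [MEl_getD_out (by unfold mscale; rw [List.length_map, List.length_range]) hj,
      MEl_getD_out hv hj, zv_nil, mul_zero]

theorem MEl_len_elimRow (e : List Bool) (L a : ℕ) (w v : List (List Bool)) :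
    (melimRow e L a w v).length = L := by
  unfold melimRow
  rw [List.length_map, List.length_range]

theorem MEl_len_scale (e : List Bool) (L a : ℕ) (v : List (List Bool)) :
    (mscale e L a v).length = L := by
  unfold mscale
  rw [List.length_map, List.length_range]

theorem MEl_cases (e : List Bool) (L a : ℕ)
    (s : List (List (List Bool)) × List (List (List Bool))) :
    (s.2.find? (fun v => rnz e (v.getD a [])) = none ∧ mestep e L a s = s) ∨
    ∃ v ∈ s.2, s.2.find? (fun v => rnz e (v.getD a [])) = some v ∧ mestep e L a s =
      (mscale e L a v :: s.1.map (melimRow e L a (mscale e L a v)),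
      s.2.map (melimRow e L a (mscale e L a v))) := by
  cases h : s.2.find? (fun v => rnz e (v.getD a [])) with
  | none =>
    left
    refine ⟨rfl, ?_⟩
    unfold mestep
    rw [h]
  | some v =>
    right
    refine ⟨v, List.mem_of_find?_eq_some h, rfl, ?_⟩
    unfold mestep
    rw [h]

theorem MEl_find (e : List Bool) (a : ℕ) (l : List (List (List Bool))) :
    (l.map (evr e)).find? (fun v => decide (v a ≠ 0)) =
      (l.find? (fun v => rnz e (v.getD a []))).map (evr e) := by
  rw [List.find?_map]
  congr 2
  funext v
  show decide (zv e (v.getD a []) ≠ 0) = rnz e (v.getD a [])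
  rw [Bool.eq_iff_iff, decide_eq_true_iff, rnz_iff]

/-- One column. -/
theorem MEl_step (e : List Bool) (L a : ℕ)
    (s : List (List (List Bool)) × List (List (List Bool)))
    (h1 : ∀ v ∈ s.1, v.length = L) (h2 : ∀ v ∈ s.2, v.length = L) :
    estep (fun x : ZMod (bval e + 2) => x ^ bval e) a (s.1.map (evr e), s.2.map (evr e)) =
      ((mestep e L a s).1.map (evr e), (mestep e L a s).2.map (evr e)) ∧
    (∀ v ∈ (mestep e L a s).1, v.length = L) ∧ ∀ v ∈ (mestep e L a s).2, v.length = L := by
  have hf := MEl_find e a s.2
  rcases MEl_cases e L a s with ⟨h3, h4⟩ | ⟨v, hv, h3, h4⟩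
  · rw [h3, Option.map_none] at hf
    rw [h4]
    refine ⟨?_, h1, h2⟩
    unfold estep
    simp only
    rw [hf]
  · rw [h3, Option.map_some] at hf
    rw [h4]
    have hl := MEl_len_scale e L a v
    have hsc := MEl_scale e L a (h2 v hv)
    refine ⟨?_, ?_, ?_⟩
    · unfold estep
      simp only
      rw [hf]
      simp only
      rw [List.map_cons, List.map_map, List.map_map, List.map_map, List.map_map, ← hsc]
      congr 1
      · congr 1
        refine List.map_congr_left fun u hu => ?_
        exact (MEl_elimRow e L a hl (h1 u hu)).symm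
      · refine List.map_congr_left fun u hu => ?_
        exact (MEl_elimRow e L a hl (h2 u hu)).symm
    · intro u hu
      rcases List.mem_cons.1 hu with hu | hu
      · rw [hu]
        exact hl
      · obtain ⟨u0, _, rfl⟩ := List.mem_map.1 hu
        exact MEl_len_elimRow _ _ _ _ _
    · intro u hu
      obtain ⟨u0, _, rfl⟩ := List.mem_map.1 hu
      exact MEl_len_elimRow _ _ _ _ _

theorem MEl_fold (e : List Bool) (L : ℕ) (l : List ℕ) :
    ∀ s : List (List (List Bool)) × List (List (List Bool)),
    (∀ v ∈ s.1, v.length = L) → (∀ v ∈ s.2, v.length = L) →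
    l.foldl (fun s a => estep (fun x : ZMod (bval e + 2) => x ^ bval e) a s)
      (s.1.map (evr e), s.2.map (evr e)) =
      ((l.foldl (fun s a => mestep e L a s) s).1.map (evr e),
        (l.foldl (fun s a => mestep e L a s) s).2.map (evr e)) := by
  induction l with
  | nil => exact fun _ _ _ => rfl
  | cons a l ih =>
    intro s h1 h2
    obtain ⟨h3, h4, h5⟩ := MEl_step e L a s h1 h2
    rw [List.foldl_cons, List.foldl_cons, h3]
    exact ih _ h4 h5

theorem melim_val (e : List Bool) (L : ℕ) (rows : List (List (List Bool)))
    (h : ∀ v ∈ rows, v.length = L) :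
    (melim e L rows).1.map (evr e) =
      (erun (fun x : ZMod (bval e + 2) => x ^ bval e) L (rows.map (evr e))).1 := by
  have h1 := MEl_fold e L (List.range L) ([], rows) (fun v hv => absurd hv List.not_mem_nil) h
  exact (congrArg Prod.fst h1).symm

/-- Shape of the state after the columns of a list `l`. -/
theorem melim_len (e : List Bool) (L : ℕ) (rows : List (List (List Bool))) (l : List ℕ)
    (h : ∀ v ∈ rows, v.length = L) :
    let s := l.foldl (fun s a => mestep e L a s) ([], rows)
    s.1.length ≤ l.length ∧ s.2.length = rows.length ∧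
      (∀ v ∈ s.1, v.length = L ∧ ∀ x ∈ v, x.length ≤ e.length + 4) ∧
      ∀ v ∈ s.2, v.length = L ∧ (v ∈ rows ∨ ∀ x ∈ v, x.length ≤ e.length + 4) := by
  intro s
  have hel : ∀ (a : ℕ) (w v : List (List Bool)), ∀ x ∈ melimRow e L a w v,
      x.length ≤ e.length + 4 := by
    intro a w v x hx
    obtain ⟨j, _, rfl⟩ := List.mem_map.1 hx
    exact length_rsb_le _ _ _
  have hsc : ∀ (a : ℕ) (v : List (List Bool)), ∀ x ∈ mscale e L a v,
      x.length ≤ e.length + 4 := by
    intro a v x hx
    obtain ⟨j, _, rfl⟩ := List.mem_map.1 hx
    exact length_rmu_le _ _ _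
  have key : (l.foldl (fun s a => mestep e L a s) ([], rows)).1.length ≤ l.length ∧
      (l.foldl (fun s a => mestep e L a s) ([], rows)).2.length = rows.length ∧
      (∀ v ∈ (l.foldl (fun s a => mestep e L a s) ([], rows)).1,
        v.length = L ∧ ∀ x ∈ v, x.length ≤ e.length + 4) ∧
      ∀ v ∈ (l.foldl (fun s a => mestep e L a s) ([], rows)).2,
        v.length = L ∧ (v ∈ rows ∨ ∀ x ∈ v, x.length ≤ e.length + 4) := by
    clear s
    induction l using List.reverseRecOn with
    | nil =>
      exact ⟨le_rfl, rfl, fun v hv => absurd hv List.not_mem_nil, fun v hv => ⟨h v hv, Or.inl hv⟩⟩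
    | append_singleton l a ih =>
      obtain ⟨i1, i2, i3, i4⟩ := ih
      rw [List.foldl_append, List.foldl_cons, List.foldl_nil, List.length_append,
        List.length_singleton]
      rcases MEl_cases e L a (l.foldl (fun s a => mestep e L a s) ([], rows)) with
        ⟨_, h4⟩ | ⟨v, _, _, h4⟩
      · rw [h4]
        exact ⟨by omega, i2, i3, i4⟩
      · rw [h4]
        refine ⟨?_, ?_, ?_, ?_⟩
        · rw [List.length_cons, List.length_map]
          omega
        · rw [List.length_map]
          exact i2
        · intro u hu
          rcases List.mem_cons.1 hu with hu | hu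
          · rw [hu]
            exact ⟨MEl_len_scale _ _ _ _, hsc a v⟩
          · obtain ⟨u0, _, rfl⟩ := List.mem_map.1 hu
            exact ⟨MEl_len_elimRow _ _ _ _ _, hel a _ u0⟩
        · intro u hu
          obtain ⟨u0, _, rfl⟩ := List.mem_map.1 hu
          exact ⟨MEl_len_elimRow _ _ _ _ _, Or.inr (hel a _ u0)⟩
  exact key

end Pool.Agent.TW
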