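import Pool.Agent.H.MP_b2d7dd_lc.TW.Lift

/-!
# Module LiftP: the lifting runs in polynomial time

`Poly.foldr`, `Poly.map`, `Poly.filter`, `Poly.range`, `poly_mden`; lengths: `length_rmu_le`,
`length_md_le`, the length of `bsub x y` is at most `x.length + y.length`.
-/

namespace Pool.Agent.TW

open Pool.Agent.TI Pool.Agent.H.MP_5be563_lc.PT

variable {α : Type} [Enc α]

private theorem LiftP_dprod_len (e NB : List Bool) (k : ℕ) (row : List (List Bool)) (l : List ℕ) :
    (l.foldr (fun a acc => rmu e acc (mden e NB k (row.getD a []))) [true]).length ≤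
      e.length + 4 := by
  cases l with
  | nil => simp
  | cons b l =>
    rw [List.foldr_cons]
    exact length_rmu_le _ _ _

private theorem LiftP_dprod {fe fN : α → List Bool} {fk fL : α → ℕ} {fr : α → List (List Bool)}
    (he : Poly fe) (hN : Poly fN) (hk : Poly fk) (hL : Poly fL) (hr : Poly fr) :
    Poly (fun a => dprod (fe a) (fN a) (fk a) (fL a) (fr a)) := by
  have h1 : Poly (fun p : α × List Bool × ℕ => (fr p.1).getD p.2.2 []) := by fun_prop
  have h2 : Poly (fun p : α × List Bool × ℕ =>
      mden (fe p.1) (fN p.1) (fk p.1) ((fr p.1).getD p.2.2 [])) :=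
    poly_mden (by fun_prop) (by fun_prop) (by fun_prop) h1
  have h3 : Poly (fun p : α × List Bool × ℕ =>
      rmu (fe p.1) p.2.1 (mden (fe p.1) (fN p.1) (fk p.1) ((fr p.1).getD p.2.2 []))) := by
    fun_prop
  have h := H.MP_5be563_lc.PT.Poly.foldr (l := fun a => List.range (fL a))
    (s0 := fun _ => [true]) (B := fun a => 4 * sz (fe a) + 20) h3 (by fun_prop) (by fun_prop)
    (((PBdd.const 4).mul he.sz_le).add (PBdd.const 20)) (by
      intro a l₁ l₂ _
      have i1 := LiftP_dprod_len (fe a) (fN a) (fk a) (fr a) l₂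
      have i2 := (sz_bool_list (l₂.foldr (fun b acc =>
        rmu (fe a) acc (mden (fe a) (fN a) (fk a) ((fr a).getD b []))) [true])).2
      have i3 := (sz_bool_list (fe a)).1
      simp only
      omega)
  exact h

private theorem LiftP_lent {fe fP fD fx : α → List Bool} (he : Poly fe) (hP : Poly fP)
    (hD : Poly fD) (hx : Poly fx) : Poly (fun a => lent (fe a) (fP a) (fD a) (fx a)) := by
  have h1 : Poly (fun a => rmu (fe a) (fD a) (fx a)) := by fun_prop
  have h2 : Poly (fun a => ble (rmu (fe a) (fD a) (fx a)) (fP a)) := by fun_prop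
  have h3 : Poly (fun a => ((false, rmu (fe a) (fD a) (fx a)) : SI)) := by fun_prop
  have h4 : Poly (fun a => ((true, bsub (badd (md (fe a)) [true])
      (rmu (fe a) (fD a) (fx a))) : SI)) := by fun_prop
  exact Poly.cond h2 h3 h4

private theorem LiftP_lift {fe fN fP : α → List Bool} {fk fL : α → ℕ}
    {fr : α → List (List Bool)} (he : Poly fe) (hN : Poly fN) (hP : Poly fP)
    (hk : Poly fk) (hL : Poly fL) (hr : Poly fr) :
    Poly (fun a => lift (fe a) (fN a) (fP a) (fk a) (fL a) (fr a)) := by
  have h1 : Poly (fun a => dprod (fe a) (fN a) (fk a) (fL a) (fr a)) :=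
    LiftP_dprod he hN hk hL hr
  have h2 : Poly (fun p : α × ℕ =>
      lent (fe p.1) (fP p.1) (dprod (fe p.1) (fN p.1) (fk p.1) (fL p.1) (fr p.1))
        ((fr p.1).getD p.2 [])) :=
    LiftP_lent (by fun_prop) (by fun_prop)
      (Poly.comp (f := fun a => dprod (fe a) (fN a) (fk a) (fL a) (fr a))
        (g := fun p : α × ℕ => p.1) h1 (by fun_prop)) (by fun_prop)
  have h3 : Poly (fun a => List.range (fL a)) := by fun_prop
  exact H.MP_5be563_lc.PT.Poly.map (f := fun a b => lent (fe a) (fP a)
    (dprod (fe a) (fN a) (fk a) (fL a) (fr a)) ((fr a).getD b [])) h2 h3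

private theorem LiftP_lok {fP : α → List Bool} {fl : α → List SI} (hP : Poly fP) (hl : Poly fl) :
    Poly (fun a => lok (fP a) (fl a)) := by
  unfold lok
  have h1 : Poly (fun p : α × SI => ble p.2.2 (fP p.1)) := by fun_prop
  exact Poly.all (f := fun a x => ble x.2 (fP a)) h1 hl

theorem poly_ltab {fe fN fP : α → List Bool} {fk fL : α → ℕ}
    {fr : α → List (List (List Bool))} (he : Poly fe) (hN : Poly fN) (hP : Poly fP)
    (hk : Poly fk) (hL : Poly fL) (hr : Poly fr) :
    Poly (fun a => ltab (fe a) (fN a) (fP a) (fk a) (fL a) (fr a)) := by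
  have h1 : Poly (fun p : α × List (List Bool) =>
      lift (fe p.1) (fN p.1) (fP p.1) (fk p.1) (fL p.1) p.2) :=
    LiftP_lift (by fun_prop) (by fun_prop) (by fun_prop) (by fun_prop) (by fun_prop)
      (by fun_prop)
  have h2 : Poly (fun a => (fr a).map (lift (fe a) (fN a) (fP a) (fk a) (fL a))) :=
    H.MP_5be563_lc.PT.Poly.map (f := fun a row => lift (fe a) (fN a) (fP a) (fk a) (fL a) row) h1 hr
  have h3 : Poly (fun p : α × List SI => lok (fP p.1) p.2) :=
    LiftP_lok (by fun_prop) (by fun_prop)
  exact Poly.filter (f := fun a l => lok (fP a) l) h3 h2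

/-- Sizes. -/
theorem ltab_len (e NB PB : List Bool) (k L : ℕ) (rows : List (List (List Bool))) :
    (ltab e NB PB k L rows).length ≤ rows.length ∧ ∀ l ∈ ltab e NB PB k L rows,
      l.length = L ∧ ∀ x ∈ l, x.2.length ≤ 2 * e.length + 20 := by
  constructor
  · unfold ltab
    refine (List.length_filter_le _ _).trans ?_
    rw [List.length_map]
  · intro l hl
    obtain ⟨⟨row, _, rfl⟩, _⟩ := mem_ltab hl
    refine ⟨by rw [lift, List.length_map, List.length_range], ?_⟩
    intro x hx
    rw [lift, List.mem_map] at hx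
    obtain ⟨a, _, rfl⟩ := hx
    have h1 := length_rmu_le e (dprod e NB k L row) (row.getD a [])
    have h2 := length_md_le e
    have h3 := length_badd (md e) [true]
    simp only [List.length_cons, List.length_nil] at h3
    unfold lent
    cases ble (rmu e (dprod e NB k L row) (row.getD a [])) PB with
    | true =>
      rw [cond_true]
      show (rmu e (dprod e NB k L row) (row.getD a [])).length ≤ _
      omega
    | false =>
      rw [cond_false]
      show (bsub (badd (md e) [true]) (rmu e (dprod e NB k L row) (row.getD a []))).length ≤ _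
      rw [bsub, List.length_take]
      omega

end Pool.Agent.TW
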