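import Pool.Agent.H.MP_b2d7dd_lc.TW.Stk
import Pool.Agent.H.MP_b2d7dd_lc.TI.MachP

/-!
# Module Shp: recognition of the strings of two terms with variables as bases

State: `(number of terms on the stack, was the last token a variable?, ok)`. `shape_iff`: by
induction on `T`, the state after `T` is `(st.length, _, true)` for some `Stk T st U`, where the
flag says whether the head of `st` is a variable, and conversely.
-/

namespace Pool.Agent.TW

open Pool.Agent.TI Pool.Agent.H.MP_5be563_lc.PT

variable {α : Type} [Enc α]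

/-- One step. -/
def shStep (q : Tok) (s : ℕ × Bool × Bool) : ℕ × Bool × Bool :=
  bif decide (q.1 = 0) then (s.1 + 1, false, s.2.2)
  else bif decide (q.1 = 4) then (s.1 + 1, true, s.2.2)
  else (s.1 - 1, false, s.2.2 && decide (2 ≤ s.1) && (!decide (q.1 = 3) || s.2.1))

/-- The tokens are the tokens of two terms with variables as bases. -/
def shape (T : List Tok) : Bool :=
  (T.foldr shStep (0, false, true)).2.2 && decide ((T.foldr shStep (0, false, true)).1 = 2)

private def Shp_F (T : List Tok) : ℕ × Bool × Bool := T.foldr shStep (0, false, true)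

private theorem Shp_cons (q : Tok) (T : List Tok) : Shp_F (q :: T) = shStep q (Shp_F T) := rfl

private theorem Shp_zero (w : List Bool) (s : ℕ × Bool × Bool) :
    shStep (0, w) s = (s.1 + 1, false, s.2.2) := by
  simp [shStep]

private theorem Shp_four (w : List Bool) (s : ℕ × Bool × Bool) :
    shStep (4, w) s = (s.1 + 1, true, s.2.2) := by
  simp [shStep]

private theorem Shp_op {k : ℕ} (h0 : k ≠ 0) (h4 : k ≠ 4) (w : List Bool) (s : ℕ × Bool × Bool) :
    shStep (k, w) s =
      (s.1 - 1, false, s.2.2 && decide (2 ≤ s.1) && (!decide (k = 3) || s.2.1)) := by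
  simp [shStep, h0, h4]

/-- The state after a stack. -/
private theorem Shp_back {T : List Tok} {st U : List Tm} (h : Stk T st U) :
    (Shp_F T).1 = st.length ∧ (Shp_F T).2.2 = true ∧
      ((Shp_F T).2.1 = true ↔ ∃ w r, st = .var w :: r) := by
  induction h with
  | nil => exact ⟨rfl, rfl, by simp [Shp_F]⟩
  | one h ih =>
    rw [Shp_cons, Shp_zero]
    exact ⟨by simp [ih.1], ih.2.1, by simp⟩
  | var w h ih =>
    rw [Shp_cons, Shp_four]
    exact ⟨by simp [ih.1], ih.2.1, by simp⟩
  | add h ih =>
    rw [Shp_cons, Shp_op (by norm_num) (by norm_num)]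
    obtain ⟨h1, h2, h3⟩ := ih
    refine ⟨?_, ?_, by simp⟩
    · simp [h1]
    · simp [h1, h2]
  | mul h ih =>
    rw [Shp_cons, Shp_op (by norm_num) (by norm_num)]
    obtain ⟨h1, h2, h3⟩ := ih
    refine ⟨?_, ?_, by simp⟩
    · simp [h1]
    · simp [h1, h2]
  | pow h ih =>
    rw [Shp_cons, Shp_op (by norm_num) (by norm_num)]
    obtain ⟨h1, h2, h3⟩ := ih
    have h4 := h3.2 ⟨_, _, rfl⟩
    refine ⟨?_, ?_, by simp⟩
    · simp [h1]
    · simp [h1, h2, h4]

private theorem Shp_forw {T : List Tok} (hT : ∀ q ∈ T, Can q) (hok : (Shp_F T).2.2 = true) :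
    ∃ st U, Stk T st U := by
  induction T with
  | nil => exact ⟨_, _, .nil⟩
  | cons q T ih =>
    obtain ⟨k, w⟩ := q
    have hq := hT _ List.mem_cons_self
    have hT' : ∀ q ∈ T, Can q := fun q hq => hT q (List.mem_cons_of_mem _ hq)
    obtain ⟨hk4, hw⟩ := hq
    simp only at hk4 hw
    rw [Shp_cons] at hok
    by_cases h0 : k = 0
    · subst h0
      rw [Shp_zero] at hok
      obtain ⟨st, U, h⟩ := ih hT' hok
      rw [hw (by norm_num)]
      exact ⟨_, _, h.one⟩
    by_cases h4 : k = 4
    · subst h4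
      rw [Shp_four] at hok
      obtain ⟨st, U, h⟩ := ih hT' hok
      exact ⟨_, _, h.var w⟩
    rw [Shp_op h0 h4] at hok
    simp only [Bool.and_eq_true, decide_eq_true_eq] at hok
    obtain ⟨⟨h5, h6⟩, h7⟩ := hok
    obtain ⟨st, U, h⟩ := ih hT' h5
    obtain ⟨b1, -, b3⟩ := Shp_back h
    rw [b1] at h6
    rw [hw (by omega)]
    match st, h, h6, b3 with
    | a :: b :: r, h, _, b3 =>
      by_cases h3 : k = 3
      · subst h3
        have h8 : (Shp_F T).2.1 = true := by simpa using h7
        obtain ⟨v, r', hv⟩ := b3.1 h8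
        rw [List.cons_eq_cons] at hv
        rw [hv.1] at h
        exact ⟨_, _, h.pow⟩
      · by_cases h1 : k = 1
        · subst h1
          exact ⟨_, _, h.add⟩
        · have h2 : k = 2 := by omega
          subst h2
          exact ⟨_, _, h.mul⟩

private theorem Shp_fst (T : List Tok) : (Shp_F T).1 ≤ T.length := by
  induction T with
  | nil => exact le_rfl
  | cons q T ih =>
    obtain ⟨k, w⟩ := q
    rw [Shp_cons, List.length_cons]
    by_cases h0 : k = 0
    · subst h0
      rw [Shp_zero]
      simp only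
      omega
    by_cases h4 : k = 4
    · subst h4
      rw [Shp_four]
      simp only
      omega
    rw [Shp_op h0 h4]
    simp only
    omega

theorem shape_iff {T : List Tok} (hT : ∀ q ∈ T, Can q) :
    shape T = true ↔ ∃ s t U, Stk T [s, t] U := by
  have hsh : shape T = ((Shp_F T).2.2 && decide ((Shp_F T).1 = 2)) := rfl
  rw [hsh, Bool.and_eq_true, decide_eq_true_eq]
  constructor
  · rintro ⟨h1, h2⟩
    obtain ⟨st, U, h⟩ := Shp_forw hT h1
    obtain ⟨b1, -, -⟩ := Shp_back h
    rw [h2] at b1
    obtain ⟨a, b, rfl⟩ := List.length_eq_two.1 b1.symm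
    exact ⟨a, b, U, h⟩
  · rintro ⟨a, b, U, h⟩
    obtain ⟨b1, b2, -⟩ := Shp_back h
    exact ⟨b2, b1⟩

theorem poly_shape {f : α → List Tok} (hf : Poly f) : Poly (fun a => shape (f a)) := by
  have h1 : Poly (fun p : α × (ℕ × Bool × Bool) × Tok => shStep p.2.2 p.2.1) := by
    unfold shStep
    fun_prop
  have h2 : Poly (fun a => (f a).foldr shStep (0, false, true)) := by
    refine Poly.foldr (f := fun p : α × (ℕ × Bool × Bool) × Tok => shStep p.2.2 p.2.1)
      (l := f) (s0 := fun _ => ((0, false, true) : ℕ × Bool × Bool))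
      (B := fun a => 2 * sz (f a) + 20) h1 hf (by fun_prop)
      (((PBdd.const 2).mul hf.sz_le).add (PBdd.const 20)) ?_
    intro a l₁ l₂ h
    have h3 := Shp_fst l₂
    have h4 : l₂.length ≤ sz (f a) := by
      have h5 := length_lt_sz (f a)
      rw [h, List.length_append] at h5
      rw [h]
      omega
    change sz (Shp_F l₂) ≤ _
    have h6 := sz_prod (Shp_F l₂)
    have h7 := sz_prod (Shp_F l₂).2
    have h8 := sz_nat (Shp_F l₂).1
    have h9 := sz_bool_le (Shp_F l₂).2.1
    have h10 := sz_bool_le (Shp_F l₂).2.2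
    omega
  unfold shape
  fun_prop

end Pool.Agent.TW
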