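import Pool.Agent.H.MP_b2d7dd_lc.TW.Run2
import Pool.Agent.H.MP_b2d7dd_lc.TW.Lift
import Pool.Agent.H.MP_b2d7dd_lc.TW.MElP
import Pool.Agent.H.MP_b2d7dd_lc.TW.Shp
import Pool.Agent.H.MP_b2d7dd_lc.TW.CntL
import Pool.Agent.H.MP_b2d7dd_lc.TW.Lin

/-!
# Module Nxt: the test

Parameters for inputs of length `n`. `nxt` = one stage: the table for the tokens `T` from the table
for `T.tail` and the random bits `zz` (`Rr n` blocks of `Qw n * vv n` bits, a hash row for each of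
them). `tabF` = all stages. `fin1` = the comparison of the two terms. `test1` = one round: the first
`2 * vv n` bits give the modulus. `accept` = all rounds.
-/

namespace Pool.Agent.TW

open Pool.Agent.TI (Tm Tok names tokz bmod beqv)
open Pool.Agent.TE (bl)
open Pool.Agent.H.MP_5be563_lc.PT

/-- Bits of the bound for the minors. -/
def eN (n : ℕ) : ℕ := 3 * ((n + 1) * (n + 1))

/-- Bits of the bound for the entries of the table. -/
def eP (n : ℕ) : ℕ := (2 * n + 1) * eN n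

/-- Half of the number of bits of a random value. -/
def uu (n : ℕ) : ℕ := eP n + 4 * eN n + 8 * n + 20

/-- Bits of a random value. -/
def vv (n : ℕ) : ℕ := 2 * uu n

/-- Number of random values for one hash. -/
def Qw (n : ℕ) : ℕ := (n + 1) * (n + 1)

/-- Number of hashes in one stage. -/
def Rr (n : ℕ) : ℕ := 6 * (n + 1)

/-- Number of steps of the Euclidean algorithm. -/
def kk (n : ℕ) : ℕ := 4 * vv n + 8

/-- Number of random bits of a stage. -/
def SS (n : ℕ) : ℕ := Rr n * (Qw n * vv n)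

/-- Number of random bits of a round. -/
def AA (n : ℕ) : ℕ := 2 * vv n + (n + 1) * SS n

/-- Number of rounds. -/
def KK (n : ℕ) : ℕ := 6 * (4 * vv n)

/-- The number `2 ^ k`. -/
def pow2 (k : ℕ) : List Bool := List.replicate k false ++ [true]

theorem bval_pow2 (k : ℕ) : bval (pow2 k) = 2 ^ k := by
  unfold pow2
  induction k with
  | zero => rfl
  | succ k ih =>
    rw [List.replicate_succ, List.cons_append, bval_cons, ih, pow_succ]
    simp [mul_comm]

/-- One stage. -/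
def nxt (n : ℕ) (e : List Bool) (N : List (List Bool)) (T : List Tok) (tab : List (List SI))
    (zz : List Bool) : List (List SI) :=
  ltab e (pow2 (eN n)) (pow2 (eP n)) (kk n) T.length
    (pivots e T.length ((List.range (Rr n)).map fun j =>
      hrow e (vv n) (n + 1) N tab T (bl (Qw n * vv n) zz j)))

/-- All stages. -/
def tabF (n : ℕ) (e : List Bool) (N : List (List Bool)) (z : List Bool) :
    List Tok → List (List SI)
  | [] => []
  | q :: T => nxt n e N (q :: T) (tabF n e N z T) (bl (SS n) z T.length)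

/-- The two terms have the same value. -/
def fin1 (n : ℕ) (e : List Bool) (N : List (List Bool)) (T : List Tok) (tab : List (List SI))
    (zz : List Bool) : Bool :=
  beqv
    (bmod ((mrun e (vv n) (n + 1) N (bl (Qw n * vv n) zz 0) tab T).1.headD []) (md e))
    (bmod ((mrun e (vv n) (n + 1) N (bl (Qw n * vv n) zz 0) tab T).1.tail.headD []) (md e))

/-- The test for given bits of the modulus and of the stages. -/
def test0 (n : ℕ) (T : List Tok) (e z : List Bool) : Bool :=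
  bif ble (pow2 (vv n)) e then
    fin1 n e (names T) T (tabF n e (names T) z T) (bl (SS n) z T.length)
  else true

/-- One round. -/
def test1 (n : ℕ) (T : List Tok) (z : List Bool) : Bool :=
  test0 n T (z.take (2 * vv n)) (z.drop (2 * vv n))

/-- The test on tokens. -/
def acceptT (n : ℕ) (T : List Tok) (r : List Bool) : Bool :=
  shape T && (List.range (KK n)).all fun j => test1 n T (bl (AA n) r j)

/-- The test. -/
def accept (x r : List Bool) : Bool :=
  match tokz x with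
  | none => false
  | some T => acceptT x.length T r

/-- The number of random bits. -/
theorem exists_p : ∃ p : Polynomial ℕ, ∀ n, p.eval n = KK n * AA n := by
  let e : Polynomial ℕ := 3 * ((Polynomial.X + 1) * (Polynomial.X + 1))
  let v : Polynomial ℕ := 2 * ((2 * Polynomial.X + 1) * e + 4 * e + 8 * Polynomial.X + 20)
  refine ⟨6 * (4 * v) * (2 * v + (Polynomial.X + 1) * (6 * (Polynomial.X + 1) *
    ((Polynomial.X + 1) * (Polynomial.X + 1) * v))), fun n => ?_⟩
  simp only [v, e, Polynomial.eval_mul, Polynomial.eval_add, Polynomial.eval_X,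
    Polynomial.eval_one, Polynomial.eval_ofNat, KK, AA, SS, Rr, Qw, vv, uu, eP, eN]

/-! Inequalities between the parameters. -/

private theorem Nxt_succ (n : ℕ) : n + 1 ≤ 2 ^ n := Nat.lt_two_pow_self

private theorem Nxt_le {a b : ℕ} (h : a ≤ b) : 2 ^ a ≤ 2 ^ b := Nat.pow_le_pow_right (by norm_num) h

theorem NB_le {n L : ℕ} (h : L ≤ n) : NB L (2 ^ (L + 1)) ≤ 2 ^ eN n := by
  have h1 : L.factorial ≤ 2 ^ (L * L) := by
    calc L.factorial ≤ L ^ L := Nat.factorial_le_pow L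
      _ ≤ (2 ^ L) ^ L := Nat.pow_le_pow_left Nat.lt_two_pow_self.le L
      _ = 2 ^ (L * L) := by rw [← pow_mul]
  calc NB L (2 ^ (L + 1)) ≤ 2 ^ (L * L) * (2 ^ (L + 1)) ^ L := Nat.mul_le_mul_right _ h1
    _ = 2 ^ (L * L + (L + 1) * L) := by rw [← pow_mul, ← pow_add]
    _ ≤ 2 ^ eN n := Nxt_le (by
      have h2 : L * L ≤ n * n := Nat.mul_le_mul h h
      unfold eN
      nlinarith)

/-- For the coherence. -/
theorem par_coh {n L r : ℕ} (h : L ≤ n) (hr : 2 ^ vv n < r) :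
    (L + 1) * 2 ^ eN n * 2 ^ eP n < r := by
  refine lt_of_le_of_lt ?_ hr
  calc (L + 1) * 2 ^ eN n * 2 ^ eP n ≤ 2 ^ n * 2 ^ eN n * 2 ^ eP n :=
        Nat.mul_le_mul_right _ (Nat.mul_le_mul_right _ ((Nat.succ_le_succ h).trans (Nxt_succ n)))
    _ = 2 ^ (n + eN n + eP n) := by rw [← pow_add, ← pow_add]
    _ ≤ 2 ^ vv n := Nxt_le (by unfold vv uu; omega)

theorem par_k {n x : ℕ} (h : x < 2 ^ (2 * vv n)) : x + 2 ≤ 2 ^ (kk n / 2) := by
  have h1 : kk n / 2 = 2 * vv n + 4 := by unfold kk; omega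
  rw [h1, pow_add]
  have h2 : 1 ≤ 2 ^ (2 * vv n) := Nat.one_le_two_pow
  omega

theorem par_N {n r : ℕ} (hr : 2 ^ vv n < r) : (2 ^ eN n) ^ 2 * (2 ^ eN n + 1) < r := by
  refine lt_of_le_of_lt ?_ hr
  have h2 : 1 ≤ 2 ^ eN n := Nat.one_le_two_pow
  calc (2 ^ eN n) ^ 2 * (2 ^ eN n + 1) ≤ (2 ^ eN n) ^ 2 * (2 ^ eN n * 2) :=
        Nat.mul_le_mul_left _ (by omega)
    _ = 2 ^ (eN n * 2 + (eN n + 1)) := by rw [← pow_mul, ← pow_succ, ← pow_add]
    _ ≤ 2 ^ vv n := Nxt_le (by unfold vv uu; omega)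

theorem par_P {n L : ℕ} (h : L ≤ n) : (2 ^ eN n) ^ (2 * L + 1) ≤ 2 ^ eP n := by
  rw [← pow_mul]
  refine Nxt_le ?_
  unfold eP
  rw [mul_comm]
  exact Nat.mul_le_mul_right _ (by omega)

theorem par_Pr {n r : ℕ} (hr : 2 ^ vv n < r) : 2 * 2 ^ eN n * 2 ^ eP n < r := by
  refine lt_of_le_of_lt ?_ hr
  calc 2 * 2 ^ eN n * 2 ^ eP n = 2 ^ (1 + eN n + eP n) := by rw [pow_add, pow_add, pow_one]
    _ ≤ 2 ^ vv n := Nxt_le (by unfold vv uu; omega)

/-- The number of zeros of a Laurent polynomial of the test. -/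
def Aa (n : ℕ) : ℕ := 2 * ((n + 1) * 2 ^ eP n) * Qw n + Qw n

private theorem Nxt_Aa (n : ℕ) : Aa n ≤ 2 ^ (3 * n + eP n + 2) := by
  have h1 : Qw n ≤ 2 ^ (2 * n) := by
    unfold Qw
    calc (n + 1) * (n + 1) ≤ 2 ^ n * 2 ^ n := Nat.mul_le_mul (Nxt_succ n) (Nxt_succ n)
      _ = 2 ^ (2 * n) := by rw [← pow_add]; congr 1; omega
  have h2 : 2 * ((n + 1) * 2 ^ eP n) * Qw n ≤ 2 ^ (3 * n + eP n + 1) := by
    calc 2 * ((n + 1) * 2 ^ eP n) * Qw n ≤ 2 * (2 ^ n * 2 ^ eP n) * 2 ^ (2 * n) :=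
          Nat.mul_le_mul (Nat.mul_le_mul_left _ (Nat.mul_le_mul_right _ (Nxt_succ n))) h1
      _ = 2 ^ (1 + (n + eP n) + 2 * n) := by rw [pow_add, pow_add, pow_add, pow_one]
      _ = 2 ^ (3 * n + eP n + 1) := by congr 1; omega
  have h3 : Qw n ≤ 2 ^ (3 * n + eP n + 1) := h1.trans (Nxt_le (by omega))
  have h4 : 2 ^ (3 * n + eP n + 2) = 2 ^ (3 * n + eP n + 1) * 2 := by rw [← pow_succ]
  unfold Aa
  omega

/-- For the union bound in one stage. -/
theorem par_union {n r : ℕ} (hr : r ≤ 2 ^ (2 * vv n) + 1) :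
    8 * (n + 1) * (r ^ n * Aa n ^ Rr n) ≤ (2 ^ vv n) ^ Rr n := by
  have h0 : 1 ≤ 2 ^ (2 * vv n) := Nat.one_le_two_pow
  have h1 : r ≤ 2 ^ (2 * vv n + 1) := by
    rw [pow_succ]
    omega
  have h2 : r ^ n ≤ 2 ^ ((2 * vv n + 1) * n) := by
    rw [pow_mul]
    exact Nat.pow_le_pow_left h1 n
  have h3 : Aa n ^ Rr n ≤ 2 ^ ((3 * n + eP n + 2) * Rr n) := by
    rw [pow_mul]
    exact Nat.pow_le_pow_left (Nxt_Aa n) _
  have h4 : 8 * (n + 1) ≤ 2 ^ (n + 3) := by
    rw [pow_add]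
    have := Nxt_succ n
    omega
  calc 8 * (n + 1) * (r ^ n * Aa n ^ Rr n)
      ≤ 2 ^ (n + 3) * (2 ^ ((2 * vv n + 1) * n) * 2 ^ ((3 * n + eP n + 2) * Rr n)) :=
        Nat.mul_le_mul h4 (Nat.mul_le_mul h2 h3)
    _ = 2 ^ (n + 3 + ((2 * vv n + 1) * n + (3 * n + eP n + 2) * Rr n)) := by
        rw [← pow_add, ← pow_add]
    _ ≤ 2 ^ (vv n * Rr n) := Nxt_le (by
        unfold Rr vv uu
        generalize eP n = P
        generalize eN n = N
        nlinarith [Nat.zero_le (n * P), Nat.zero_le (n * N), Nat.zero_le (n * n)])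
    _ = (2 ^ vv n) ^ Rr n := by rw [pow_mul]

/-- For the last comparison. -/
theorem par_fin (n : ℕ) : 8 * Aa n ≤ 2 ^ vv n := by
  calc 8 * Aa n ≤ 2 ^ 3 * 2 ^ (3 * n + eP n + 2) := Nat.mul_le_mul_left _ (Nxt_Aa n)
    _ = 2 ^ (3 + (3 * n + eP n + 2)) := by rw [← pow_add]
    _ ≤ 2 ^ vv n := Nxt_le (by unfold vv uu; omega)

theorem vv_ge (n : ℕ) : 8 ≤ vv n := by
  unfold vv uu
  omega

end Pool.Agent.TW
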