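import Pool.Agent.H.MP_b2d7dd_lc.TW.Run

/-!
# Module Run2: the values of all subterms

The machine: stack of values, values of all subterms (last token first), the name of the last token.
`mrun_val`: induction on `Stk` (in the case of a power the last token is the variable,
`Stk.var_top`, so the last name is its name; `ev_append`, `ev_last`).
-/

namespace Pool.Agent.TW

open Pool.Agent.TI (Tm Tok Can names fidx fidx_eq bmod bpw beqv)
open Pool.Agent.TE (bl)
open Pool.Agent.H.MP_5be563_lc.PT Finset

/-- One step of the machine. -/
def rstep (e : List Bool) (v c : ℕ) (N : List (List Bool)) (Z : List Bool)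
    (tab : List (List SI)) (q : Tok)
    (s : List (List Bool) × List (List Bool) × List Bool) :
    List (List Bool) × List (List Bool) × List Bool :=
  let u := bif decide (q.1 = 0) then [true]
    else bif decide (q.1 = 4) then tval e v c N Z tab s.2.1.length q.2
    else bif decide (q.1 = 1) then rad e (s.1.headD [true]) (s.1.tail.headD [true])
    else bif decide (q.1 = 2) then rmu e (s.1.headD [true]) (s.1.tail.headD [true])
    else tval e v c N Z tab s.2.1.length s.2.2
  (u :: (bif decide (q.1 = 0) || decide (q.1 = 4) then s.1 else s.1.tail.tail),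
    s.2.1 ++ [u], q.2)

/-- The machine. -/
def mrun (e : List Bool) (v c : ℕ) (N : List (List Bool)) (Z : List Bool)
    (tab : List (List SI)) (T : List Tok) :
    List (List Bool) × List (List Bool) × List Bool :=
  T.foldr (rstep e v c N Z tab) ([], [], [])

theorem Run2_cons (e : List Bool) (v c : ℕ) (N : List (List Bool)) (Z : List Bool)
    (tab : List (List SI)) (q : Tok) (T : List Tok) :
    mrun e v c N Z tab (q :: T) = rstep e v c N Z tab q (mrun e v c N Z tab T) := rfl

theorem Run2_name (e : List Bool) (v c : ℕ) (N : List (List Bool)) (Z : List Bool)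
    (tab : List (List SI)) (q : Tok) (T : List Tok) :
    (mrun e v c N Z tab (q :: T)).2.2 = q.2 := rfl

theorem Run2_vf_one : vf .one = 1 := by
  funext x
  simp [vf, Tm.val]

theorem Run2_zero (e : List Bool) (v c : ℕ) (N : List (List Bool)) (Z : List Bool)
    (tab : List (List SI)) (s : List (List Bool) × List (List Bool) × List Bool) :
    rstep e v c N Z tab (0, []) s = ([true] :: s.1, s.2.1 ++ [[true]], []) := rfl

theorem Run2_four (e : List Bool) (v c : ℕ) (N : List (List Bool)) (Z : List Bool)
    (tab : List (List SI)) (w : List Bool)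
    (s : List (List Bool) × List (List Bool) × List Bool) :
    rstep e v c N Z tab (4, w) s = (tval e v c N Z tab s.2.1.length w :: s.1,
      s.2.1 ++ [tval e v c N Z tab s.2.1.length w], w) := rfl

theorem Run2_add (e : List Bool) (v c : ℕ) (N : List (List Bool)) (Z : List Bool)
    (tab : List (List SI)) (s : List (List Bool) × List (List Bool) × List Bool) :
    rstep e v c N Z tab (1, []) s =
      (rad e (s.1.headD [true]) (s.1.tail.headD [true]) :: s.1.tail.tail,
        s.2.1 ++ [rad e (s.1.headD [true]) (s.1.tail.headD [true])], []) := rfl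

theorem Run2_mul (e : List Bool) (v c : ℕ) (N : List (List Bool)) (Z : List Bool)
    (tab : List (List SI)) (s : List (List Bool) × List (List Bool) × List Bool) :
    rstep e v c N Z tab (2, []) s =
      (rmu e (s.1.headD [true]) (s.1.tail.headD [true]) :: s.1.tail.tail,
        s.2.1 ++ [rmu e (s.1.headD [true]) (s.1.tail.headD [true])], []) := rfl

theorem Run2_pow (e : List Bool) (v c : ℕ) (N : List (List Bool)) (Z : List Bool)
    (tab : List (List SI)) (s : List (List Bool) × List (List Bool) × List Bool) :
    rstep e v c N Z tab (3, []) s =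
      (tval e v c N Z tab s.2.1.length s.2.2 :: s.1.tail.tail,
        s.2.1 ++ [tval e v c N Z tab s.2.1.length s.2.2], []) := rfl

/-- The shape of a stack with two members on top. -/
theorem Run2_two {A B : Type} {f : A → B} {l : List A} {x y : B} {r : List B}
    (h : l.map f = x :: y :: r) (d : A) :
    f (l.headD d) = x ∧ f (l.tail.headD d) = y ∧ l.tail.tail.map f = r := by
  match l, h with
  | [], h => simp at h
  | [_], h => simp at h
  | a :: b :: l, h =>
    simp only [List.map_cons, List.cons.injEq] at h
    exact ⟨h.1, h.2.1, h.2.2⟩

/-- The machine computes the values `hv χ` of all subterms, if the values of the powers and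
variables are given by `χ`. -/
theorem mrun_val (e : List Bool) (v c : ℕ) (N : List (List Bool)) (Z : List Bool)
    (tab : List (List SI)) {T : List Tok} {st U : List Tm} (h : Stk T st U)
    (χ : List Bool → Fn → ZMod (bval e + 2))
    (hχ : ∀ a < U.length, ∀ w, zv e (tval e v c N Z tab a w) = χ w (ev U a)) :
    (mrun e v c N Z tab T).1.map (zv e) = st.map (hv χ) ∧
      (mrun e v c N Z tab T).2.1.map (zv e) = U.map (hv χ) := by
  have restr : ∀ {U : List Tm} {u : Tm},
      (∀ a < (U ++ [u]).length, ∀ w, zv e (tval e v c N Z tab a w) = χ w (ev (U ++ [u]) a)) →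
      (∀ a < U.length, ∀ w, zv e (tval e v c N Z tab a w) = χ w (ev U a)) := by
    intro U u h0 a ha w
    rw [h0 a (by simp; omega) w, ev_append ha]
  have last : ∀ {U : List Tm} {u : Tm},
      (∀ a < (U ++ [u]).length, ∀ w, zv e (tval e v c N Z tab a w) = χ w (ev (U ++ [u]) a)) →
      ∀ w, zv e (tval e v c N Z tab U.length w) = χ w (vf (tt u)) := by
    intro U u h0 w
    rw [h0 _ (by simp) w, ev_last]
  induction h with
  | nil => exact ⟨rfl, rfl⟩
  | one _ ih =>
    obtain ⟨h1, h2⟩ := ih (restr hχ)
    rw [Run2_cons, Run2_zero]
    refine ⟨?_, ?_⟩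
    · rw [List.map_cons, h1, zv_one]
      rfl
    · rw [List.map_append, h2, List.map_append]
      simp [zv_one, hv]
  | @var T st U w _ ih =>
    obtain ⟨h1, h2⟩ := ih (restr hχ)
    have hl : (mrun e v c N Z tab T).2.1.length = U.length := by
      have := congrArg List.length h2
      simpa using this
    have h3 : zv e (tval e v c N Z tab (mrun e v c N Z tab T).2.1.length w) =
        hv χ (.var w) := by
      rw [hl, last hχ w]
      show χ w (vf .one) = χ w 1
      rw [Run2_vf_one]
    rw [Run2_cons, Run2_four]
    refine ⟨?_, ?_⟩
    · rw [List.map_cons, h1, h3]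
      rfl
    · rw [List.map_append, h2, List.map_append, List.map_singleton, h3]
      rfl
  | @add T st U a b _ ih =>
    obtain ⟨h1, h2⟩ := ih (restr hχ)
    obtain ⟨h3, h4, h5⟩ := Run2_two h1 [true]
    rw [Run2_cons, Run2_add]
    have h6 : zv e (rad e ((mrun e v c N Z tab T).1.headD [true])
        ((mrun e v c N Z tab T).1.tail.headD [true])) = hv χ (.add a b) := by
      rw [zv_rad, h3, h4]
      rfl
    refine ⟨?_, ?_⟩
    · rw [List.map_cons, h5, h6]
      rfl
    · rw [List.map_append, h2, List.map_append, List.map_singleton, h6]
      rfl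
  | @mul T st U a b _ ih =>
    obtain ⟨h1, h2⟩ := ih (restr hχ)
    obtain ⟨h3, h4, h5⟩ := Run2_two h1 [true]
    rw [Run2_cons, Run2_mul]
    have h6 : zv e (rmu e ((mrun e v c N Z tab T).1.headD [true])
        ((mrun e v c N Z tab T).1.tail.headD [true])) = hv χ (.mul a b) := by
      rw [zv_rmu, h3, h4]
      rfl
    refine ⟨?_, ?_⟩
    · rw [List.map_cons, h5, h6]
      rfl
    · rw [List.map_append, h2, List.map_append, List.map_singleton, h6]
      rfl
  | @pow T st U w b hst ih =>
    obtain ⟨h1, h2⟩ := ih (restr hχ)
    obtain ⟨_, _, h5⟩ := Run2_two h1 [true]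
    obtain ⟨T', hT'⟩ := hst.var_top
    have hw : (mrun e v c N Z tab T).2.2 = w := by
      rw [hT', Run2_name]
    have hl : (mrun e v c N Z tab T).2.1.length = U.length := by
      have := congrArg List.length h2
      simpa using this
    have h6 : zv e (tval e v c N Z tab (mrun e v c N Z tab T).2.1.length
        (mrun e v c N Z tab T).2.2) = hv χ (.pow (.var w) b) := by
      rw [hl, hw, last hχ w]
      rfl
    rw [Run2_cons, Run2_pow]
    refine ⟨?_, ?_⟩
    · rw [List.map_cons, h5, h6]
      rfl
    · rw [List.map_append, h2, List.map_append, List.map_singleton, h6]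
      rfl

/-- The sizes of the state. -/
theorem mrun_len (e : List Bool) (v c : ℕ) (N : List (List Bool)) (Z : List Bool)
    (tab : List (List SI)) (T : List Tok) :
    (mrun e v c N Z tab T).1.length ≤ T.length ∧ (mrun e v c N Z tab T).2.1.length = T.length ∧
      (∀ x ∈ (mrun e v c N Z tab T).1, x.length ≤ e.length + 4) ∧
      (∀ x ∈ (mrun e v c N Z tab T).2.1, x.length ≤ e.length + 4) := by
  induction T with
  | nil =>
    refine ⟨le_rfl, rfl, ?_, ?_⟩
    · intro x hx
      exact absurd hx (by simp [mrun])
    · intro x hx
      exact absurd hx (by simp [mrun])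
  | cons q T ih =>
    obtain ⟨h1, h2, h3, h4⟩ := ih
    rw [Run2_cons]
    revert h1 h2 h3 h4
    generalize mrun e v c N Z tab T = s
    intro h1 h2 h3 h4
    have hu : ∃ u : List Bool, u.length ≤ e.length + 4 ∧ rstep e v c N Z tab q s =
        (u :: (bif decide (q.1 = 0) || decide (q.1 = 4) then s.1 else s.1.tail.tail),
          s.2.1 ++ [u], q.2) := by
      refine ⟨_, ?_, rfl⟩
      by_cases c0 : q.1 = 0
      · simp [c0]
      · by_cases c4 : q.1 = 4
        · simp only [c4, decide_true, cond_true]
          exact length_tval_le _ _ _ _ _ _ _ _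
        · by_cases c1 : q.1 = 1
          · simp only [c1, decide_true, cond_true]
            exact length_rad_le _ _ _
          · by_cases c2 : q.1 = 2
            · simp only [c2, decide_true, cond_true]
              exact length_rmu_le _ _ _
            · simp only [c0, c4, c1, c2, decide_false, cond_false]
              exact length_tval_le _ _ _ _ _ _ _ _
    obtain ⟨u, hu1, hu2⟩ := hu
    rw [hu2]
    have hsub : ∀ x ∈ (bif decide (q.1 = 0) || decide (q.1 = 4) then s.1 else s.1.tail.tail),
        x ∈ s.1 := by
      intro x hx
      cases hb : (decide (q.1 = 0) || decide (q.1 = 4))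
      · rw [hb, cond_false] at hx
        exact List.mem_of_mem_tail (List.mem_of_mem_tail hx)
      · rw [hb, cond_true] at hx
        exact hx
    have hlen : (bif decide (q.1 = 0) || decide (q.1 = 4) then s.1 else s.1.tail.tail).length ≤
        s.1.length := by
      cases hb : (decide (q.1 = 0) || decide (q.1 = 4))
      · rw [cond_false, List.length_tail, List.length_tail]
        omega
      · rw [cond_true]
    refine ⟨?_, ?_, ?_, ?_⟩
    · rw [List.length_cons, List.length_cons]
      omega
    · rw [List.length_append, List.length_singleton, List.length_cons, h2]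
    · intro x hx
      rcases List.mem_cons.1 hx with rfl | hx
      · exact hu1
      · exact h3 x (hsub x hx)
    · intro x hx
      rcases List.mem_append.1 hx with hx | hx
      · exact h4 x hx
      · rw [List.mem_singleton.1 hx]
        exact hu1

/-- The hash row: the values of the exponents of all the powers of `T` (one for the other
subterms), from the table for `T.tail`. -/
def hrow (e : List Bool) (v c : ℕ) (N : List (List Bool)) (tab : List (List SI))
    (T : List Tok) (Z : List Bool) : List (List Bool) :=
  (List.range T.length).map fun a =>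
    bif decide ((T.reverse.getD a (0, [])).1 = 3) then
      (mrun e v c N Z tab T.tail).2.1.getD (a - 2) [true] else [true]

theorem hrow_length (e : List Bool) (v c : ℕ) (N : List (List Bool)) (tab : List (List SI))
    (T : List Tok) (Z : List Bool) : (hrow e v c N tab T Z).length = T.length := by
  simp [hrow]

end Pool.Agent.TW
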