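import Pool.Agent.H.MP_b2d7dd_lc.TW.Chi
import Pool.Agent.H.MP_b2d7dd_lc.TW.Run2
import Pool.Agent.H.MP_b2d7dd_lc.TW.MEl

/-!
# Module Hro: the hash rows

`hrow_val`: the entries of the hash row are the values of the exponents (`mrun_val` for the tokens
`T` without the first one, with `χ = chi ...`, `zv_tval`, `chi_ev`; `Stk.tail`, `Stk.tt_eq`,
`Stk.two_le`, `Stk.length`). `hrow_rel`: they satisfy all relations (`row_rel`).
`stack_val`: the values on the stack.
-/

namespace Pool.Agent.TW

open Pool.Agent.TI (Tm Tok names)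
open Pool.Agent.H.MP_5be563_lc.PT Finset

theorem stack_val (e : List Bool) (v c : ℕ) (N : List (List Bool)) (Z : List Bool)
    {tab : List (List SI)} {T : List Tok} {st U : List Tm} (h : Stk T st U)
    (hc : Coh U (tab.map irow)) :
    (mrun e v c N Z tab T).1.map (zv e) =
      st.map (hv (chi (wfun e v c N Z) (tab.map irow) U)) ∧
    (mrun e v c N Z tab T).2.1.map (zv e) =
      U.map (hv (chi (wfun e v c N Z) (tab.map irow) U)) := by
  refine mrun_val e v c N Z tab h _ fun a ha w => ?_
  rw [zv_tval, chi_ev (wfun e v c N Z) hc w ha]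

private theorem Hro_get {A B C : Type} {f : A → C} {g : B → C} {l : List A} {m : List B}
    (h : l.map f = m.map g) {i : ℕ} (hi : i < m.length) (a : A) (b : B) :
    f (l.getD i a) = g (m.getD i b) := by
  have hl : l.length = m.length := by
    have := congrArg List.length h
    simpa using this
  rw [List.getD_eq_getElem _ _ hi, List.getD_eq_getElem _ _ (by omega)]
  have h1 : (l.map f)[i]'(by rw [List.length_map]; omega) =
      (m.map g)[i]'(by rw [List.length_map]; omega) := by
    simp only [h]
  rwa [List.getElem_map, List.getElem_map] at h1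

theorem hrow_val (e : List Bool) (v c : ℕ) (N : List (List Bool)) (Z : List Bool)
    {tab : List (List SI)} {q : Tok} {T : List Tok} {st U' : List Tm} {u : Tm}
    (h : Stk (q :: T) st (U' ++ [u])) (hc : Coh U' (tab.map irow)) {a : ℕ}
    (ha : a < (U' ++ [u]).length) :
    evr e (hrow e v c N tab (q :: T) Z) a =
      hv (chi (wfun e v c N Z) (tab.map irow) U') (tt ((U' ++ [u]).getD a .one)) := by
  obtain ⟨st', U'', u', h', he⟩ := h.tail
  have hU : U' = U'' := (List.append_inj' he rfl).1
  rw [← hU] at h'
  have hlen := h.length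
  have hlen' := h'.length
  have ha' : a < (q :: T).length := by omega
  have h1 : evr e (hrow e v c N tab (q :: T) Z) a =
      zv e (bif decide (((q :: T).reverse.getD a (0, [])).1 = 3) then
        (mrun e v c N Z tab T).2.1.getD (a - 2) [true] else [true]) := by
    show zv e ((hrow e v c N tab (q :: T) Z).getD a []) = _
    unfold hrow
    rw [MEl_getD_map _ _ ha']
    rfl
  rw [h1, h.tt_eq ha']
  by_cases h3 : ((q :: T).reverse.getD a (0, [])).1 = 3
  · have h2 := h.two_le ha' h3
    rw [List.length_cons] at ha'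
    have h4 : a - 2 < U'.length := by omega
    rw [if_pos h3, decide_eq_true h3, cond_true, List.getD_append _ _ _ _ h4]
    exact Hro_get (stack_val e v c N Z h' hc).2 h4 _ _
  · rw [if_neg h3, decide_eq_false h3, cond_false, zv_one]
    rfl

theorem hrow_rel (e : List Bool) (v c : ℕ) (N : List (List Bool)) (Z : List Bool)
    {tab : List (List SI)} {q : Tok} {T : List Tok} {st U' : List Tm} {u : Tm}
    (h : Stk (q :: T) st (U' ++ [u])) (hc : Coh U' (tab.map irow)) (κ : ℕ → ℤ)
    (hκ : ∑ a ∈ range (U' ++ [u]).length, κ a • ev (U' ++ [u]) a = 0) :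
    ∑ a ∈ range (U' ++ [u]).length, ((κ a : ℤ) : ZMod (bval e + 2)) *
      evr e (hrow e v c N tab (q :: T) Z) a = 0 := by
  rw [← row_rel (wfun e v c N Z) h hc κ hκ]
  refine Finset.sum_congr rfl fun a ha => ?_
  rw [hrow_val e v c N Z h hc (mem_range.1 ha)]

end Pool.Agent.TW
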