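import Pool.Agent.H.MP_b2d7dd_lc.TW.Nxt
import Pool.Agent.H.MP_b2d7dd_lc.TW.Hro
import Pool.Agent.H.MP_b2d7dd_lc.TW.Det
import Pool.Agent.H.MP_b2d7dd_lc.TW.LiftP

/-!
# Module Snd: true identities are always accepted

`nxt_coh`: `coh_ltab` with `NB_le`, `par_coh`, `bval_pow2`, `hrow_length`, `hrow_rel`.
`tabF_coh`: induction on `T` (`Stk.tail`). `fin1_iff`: `stack_val`, `beqv_bmod_iff`, `zv_nil`.
`test0_valid`: `Valid s t` gives `vf s = vf t`; `hv_rel` for the family of the two terms with the
coefficients `1, -1` (`Stk.at_Sp`, `Stk.mem`, `Stk.toks`, `chi_chr`).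
-/

namespace Pool.Agent.TW

open Pool.Agent.TI (Tm Tok names Valid)
open Pool.Agent.TE (bl)
open Pool.Agent.H.MP_5be563_lc.PT Finset

theorem nxt_coh {n : ℕ} {q : Tok} {T : List Tok} {st U' : List Tm} {u : Tm}
    (h : Stk (q :: T) st (U' ++ [u])) (hn : (q :: T).length ≤ n) {e : List Bool}
    (he : 2 ^ vv n ≤ bval e) (N : List (List Bool)) {tab : List (List SI)}
    (hc : Coh U' (tab.map irow)) (zz : List Bool) :
    Coh (U' ++ [u]) ((nxt n e N (q :: T) tab zz).map irow) := by
  have hl := h.length
  unfold nxt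
  rw [← hl]
  have hL : (U' ++ [u]).length ≤ n := by
    rw [hl]
    exact hn
  refine coh_ltab h (kk n) ?_ ?_ _ ?_ ?_
  · rw [bval_pow2]
    exact NB_le hL
  · rw [bval_pow2, bval_pow2]
    exact par_coh hL (by omega)
  · intro v hv
    obtain ⟨j, -, rfl⟩ := List.mem_map.1 hv
    rw [hrow_length, hl]
  · intro v hv κ hκ
    obtain ⟨j, -, rfl⟩ := List.mem_map.1 hv
    exact hrow_rel e (vv n) (n + 1) N _ h hc κ hκ

theorem nxt_bound (n : ℕ) (e : List Bool) (N : List (List Bool)) (T : List Tok)
    (tab : List (List SI)) (zz : List Bool) :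
    (nxt n e N T tab zz).length ≤ T.length ∧
      ∀ row ∈ (nxt n e N T tab zz).map irow, ∀ a, |row a| ≤ (2 ^ eP n : ℕ) := by
  unfold nxt
  refine ⟨(ltab_len _ _ _ _ _ _).1.trans (pivots_len _ _ _).1, ?_⟩
  intro row hrow a
  obtain ⟨l, hl, rfl⟩ := List.mem_map.1 hrow
  have h1 := (mem_ltab hl).2 a
  rw [bval_pow2] at h1
  exact h1

theorem tabF_bound (n : ℕ) (e : List Bool) (N : List (List Bool)) (T : List Tok)
    (z : List Bool) : (tabF n e N z T).length ≤ T.length ∧
      ∀ row ∈ (tabF n e N z T).map irow, ∀ a, |row a| ≤ (2 ^ eP n : ℕ) := by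
  cases T with
  | nil =>
    refine ⟨le_rfl, ?_⟩
    intro row hrow
    exact absurd hrow (by simp [tabF])
  | cons q T => exact nxt_bound n e N (q :: T) _ _

theorem tabF_coh {n : ℕ} {T : List Tok} {st U : List Tm} (h : Stk T st U) (hn : T.length ≤ n)
    {e : List Bool} (he : 2 ^ vv n ≤ bval e) (N : List (List Bool)) (z : List Bool) :
    Coh U ((tabF n e N z T).map irow) := by
  induction T generalizing st U with
  | nil =>
    intro κ _ row hrow
    exact absurd hrow (by simp [tabF])
  | cons q T ih =>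
    obtain ⟨st', U', u, h', rfl⟩ := h.tail
    have h1 : T.length ≤ n := by
      rw [List.length_cons] at hn
      omega
    exact nxt_coh h hn he N (ih h' h1) _

theorem fin1_iff {n : ℕ} {T : List Tok} {s t : Tm} {U : List Tm} (h : Stk T [s, t] U)
    (e : List Bool) (N : List (List Bool)) {tab : List (List SI)}
    (hc : Coh U (tab.map irow)) (zz : List Bool) :
    fin1 n e N T tab zz = true ↔
      hv (chi (wfun e (vv n) (n + 1) N (bl (Qw n * vv n) zz 0)) (tab.map irow) U) s =
      hv (chi (wfun e (vv n) (n + 1) N (bl (Qw n * vv n) zz 0)) (tab.map irow) U) t := by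
  have h1 := (stack_val e (vv n) (n + 1) N (bl (Qw n * vv n) zz 0) h hc).1
  rw [List.map_cons, List.map_cons] at h1
  obtain ⟨h2, h3, -⟩ := Run2_two h1 []
  unfold fin1
  rw [beqv_bmod_iff, h2, h3]

theorem test0_valid {n : ℕ} {T : List Tok} {s t : Tm} {U : List Tm} (h : Stk T [s, t] U)
    (hn : T.length ≤ n) (hv : Valid s t) (e z : List Bool) : test0 n T e z = true := by
  unfold test0
  cases hb : ble (pow2 (vv n)) e with
  | false => rfl
  | true =>
    rw [cond_true]
    have he := (ble_iff _ _).1 hb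
    rw [bval_pow2] at he
    have hc := tabF_coh h hn he (names T) z
    rw [fin1_iff h e (names T) hc]
    have hvf : vf s = vf t := by
      funext x
      show ((s.val x.1 : ℕ) : ℤ) = ((t.val x.1 : ℕ) : ℤ)
      rw [hv x.1 x.2]
    have h1 := hv_rel (chi_chr (wfun e (vv n) (n + 1) (names T)
        (bl (Qw n * vv n) (bl (SS n) z T.length) 0)) hc) (Finset.univ : Finset Bool)
      (fun b => bif b then s else t) (by
        rintro (_ | _) _
        · exact h.toks.2 t (by simp)
        · exact h.toks.2 s (by simp)) (by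
        rintro (_ | _) _
        · obtain ⟨a, _, ha⟩ := h.mem t (by simp)
          have h2 := h.at_Sp a
          rw [ha] at h2
          exact h2
        · obtain ⟨a, _, ha⟩ := h.mem s (by simp)
          have h2 := h.at_Sp a
          rw [ha] at h2
          exact h2) (fun b => bif b then 1 else -1) (by
        rw [Fintype.sum_bool]
        simp [hvf])
    rw [Fintype.sum_bool] at h1
    simp only [cond_true, cond_false, Int.cast_one, Int.cast_neg] at h1
    linear_combination h1

end Pool.Agent.TW
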