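import Pool.Agent.H.MP_b2d7dd_lc.TW.RunP
import Pool.Agent.H.MP_b2d7dd_lc.TW.Nxt
import Pool.Agent.H.MP_b2d7dd_lc.TW.Snd
import Pool.Agent.H.MP_b2d7dd_lc.TI.Unp

/-!
# Module NxtP: one stage runs in polynomial time

The parameters are polynomials (products and sums of `f a`; `unfold` and `fun_prop`, or write the
powers as products). `nxt`: `poly_ltab` (module LiftP), `poly_pivots`, `poly_hrow`, `Poly.map`.
-/

namespace Pool.Agent.TW

open Pool.Agent.TI (Tm Tok names tokz unpair pairCode)
open Pool.Agent.TE (bl)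
open Pool.Agent.H.MP_5be563_lc.PT

variable {α : Type} [Enc α]

theorem poly_par {f : α → ℕ} (hf : Poly f) : Poly (fun a => eN (f a)) ∧ Poly (fun a => eP (f a)) ∧
    Poly (fun a => vv (f a)) ∧ Poly (fun a => Qw (f a)) ∧ Poly (fun a => Rr (f a)) ∧
    Poly (fun a => kk (f a)) ∧ Poly (fun a => SS (f a)) ∧ Poly (fun a => AA (f a)) ∧
    Poly (fun a => KK (f a)) := by
  have h1 : Poly (fun a => eN (f a)) := by
    unfold eN
    fun_prop
  have h2 : Poly (fun a => eP (f a)) := by
    unfold eP
    fun_prop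
  have h3 : Poly (fun a => vv (f a)) := by
    unfold vv uu
    fun_prop
  have h4 : Poly (fun a => Qw (f a)) := by
    unfold Qw
    fun_prop
  have h5 : Poly (fun a => Rr (f a)) := by
    unfold Rr
    fun_prop
  have h6 : Poly (fun a => kk (f a)) := by
    unfold kk
    fun_prop
  have h7 : Poly (fun a => SS (f a)) := by
    unfold SS
    fun_prop
  have h8 : Poly (fun a => AA (f a)) := by
    unfold AA
    fun_prop
  have h9 : Poly (fun a => KK (f a)) := by
    unfold KK
    fun_prop
  exact ⟨h1, h2, h3, h4, h5, h6, h7, h8, h9⟩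

theorem poly_pow2 {f : α → ℕ} (hf : Poly f) : Poly (fun a => pow2 (f a)) := by
  have e : (fun a => pow2 (f a)) = fun a => (List.range (f a)).map (fun _ => false) ++ [true] := by
    funext a
    rw [pow2, List.map_const', List.length_range]
  rw [e]
  exact H.MP_5be563_lc.PT.Poly.append (H.MP_5be563_lc.PT.Poly.map (f := fun _ _ => false) (by fun_prop) (Poly.range hf)) (by fun_prop)

theorem poly_nxt {fn : α → ℕ} {fe : α → List Bool} {fN : α → List (List Bool)}
    {fT : α → List Tok} {ft : α → List (List SI)} {fz : α → List Bool} (hn : Poly fn)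
    (he : Poly fe) (hN : Poly fN) (hT : Poly fT) (ht : Poly ft) (hz : Poly fz) :
    Poly (fun a => nxt (fn a) (fe a) (fN a) (fT a) (ft a) (fz a)) := by
  obtain ⟨h1, h2, h3, h4, h5, h6, -, -, -⟩ := poly_par hn
  obtain ⟨g1, g2, g3, g4, g5, g6, -, -, -⟩ := poly_par (f := fun p : α × ℕ => fn p.1) (by fun_prop)
  unfold nxt
  refine poly_ltab he (poly_pow2 h1) (poly_pow2 h2) h6 (by fun_prop) ?_
  refine poly_pivots he (by fun_prop) ?_
  refine H.MP_5be563_lc.PT.Poly.map (f := fun a j => hrow (fe a) (vv (fn a)) (fn a + 1) (fN a) (ft a) (fT a)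
    (bl (Qw (fn a) * vv (fn a)) (fz a) j)) ?_ (Poly.range h5)
  exact poly_hrow (by fun_prop) g3 (by fun_prop) (by fun_prop) (by fun_prop) (by fun_prop)
    (poly_bl (Poly.mul g4 g3) (by fun_prop) (by fun_prop))

end Pool.Agent.TW
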