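import Pool.Agent.H.MP_b2d7dd_lc.TW.Snd
import Pool.Agent.H.MP_b2d7dd_lc.TW.Cmb

/-!
# Module FinC: the last comparison

`final_cnt`: `fin1_iff`, `cnt_comb` for the terms `s`, `t` with `θ = 1, -1`: by `rep_rel` the
polynomials differ (`¬ Valid`), the coefficient of some monomial is a non-zero integer of absolute
value at most `2 ^ (n + 1) < r` (`rep_bound`, `Tm.length_toks`); only the first `Qw n * vv n` bits
matter (`cnt_take`; `SS n = Qw n * vv n + (Rr n - 1) * (Qw n * vv n)`, `bl _ zz 0 = zz.take _`);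
`par_fin`.
-/

namespace Pool.Agent.TW

open Pool.Agent.TI (Tm Tok names Valid)
open Pool.Agent.TE (bl)
open Pool.Agent.H.MP_5be563_lc.PT Finset

theorem FinC_rep {s t : Tm} (hs : VB s) (ht : VB t) (hst : ¬ Valid s t) :
    ∃ g, rep s g ≠ rep t g := by
  by_contra hall
  push Not at hall
  apply hst
  have h1 : rep s = rep t := Finsupp.ext hall
  have h2 := (rep_rel (Finset.univ : Finset Bool) (fun b => if b then s else t)
    (fun j _ => by cases j <;> simpa) (fun b => if b then 1 else -1)).2 (by simp [h1])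
  intro x hx
  have h3 := congrFun h2 ⟨x, hx⟩
  have h4 : ((s.val x : ℕ) : ℤ) - (t.val x : ℕ) = 0 := by
    rw [Fintype.sum_bool] at h3
    simp only [if_true, one_smul, Pi.add_apply, Pi.zero_apply, Bool.false_eq_true, if_false,
      neg_smul, Pi.neg_apply] at h3
    unfold vf at h3
    rw [← h3]
    ring
  omega

theorem FinC_coef {n r : ℕ} {s t : Tm} (hs : VB s) (ht : VB t) (hst : ¬ Valid s t)
    (h1 : s.sz ≤ n + 1) (h2 : t.sz ≤ n + 1) (hr : 2 ^ (n + 1) < r) :
    ∃ g, ((rep s g : ℤ) : ZMod r) - ((rep t g : ℤ) : ZMod r) ≠ 0 := by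
  obtain ⟨g, hg⟩ := FinC_rep hs ht hst
  refine ⟨g, ?_⟩
  intro h
  rw [← Int.cast_sub, ZMod.intCast_zmod_eq_zero_iff_dvd] at h
  obtain ⟨a1, a2⟩ := rep_bound s g
  obtain ⟨b1, b2⟩ := rep_bound t g
  have c1 : (2 : ℤ) ^ s.sz ≤ 2 ^ (n + 1) := pow_le_pow_right₀ (by norm_num) h1
  have c2 : (2 : ℤ) ^ t.sz ≤ 2 ^ (n + 1) := pow_le_pow_right₀ (by norm_num) h2
  have c3 : (2 : ℤ) ^ (n + 1) < (r : ℤ) := by exact_mod_cast hr
  have h4 : rep s g - rep t g = 0 := by
    apply Int.eq_zero_of_abs_lt_dvd h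
    rw [abs_lt]
    constructor <;> linarith
  exact hg (sub_eq_zero.1 h4)

theorem final_cnt {n : ℕ} {T : List Tok} {s t : Tm} {U : List Tm} (h : Stk T [s, t] U)
    (hn : T.length ≤ n) (hst : ¬ Valid s t) {e : List Bool}
    (he : 2 ^ vv n ≤ bval e) (hp : (bval e + 2).Prime)
    {N : List (List Bool)} (hNT : ∀ w ∈ names T, w ∈ N) (hN : N.length ≤ n)
    {tab : List (List SI)} (hc : Coh U (tab.map irow)) (hf : Fai U (tab.map irow))
    (hP : ∀ row ∈ tab.map irow, ∀ a, |row a| ≤ (2 ^ eP n : ℕ)) (hl : tab.length ≤ n) :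
    8 * cnt (SS n) (fun zz => fin1 n e N T tab zz = true) ≤ 2 ^ SS n := by
  have hvb := h.toks.2
  have hs : VB s := hvb s (by simp)
  have ht : VB t := hvb t (by simp)
  obtain ⟨a, ha, has⟩ := h.mem s (by simp)
  obtain ⟨b, hb, hbt⟩ := h.mem t (by simp)
  have hAs : At (atoms T U) s := by
    rw [← has]
    exact h.atoms a
  have hAt : At (atoms T U) t := by
    rw [← hbt]
    exact h.atoms b
  have hzs : s.sz ≤ n + 1 := by
    have := (h.sz a).1
    rw [has] at this
    omega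
  have hzt : t.sz ≤ n + 1 := by
    have := (h.sz b).1
    rw [hbt] at this
    omega
  have hvn : n + 1 ≤ vv n := by
    unfold vv uu
    omega
  have hr : 2 ^ (n + 1) < bval e + 2 := by
    have h1 : (2 : ℕ) ^ (n + 1) ≤ 2 ^ vv n := Nat.pow_le_pow_right (by norm_num) hvn
    omega
  obtain ⟨g, hg⟩ := FinC_coef (r := bval e + 2) hs ht hst hzs hzt hr
  have key := cnt_comb (J := Bool) (v := vv n) (n := n) (P := 2 ^ eP n) h hp (by omega) hNT hN
    hc hf hP hl Finset.univ (fun j => if j then s else t)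
    (fun j _ => by cases j <;> simpa) (fun j _ => by cases j <;> simpa)
    (fun j => if j then 1 else -1) ⟨g, by
      rw [Fintype.sum_bool]
      simpa [sub_eq_add_neg] using hg⟩
  set A := Qw n * vv n with hA
  set C := cnt A (fun Z =>
      hv (chi (wfun e (vv n) (n + 1) N Z) (tab.map irow) U) s =
      hv (chi (wfun e (vv n) (n + 1) N Z) (tab.map irow) U) t) with hC
  have e1 : C ≤ cnt (((n + 1) * (n + 1)) * vv n) (fun Z =>
      ∑ j ∈ (Finset.univ : Finset Bool), (if j then (1 : ZMod (bval e + 2)) else -1) *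
        hv (chi (wfun e (vv n) (n + 1) N Z) (tab.map irow) U) (if j then s else t) = 0) := by
    rw [hC, hA]
    refine cnt_mono fun Z _ hZ => ?_
    rw [Fintype.sum_bool]
    simp [hZ]
  have e2 : 2 ^ vv n * C ≤ Aa n * 2 ^ A := by
    refine (Nat.mul_le_mul_left _ e1).trans (key.trans (le_of_eq ?_))
    unfold Aa Qw
    rw [hA, ← pow_mul, mul_comm (vv n)]
    rfl
  have e3 : 8 * C ≤ 2 ^ A := by
    have h1 : 2 ^ vv n * (8 * C) ≤ 2 ^ vv n * 2 ^ A := by
      calc 2 ^ vv n * (8 * C) = 8 * (2 ^ vv n * C) := by ring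
        _ ≤ 8 * (Aa n * 2 ^ A) := Nat.mul_le_mul_left _ e2
        _ = (8 * Aa n) * 2 ^ A := by ring
        _ ≤ 2 ^ vv n * 2 ^ A := Nat.mul_le_mul_right _ (par_fin n)
    exact Nat.le_of_mul_le_mul_left h1 (by positivity)
  have e4 : SS n = A + (Rr n - 1) * A := by
    unfold SS Rr
    rw [← hA]
    have : 6 * (n + 1) = 1 + (6 * (n + 1) - 1) := by omega
    conv_lhs => rw [this, add_mul, one_mul]
  have e5 : cnt (SS n) (fun zz => fin1 n e N T tab zz = true) ≤ C * 2 ^ ((Rr n - 1) * A) := by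
    rw [hC, ← cnt_take, e4]
    refine cnt_mono fun zz _ hz => ?_
    have h1 := (fin1_iff h e N hc zz).1 hz
    unfold bl at h1
    rw [zero_mul, List.drop_zero] at h1
    exact h1
  calc 8 * cnt (SS n) (fun zz => fin1 n e N T tab zz = true)
      ≤ 8 * (C * 2 ^ ((Rr n - 1) * A)) := Nat.mul_le_mul_left _ e5
    _ = (8 * C) * 2 ^ ((Rr n - 1) * A) := by ring
    _ ≤ 2 ^ A * 2 ^ ((Rr n - 1) * A) := Nat.mul_le_mul_right _ e3
    _ = 2 ^ SS n := by rw [e4, pow_add]

end Pool.Agent.TW
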