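import Pool.Agent.H.MP_b2d7dd_lc.TI.Blk

/-!
# Module Prm: random primes

`M = 2 ^ (2 v)`. `choose M (M / 2) ≥ 2 ^ M / M` is the product of the prime powers
`p ^ v_p ≤ M` (`Nat.pow_factorization_choose_le`) over the primes `p ≤ M`, so
`2 ^ M ≤ M * M ^ π(M)`, `M - 2 v ≤ 2 v π(M)`; compare TI/Md (`choose_le_mul`, with `d = 1`). So there
are at least `(M - 2 v) / (2 v) - 2 ^ v ≥ M / (4 v)` primes in `(2 ^ v, M]`; every `m` in `[2, M + 1]`
is `bval (List.ofFn ω) + 2` for some `ω` (see `TI.XA_surj`).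
-/

namespace Pool.Agent.TW

open Pool.Agent.H.MP_5be563_lc.PT

private theorem Prm_choose (M : ℕ) (hM : 0 < M) :
    Nat.choose M (M / 2) ≤ M ^ ((Finset.Icc 1 M).filter Nat.Prime).card := by
  classical
  set C := Nat.choose M (M / 2) with hC
  have hC0 : C ≠ 0 := (Nat.choose_pos (Nat.div_le_self M 2)).ne'
  have hprod : ∏ p ∈ C.primeFactors, p ^ C.factorization p = C :=
    Nat.prod_factorization_pow_eq_self hC0
  have hle : ∀ p, p ^ C.factorization p ≤ M := fun p => Nat.pow_factorization_choose_le hM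
  have hsub : C.primeFactors ⊆ (Finset.Icc 1 M).filter Nat.Prime := by
    intro p hp
    have hp1 : p.Prime := Nat.prime_of_mem_primeFactors hp
    have hv : C.factorization p ≠ 0 :=
      (hp1.factorization_pos_of_dvd hC0 (Nat.dvd_of_mem_primeFactors hp)).ne'
    have h1 : p ≤ p ^ C.factorization p := Nat.le_self_pow hv p
    exact Finset.mem_filter.2 ⟨Finset.mem_Icc.2 ⟨hp1.one_le, h1.trans (hle p)⟩, hp1⟩
  calc C = ∏ p ∈ C.primeFactors, p ^ C.factorization p := hprod.symm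
    _ ≤ M ^ C.primeFactors.card := Finset.prod_le_pow_card _ _ _ fun p _ => hle p
    _ ≤ _ := Nat.pow_le_pow_right hM (Finset.card_le_card hsub)

/-- the number of primes up to `2 ^ w` -/
private theorem Prm_pi (u : ℕ) :
    2 ^ (u + 1) ≤ (u + 1) + (u + 1) * ((Finset.Icc 1 (2 ^ (u + 1))).filter Nat.Prime).card := by
  set S := ((Finset.Icc 1 (2 ^ (u + 1))).filter Nat.Prime).card with hS
  have hk : 2 ^ (u + 1) / 2 = 2 ^ u := by
    rw [pow_succ]
    exact Nat.mul_div_cancel _ (by norm_num)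
  have h1 := Prm_choose (2 ^ (u + 1)) (by positivity)
  rw [hk, ← hS] at h1
  have h2 := Nat.four_pow_le_two_mul_self_mul_centralBinom (2 ^ u) (by positivity)
  have h3 : 2 * 2 ^ u = 2 ^ (u + 1) := by ring
  rw [Nat.centralBinom, h3] at h2
  have h4 : (4 : ℕ) ^ (2 ^ u) = 2 ^ (2 ^ (u + 1)) := by
    rw [show (4 : ℕ) = 2 ^ 2 by norm_num, ← pow_mul, h3]
  rw [h4] at h2
  have h5 : (2 : ℕ) ^ (2 ^ (u + 1)) ≤ 2 ^ ((u + 1) + (u + 1) * S) := by
    calc (2 : ℕ) ^ (2 ^ (u + 1)) ≤ 2 ^ (u + 1) * (2 ^ (u + 1)).choose (2 ^ u) := h2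
      _ ≤ 2 ^ (u + 1) * (2 ^ (u + 1)) ^ S := Nat.mul_le_mul_left _ h1
      _ = 2 ^ ((u + 1) + (u + 1) * S) := by rw [← pow_mul, ← pow_add]
  exact (Nat.pow_le_pow_iff_right (by norm_num)).1 h5

theorem card_primes {v : ℕ} (hv : 8 ≤ v) :
    2 ^ (2 * v) ≤ 4 * v * Nat.card {ω : Fin (2 * v) → Bool //
      (bval (List.ofFn ω) + 2).Prime ∧ 2 ^ v < bval (List.ofFn ω) + 2} := by
  classical
  have hcard : Nat.card {ω : Fin (2 * v) → Bool //
      (bval (List.ofFn ω) + 2).Prime ∧ 2 ^ v < bval (List.ofFn ω) + 2} =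
      (Finset.univ.filter fun ω : Fin (2 * v) → Bool =>
        (bval (List.ofFn ω) + 2).Prime ∧ 2 ^ v < bval (List.ofFn ω) + 2).card := by
    rw [Nat.card_eq_fintype_card, Fintype.card_subtype]
  rw [hcard]
  set W := Finset.univ.filter fun ω : Fin (2 * v) → Bool =>
        (bval (List.ofFn ω) + 2).Prime ∧ 2 ^ v < bval (List.ofFn ω) + 2 with hW
  have h1 : (Finset.Icc 1 (2 ^ (2 * v))).filter Nat.Prime ⊆
      Finset.Icc 1 (2 ^ v) ∪ W.image (fun ω => bval (List.ofFn ω) + 2) := by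
    intro p hp
    rw [Finset.mem_filter, Finset.mem_Icc] at hp
    obtain ⟨⟨hp1, hp2⟩, hp3⟩ := hp
    rw [Finset.mem_union]
    by_cases h : p ≤ 2 ^ v
    · exact Or.inl (Finset.mem_Icc.2 ⟨hp1, h⟩)
    · right
      have hp4 := hp3.two_le
      obtain ⟨ω, hω⟩ := TI.XA_surj (w := 2 * v) (m := p - 1) (by omega) (by omega)
      have hω' : bval (List.ofFn ω) + 2 = p := by
        unfold TI.XA at hω
        omega
      refine Finset.mem_image.2 ⟨ω, ?_, hω'⟩
      rw [hW, Finset.mem_filter, hω']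
      exact ⟨Finset.mem_univ _, hp3, not_le.1 h⟩
  have h2 : ((Finset.Icc 1 (2 ^ (2 * v))).filter Nat.Prime).card ≤ 2 ^ v + W.card := by
    refine (Finset.card_le_card h1).trans ((Finset.card_union_le _ _).trans ?_)
    refine Nat.add_le_add ?_ Finset.card_image_le
    rw [Nat.card_Icc]
    exact (Nat.add_sub_cancel _ _).le
  obtain ⟨u, hu⟩ : ∃ u, 2 * v = u + 1 := ⟨2 * v - 1, by omega⟩
  have h3 := Prm_pi u
  rw [← hu] at h3
  have h4 : 2 * v * ((Finset.Icc 1 (2 ^ (2 * v))).filter Nat.Prime).card ≤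
      2 * v * (2 ^ v + W.card) := Nat.mul_le_mul_left _ h2
  have h5 : 8 * v ≤ 2 ^ v := by
    clear * - hv
    induction v, hv using Nat.le_induction with
    | base => norm_num
    | succ v hv ih =>
      rw [pow_succ]
      omega
  have h6 : 2 ^ (2 * v) = 2 ^ v * 2 ^ v := by rw [two_mul, pow_add]
  have h7 : 8 * v * 2 ^ v ≤ 2 ^ (2 * v) := by
    rw [h6]
    exact Nat.mul_le_mul_right _ h5
  have h8 : 1 ≤ 2 ^ v := Nat.one_le_two_pow
  have h9 : 4 * v * 1 ≤ 4 * v * 2 ^ v := Nat.mul_le_mul_left _ h8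
  have h10 : 4 * v * W.card = 2 * (2 * v * W.card) := by ring
  have h11 : 2 * v * (2 ^ v + W.card) = 2 * v * 2 ^ v + 2 * v * W.card := by ring
  have h12 : 8 * v * 2 ^ v = 4 * (2 * v * 2 ^ v) := by ring
  have h13 : 4 * v * 2 ^ v = 2 * (2 * v * 2 ^ v) := by ring
  omega

end Pool.Agent.TW
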