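import Pool.Agent.H.MP_b2d7dd_lc.TW.GrB

/-!
# Module GrC: the functions of the terms with variables as bases

`VV` = the additive group generated by the functions of the `VB` terms. Let `V_0` = closure of the
constant function one, `V_(n+1)` = closure of `Mon V_n`. `V_0` is tame, so all `V_n` are
(`tame_closure`); `V_n ≤ V_(n+1)`; the function of every `VB` term is in some `V_n`
(induction on the term; `V_n` is closed under multiplication, because `Mon` is: for a product of
closures use `AddSubgroup.closure_induction` twice); every element of `VV` is in some `V_n`.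
-/

namespace Pool.Agent.TW

open Pool.Agent.TI Filter

/-- The group generated by the functions of the terms. -/
def VV : AddSubgroup Fn := AddSubgroup.closure {f | ∃ t : Tm, VB t ∧ f = vf t}

namespace GrC

/-- The levels. -/
def V : ℕ → AddSubgroup Fn
  | 0 => AddSubgroup.closure {(1 : Fn)}
  | n + 1 => AddSubgroup.closure (Mon (V n))

theorem mon_prod {g : List Bool →₀ Fn} {m : Fn}
    (hm : ∀ x : X, m x = g.prod fun w f => (x.1 w : ℤ) ^ (f x).toNat) (S : Finset (List Bool))
    (hS : g.support ⊆ S) (x : X) : m x = ∏ w ∈ S, (x.1 w : ℤ) ^ (g w x).toNat := by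
  rw [hm x]
  exact Finsupp.prod_of_support_subset g hS _ (fun w _ => by simp)

theorem one_mem_mon (W : AddSubgroup Fn) : (1 : Fn) ∈ Mon W :=
  ⟨0, fun _ => W.zero_mem, fun _ _ => le_refl _, fun _ => by simp⟩

theorem mon_mono {W W' : AddSubgroup Fn} (h : W ≤ W') : Mon W ⊆ Mon W' := by
  rintro m ⟨g, h1, h2, h3⟩
  exact ⟨g, fun w => h (h1 w), h2, h3⟩

theorem mon_mul {W : AddSubgroup Fn} {m m' : Fn} (h : m ∈ Mon W) (h' : m' ∈ Mon W) :
    m * m' ∈ Mon W := by
  classical
  obtain ⟨g, h1, h2, h3⟩ := h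
  obtain ⟨g', h1', h2', h3'⟩ := h'
  refine ⟨g + g', fun w => ?_, fun w x => ?_, fun x => ?_⟩
  · rw [Finsupp.add_apply]
    exact W.add_mem (h1 w) (h1' w)
  · rw [Finsupp.add_apply]
    exact add_nonneg (h2 w x) (h2' w x)
  · rw [Pi.mul_apply, mon_prod h3 (g.support ∪ g'.support) Finset.subset_union_left x,
      mon_prod h3' (g.support ∪ g'.support) Finset.subset_union_right x,
      Finsupp.prod_of_support_subset (g + g') (s := g.support ∪ g'.support)
        Finsupp.support_add _ (fun w _ => by simp), ← Finset.prod_mul_distrib]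
    refine Finset.prod_congr rfl fun w _ => ?_
    rw [Finsupp.add_apply, Pi.add_apply, Int.toNat_add (h2 w x) (h2' w x), pow_add]

theorem closure_mul {A : Set Fn} (hA : ∀ a ∈ A, ∀ b ∈ A, a * b ∈ A) {f g : Fn}
    (hf : f ∈ AddSubgroup.closure A) (hg : g ∈ AddSubgroup.closure A) :
    f * g ∈ AddSubgroup.closure A := by
  induction hf using AddSubgroup.closure_induction with
  | mem a ha =>
    induction hg using AddSubgroup.closure_induction with
    | mem b hb => exact AddSubgroup.subset_closure (hA a ha b hb)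
    | zero => rw [mul_zero]; exact AddSubgroup.zero_mem _
    | add x y _ _ hx hy => rw [mul_add]; exact AddSubgroup.add_mem _ hx hy
    | neg x _ hx => rw [mul_neg]; exact AddSubgroup.neg_mem _ hx
  | zero => rw [zero_mul]; exact AddSubgroup.zero_mem _
  | add x y _ _ hx hy => rw [add_mul]; exact AddSubgroup.add_mem _ hx hy
  | neg x _ hx => rw [neg_mul]; exact AddSubgroup.neg_mem _ hx

theorem V_mul (n : ℕ) {f g : Fn} (hf : f ∈ V n) (hg : g ∈ V n) : f * g ∈ V n := by
  cases n with
  | zero =>
    refine closure_mul ?_ hf hg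
    rintro a rfl b rfl
    rw [mul_one]
    rfl
  | succ n => exact closure_mul (fun a ha b hb => mon_mul ha hb) hf hg

theorem V_le_succ (n : ℕ) : V n ≤ V (n + 1) := by
  induction n with
  | zero =>
    refine (AddSubgroup.closure_le _).2 ?_
    rintro a rfl
    exact AddSubgroup.subset_closure (one_mem_mon _)
  | succ n ih => exact AddSubgroup.closure_mono (mon_mono ih)

theorem V_mono : Monotone V := monotone_nat_of_le_succ V_le_succ

theorem mem_V0 {d : Fn} (hd : d ∈ V 0) : ∃ c : ℤ, ∀ x, d x = c := by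
  have h : d ∈ AddSubgroup.closure {(1 : Fn)} := hd
  rw [AddSubgroup.mem_closure_singleton] at h
  obtain ⟨c, rfl⟩ := h
  exact ⟨c, fun x => by simp⟩

theorem tame_V0 : Tame (V 0) := by
  have key : ∀ d ∈ V 0, d ≠ 0 → ∃ c : ℤ, c ≠ 0 ∧ ∀ x, d x = c := by
    intro d hd h0
    obtain ⟨c, hc⟩ := mem_V0 hd
    refine ⟨c, ?_, hc⟩
    rintro rfl
    exact h0 (funext hc)
  constructor
  · intro d hd h0
    obtain ⟨c, hc, h⟩ := key d hd h0
    rcases lt_or_gt_of_ne hc with h1 | h1
    · right
      exact Eventually.of_forall fun p => by rw [h]; exact h1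
    · left
      exact Eventually.of_forall fun p => by rw [h]; exact h1
  · intro d hd d' hd' h0 h0'
    obtain ⟨c, hc, h⟩ := key d hd h0
    obtain ⟨c', hc', h'⟩ := key d' hd' h0'
    right
    right
    have h1 : 1 ≤ |c| := Int.one_le_abs hc
    have h2 : 1 ≤ |c'| := Int.one_le_abs hc'
    refine ⟨|c| + |c'|, Eventually.of_forall fun p => ?_⟩
    rw [h, h']
    constructor <;> nlinarith

theorem tame_V (n : ℕ) : Tame (V n) := by
  induction n with
  | zero => exact tame_V0
  | succ n ih => exact tame_closure ih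

theorem single_mem {W : AddSubgroup Fn} {f : Fn} (hf : f ∈ W) (h0 : ∀ x, 0 ≤ f x)
    (w : List Bool) : (fun x : X => (x.1 w : ℤ) ^ (f x).toNat) ∈ Mon W := by
  classical
  refine ⟨Finsupp.single w f, fun w' => ?_, fun w' x => ?_, fun x => ?_⟩
  · rw [Finsupp.single_apply]
    split_ifs
    · exact hf
    · exact W.zero_mem
  · rw [Finsupp.single_apply]
    split_ifs
    · exact h0 x
    · exact le_refl _
  · rw [Finsupp.prod_single_index (by simp)]

theorem vf_nonneg (t : Tm) (x : X) : 0 ≤ vf t x := Int.natCast_nonneg _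

theorem one_mem_V0 : (1 : Fn) ∈ V 0 := AddSubgroup.subset_closure rfl

theorem vf_mem : ∀ t : Tm, VB t → ∃ n, vf t ∈ V n
  | .one, _ => ⟨0, by
      have h : vf .one = 1 := by
        funext x
        simp [vf, Tm.val]
      rw [h]
      exact one_mem_V0⟩
  | .var w, _ => ⟨1, by
      have h : vf (.var w) = fun x : X => (x.1 w : ℤ) ^ ((1 : Fn) x).toNat := by
        funext x
        simp [vf, Tm.val]
      rw [h]
      exact AddSubgroup.subset_closure
        (single_mem one_mem_V0 (fun _ => zero_le_one) w)⟩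
  | .add s t, h => by
      obtain ⟨n, hn⟩ := vf_mem s h.1
      obtain ⟨m, hm⟩ := vf_mem t h.2
      refine ⟨max n m, ?_⟩
      have h : vf (.add s t) = vf s + vf t := by
        funext x
        simp [vf, Tm.val]
      rw [h]
      exact (V _).add_mem (V_mono (le_max_left _ _) hn) (V_mono (le_max_right _ _) hm)
  | .mul s t, h => by
      obtain ⟨n, hn⟩ := vf_mem s h.1
      obtain ⟨m, hm⟩ := vf_mem t h.2
      refine ⟨max n m, ?_⟩
      have h : vf (.mul s t) = vf s * vf t := by
        funext x
        simp [vf, Tm.val]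
      rw [h]
      exact V_mul _ (V_mono (le_max_left _ _) hn) (V_mono (le_max_right _ _) hm)
  | .pow s t, h => by
      obtain ⟨⟨w, rfl⟩, h2⟩ := h
      obtain ⟨n, hn⟩ := vf_mem t h2
      refine ⟨n + 1, ?_⟩
      have h : vf (.pow (.var w) t) = fun x : X => (x.1 w : ℤ) ^ (vf t x).toNat := by
        funext x
        simp [vf, Tm.val]
      rw [h]
      exact AddSubgroup.subset_closure (single_mem hn (vf_nonneg t) w)

theorem mem_VV {d : Fn} (hd : d ∈ VV) : ∃ n, d ∈ V n := by
  unfold VV at hd
  induction hd using AddSubgroup.closure_induction with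
  | mem a ha =>
    obtain ⟨t, ht, rfl⟩ := ha
    exact vf_mem t ht
  | zero => exact ⟨0, (V 0).zero_mem⟩
  | add x y _ _ hx hy =>
    obtain ⟨n, hn⟩ := hx
    obtain ⟨m, hm⟩ := hy
    exact ⟨max n m, (V _).add_mem (V_mono (le_max_left _ _) hn) (V_mono (le_max_right _ _) hm)⟩
  | neg x _ hx =>
    obtain ⟨n, hn⟩ := hx
    exact ⟨n, (V n).neg_mem hn⟩

end GrC

theorem tame_VV : Tame VV := by
  constructor
  · intro d hd h0
    obtain ⟨n, hn⟩ := GrC.mem_VV hd
    exact (GrC.tame_V n).sgn d hn h0
  · intro d hd d' hd' h0 h0'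
    obtain ⟨n, hn⟩ := GrC.mem_VV hd
    obtain ⟨m, hm⟩ := GrC.mem_VV hd'
    exact (GrC.tame_V (max n m)).cmp d (GrC.V_mono (le_max_left _ _) hn) d'
      (GrC.V_mono (le_max_right _ _) hm) h0 h0'

theorem vf_mem_VV {t : Tm} (ht : VB t) : vf t ∈ VV :=
  AddSubgroup.subset_closure ⟨t, ht, rfl⟩

end Pool.Agent.TW
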