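import Pool.Agent.H.MP_b2d7dd_lc.TW.Fn
import Pool.Agent.H.MP_b2d7dd_lc.TI.Terms

/-!
# Module Rep: terms as sums of monomials

A monomial is given by the finitely supported family `g` of the exponent functions of the variables;
`rep t` = the coefficients of the monomials in `t` (the exponents of the powers in `t` are taken as
functions, they are not expanded). `At A t`: all pairs (base, exponent function) of the powers and
variables in `t` (outside of the exponents) are in `A`; a variable `w` counts as `(w, 1)`.
`hv χ t` = the value of `t` if the power with base `w` and exponent function `f` has the value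
`χ w f` (the powers inside the exponents are not looked at).

`hv_rep`: induction on `t`; for a product, all the exponents in the support are in `S` (sums of
second components of elements of `A`, cf. `rep_supp`), so that `χ` is multiplicative on them.
`rep_bound`: the sum of all coefficients is at most `2 ^ sz` (it is multiplicative), and they are
not negative. `rep_supp`: the support of a product consists of sums.
-/

namespace Pool.Agent.TW

open Pool.Agent.TI Finset

/-- The name of a base. -/
def nmB : Tm → List Bool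
  | .var w => w
  | _ => []

/-- The coefficients of the monomials. -/
noncomputable def rep : Tm → (List Bool →₀ Fn) →₀ ℤ
  | .one => Finsupp.single 0 1
  | .var w => Finsupp.single (Finsupp.single w 1) 1
  | .add s t => rep s + rep t
  | .mul s t => (rep s).sum fun g c => (rep t).sum fun g' c' => Finsupp.single (g + g') (c * c')
  | .pow b t => Finsupp.single (Finsupp.single (nmB b) (vf t)) 1

/-- The pairs (base, exponent function) are in `A`. -/
def At (A : Set (List Bool × Fn)) : Tm → Prop
  | .one => True
  | .var w => (w, 1) ∈ A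
  | .add s t => At A s ∧ At A t
  | .mul s t => At A s ∧ At A t
  | .pow b t => (nmB b, vf t) ∈ A

/-- The value for given values of the powers. -/
def hv {K : Type} [CommRing K] (χ : List Bool → Fn → K) : Tm → K
  | .one => 1
  | .var w => χ w 1
  | .add s t => hv χ s + hv χ t
  | .mul s t => hv χ s * hv χ t
  | .pow b t => χ (nmB b) (vf t)

/-- The values of the powers are multiplicative for exponents in `S`. -/
structure Chr {K : Type} [CommRing K] (S : AddSubgroup Fn) (χ : List Bool → Fn → K) : Prop where
  zero : ∀ w, χ w 0 = 1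
  add : ∀ w, ∀ f ∈ S, ∀ g ∈ S, χ w (f + g) = χ w f * χ w g

theorem At.mono {A A' : Set (List Bool × Fn)} (h : A ⊆ A') {t : Tm} (ht : At A t) : At A' t := by
  induction t with
  | one => trivial
  | var w => exact h ht
  | add s t ihs iht => exact ⟨ihs ht.1, iht ht.2⟩
  | mul s t ihs iht => exact ⟨ihs ht.1, iht ht.2⟩
  | pow b t _ _ => exact h ht

private theorem Rep_single {g g' : List Bool →₀ Fn} {c : ℤ}
    (h : g ∈ (Finsupp.single g' c).support) : g = g' := by
  have h1 := Finsupp.support_single_subset h
  rwa [Finset.mem_singleton] at h1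

private theorem Rep_mul_supp {s t : Tm} {g : List Bool →₀ Fn}
    (h : g ∈ (rep (.mul s t)).support) :
    ∃ a ∈ (rep s).support, ∃ b ∈ (rep t).support, g = a + b := by
  classical
  have h1 : g ∈ ((rep s).sum fun g c => (rep t).sum fun g' c' =>
      Finsupp.single (g + g') (c * c')).support := h
  have h2 := Finsupp.support_sum h1
  rw [Finset.mem_biUnion] at h2
  obtain ⟨a, ha, h3⟩ := h2
  have h4 := Finsupp.support_sum h3
  rw [Finset.mem_biUnion] at h4
  obtain ⟨b, hb, h5⟩ := h4
  exact ⟨a, ha, b, hb, Rep_single h5⟩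

theorem rep_supp {A : Set (List Bool × Fn)} {t : Tm} (h : At A t) :
    ∀ g ∈ (rep t).support, ∃ l : List (List Bool × Fn), l.length ≤ t.sz ∧ (∀ p ∈ l, p ∈ A) ∧
      g = (l.map fun p => Finsupp.single p.1 p.2).sum := by
  classical
  induction t with
  | one =>
    intro g hg
    exact ⟨[], Nat.zero_le _, by simp, by simpa using Rep_single (c := 1) hg⟩
  | var w =>
    intro g hg
    refine ⟨[(w, 1)], le_refl 1, ?_, by simpa using Rep_single (c := 1) hg⟩
    intro p hp
    rw [List.mem_singleton] at hp
    rw [hp]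
    exact h
  | add s t ihs iht =>
    intro g hg
    have hg' : g ∈ (rep s + rep t).support := hg
    rcases Finset.mem_union.1 (Finsupp.support_add hg') with h1 | h1
    · obtain ⟨l, hl, hA, e⟩ := ihs h.1 g h1
      exact ⟨l, hl.trans (by simp only [Tm.sz]; omega), hA, e⟩
    · obtain ⟨l, hl, hA, e⟩ := iht h.2 g h1
      exact ⟨l, hl.trans (by simp only [Tm.sz]; omega), hA, e⟩
  | mul s t ihs iht =>
    intro g hg
    obtain ⟨a, ha, b, hb, e⟩ := Rep_mul_supp hg
    obtain ⟨l, hl, hA, e1⟩ := ihs h.1 a ha
    obtain ⟨l', hl', hA', e2⟩ := iht h.2 b hb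
    refine ⟨l ++ l', ?_, ?_, ?_⟩
    · rw [List.length_append]
      simp only [Tm.sz]
      omega
    · intro p hp
      rcases List.mem_append.1 hp with hp | hp
      · exact hA p hp
      · exact hA' p hp
    · rw [List.map_append, List.sum_append, ← e1, ← e2, e]
  | pow b t _ _ =>
    intro g hg
    refine ⟨[(nmB b, vf t)], ?_, ?_, by simpa using Rep_single (c := 1) hg⟩
    · simp only [Tm.sz, List.length_singleton]
      omega
    · intro p hp
      rw [List.mem_singleton] at hp
      rw [hp]
      exact h

theorem rep_mem {S : AddSubgroup Fn} {t : Tm} (h : At {p | p.2 ∈ S} t) :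
    ∀ g ∈ (rep t).support, ∀ w, g w ∈ S := by
  classical
  intro g hg w
  obtain ⟨l, -, hA, e⟩ := rep_supp h g hg
  rw [e]
  clear e hg
  induction l with
  | nil =>
    rw [List.map_nil, List.sum_nil, Finsupp.zero_apply]
    exact S.zero_mem
  | cons p l ih =>
    rw [List.map_cons, List.sum_cons, Finsupp.add_apply]
    refine S.add_mem ?_ (ih fun q hq => hA q (List.mem_cons_of_mem _ hq))
    have h1 : p.2 ∈ S := hA p List.mem_cons_self
    rw [Finsupp.single_apply]
    split_ifs
    · exact h1
    · exact S.zero_mem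

/-- the sum of the coefficients -/
private noncomputable def Rep_tot (f : (List Bool →₀ Fn) →₀ ℤ) : ℤ := f.sum fun _ c => c

private theorem Rep_tot_single (g : List Bool →₀ Fn) (c : ℤ) :
    Rep_tot (Finsupp.single g c) = c := Finsupp.sum_single_index rfl

private theorem Rep_tot_add (f g : (List Bool →₀ Fn) →₀ ℤ) :
    Rep_tot (f + g) = Rep_tot f + Rep_tot g :=
  Finsupp.sum_add_index' (fun _ => rfl) (fun _ _ _ => rfl)

private theorem Rep_tot_mul (s t : Tm) :
    Rep_tot (rep (.mul s t)) = Rep_tot (rep s) * Rep_tot (rep t) := by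
  have h1 : Rep_tot (rep (.mul s t)) = ((rep s).sum fun g c => (rep t).sum fun g' c' =>
      Finsupp.single (g + g') (c * c')).sum fun _ c => c := rfl
  rw [h1, Finsupp.sum_sum_index (fun _ => rfl) (fun _ _ _ => rfl)]
  have h2 : ∀ (g : List Bool →₀ Fn) (c : ℤ), ((rep t).sum fun g' c' =>
      Finsupp.single (g + g') (c * c')).sum (fun _ c => c) = c * Rep_tot (rep t) := by
    intro g c
    rw [Finsupp.sum_sum_index (fun _ => rfl) (fun _ _ _ => rfl)]
    have h3 : ∀ (g' : List Bool →₀ Fn) (c' : ℤ),
        (Finsupp.single (g + g') (c * c')).sum (fun _ c => c) = c * c' :=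
      fun g' c' => Finsupp.sum_single_index rfl
    simp only [h3]
    unfold Rep_tot
    rw [Finsupp.mul_sum]
  simp only [h2]
  unfold Rep_tot
  rw [Finsupp.sum_mul]

private theorem Rep_nonneg (t : Tm) (g : List Bool →₀ Fn) : 0 ≤ rep t g := by
  classical
  have hs : ∀ (g' : List Bool →₀ Fn) (c : ℤ), 0 ≤ c → 0 ≤ Finsupp.single g' c g := by
    intro g' c hc
    rw [Finsupp.single_apply]
    split_ifs
    · exact hc
    · exact le_refl 0
  induction t generalizing g with
  | one => exact hs _ _ zero_le_one
  | var w => exact hs _ _ zero_le_one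
  | add s t ihs iht =>
    have h1 : rep (.add s t) g = rep s g + rep t g := rfl
    rw [h1]
    exact add_nonneg (ihs g hs) (iht g hs)
  | mul s t ihs iht =>
    have h1 : rep (.mul s t) g = ((rep s).sum fun g c => (rep t).sum fun g' c' =>
      Finsupp.single (g + g') (c * c')) g := rfl
    rw [h1, Finsupp.sum_apply]
    refine Finset.sum_nonneg fun a _ => ?_
    change 0 ≤ ((rep t).sum fun g' c' => Finsupp.single (a + g') (rep s a * c')) g
    rw [Finsupp.sum_apply]
    refine Finset.sum_nonneg fun b _ => ?_
    refine hs _ _ (mul_nonneg (ihs a ?_) (iht b ?_))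
    · intro g' c hc
      rw [Finsupp.single_apply]
      split_ifs
      · exact hc
      · exact le_refl 0
    · intro g' c hc
      rw [Finsupp.single_apply]
      split_ifs
      · exact hc
      · exact le_refl 0
  | pow b t _ _ => exact hs _ _ zero_le_one

private theorem Rep_tot_le (t : Tm) : Rep_tot (rep t) ≤ 2 ^ t.sz ∧ 0 ≤ Rep_tot (rep t) := by
  have hnn : ∀ t : Tm, 0 ≤ Rep_tot (rep t) := fun t => Finset.sum_nonneg fun g _ => Rep_nonneg t g
  refine ⟨?_, hnn t⟩
  induction t with
  | one =>
    have h1 : Rep_tot (rep .one) = 1 := Rep_tot_single _ _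
    rw [h1]
    norm_num [Tm.sz]
  | var w =>
    have h1 : Rep_tot (rep (.var w)) = 1 := Rep_tot_single _ _
    rw [h1]
    norm_num [Tm.sz]
  | add s t ihs iht =>
    have h1 : Rep_tot (rep (.add s t)) = Rep_tot (rep s) + Rep_tot (rep t) := Rep_tot_add _ _
    have h2 : (2 : ℤ) ^ s.sz ≤ 2 ^ (s.sz + t.sz) := pow_le_pow_right₀ (by norm_num) (by omega)
    have h3 : (2 : ℤ) ^ t.sz ≤ 2 ^ (s.sz + t.sz) := pow_le_pow_right₀ (by norm_num) (by omega)
    have h4 : (2 : ℤ) ^ (Tm.add s t).sz = 2 * 2 ^ (s.sz + t.sz) := by
      simp only [Tm.sz]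
      rw [pow_succ]
      ring
    rw [h1, h4]
    linarith
  | mul s t ihs iht =>
    have h2 : Rep_tot (rep s) * Rep_tot (rep t) ≤ 2 ^ s.sz * 2 ^ t.sz :=
      mul_le_mul ihs iht (hnn t) (by positivity)
    have h3 : (2 : ℤ) ^ (Tm.mul s t).sz = 2 * (2 ^ s.sz * 2 ^ t.sz) := by
      simp only [Tm.sz]
      rw [pow_succ, pow_add]
      ring
    have h4 : (0 : ℤ) ≤ 2 ^ s.sz * 2 ^ t.sz := by positivity
    rw [Rep_tot_mul, h3]
    linarith
  | pow b t _ _ =>
    have h1 : Rep_tot (rep (.pow b t)) = 1 := Rep_tot_single _ _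
    rw [h1]
    exact one_le_pow₀ (by norm_num)

theorem rep_bound (t : Tm) (g : List Bool →₀ Fn) : 0 ≤ rep t g ∧ rep t g ≤ 2 ^ t.sz := by
  refine ⟨Rep_nonneg t g, ?_⟩
  have h1 := Rep_tot_le t
  by_cases hg : g ∈ (rep t).support
  · refine le_trans ?_ h1.1
    exact Finset.single_le_sum (f := fun g => rep t g) (fun a _ => Rep_nonneg t a) hg
  · rw [Finsupp.notMem_support_iff] at hg
    rw [hg]
    positivity

private theorem Rep_prod_add {K : Type} [CommRing K] {S : AddSubgroup Fn}
    {χ : List Bool → Fn → K} (hχ : Chr S χ) {g g' : List Bool →₀ Fn}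
    (hg : ∀ w, g w ∈ S) (hg' : ∀ w, g' w ∈ S) :
    (g + g').prod χ = g.prod χ * g'.prod χ := by
  classical
  rw [Finsupp.prod_of_support_subset (g + g') (s := g.support ∪ g'.support) Finsupp.support_add χ
      (fun i _ => hχ.zero i),
    Finsupp.prod_of_support_subset g (s := g.support ∪ g'.support) Finset.subset_union_left χ
      (fun i _ => hχ.zero i),
    Finsupp.prod_of_support_subset g' (s := g.support ∪ g'.support) Finset.subset_union_right χ
      (fun i _ => hχ.zero i), ← Finset.prod_mul_distrib]
  refine Finset.prod_congr rfl fun w _ => ?_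
  rw [Finsupp.add_apply]
  exact hχ.add w _ (hg w) _ (hg' w)

theorem hv_rep {K : Type} [CommRing K] {S : AddSubgroup Fn} {χ : List Bool → Fn → K}
    (hχ : Chr S χ) {t : Tm} (ht : At {p | p.2 ∈ S} t) :
    hv χ t = (rep t).sum fun g c => (c : K) * g.prod χ := by
  classical
  have h0 : ∀ g : List Bool →₀ Fn, ((0 : ℤ) : K) * g.prod χ = 0 := fun g => by
    rw [Int.cast_zero, zero_mul]
  have ha : ∀ (g : List Bool →₀ Fn) (c c' : ℤ),
      ((c + c' : ℤ) : K) * g.prod χ = (c : K) * g.prod χ + (c' : K) * g.prod χ :=
    fun g c c' => by rw [Int.cast_add, add_mul]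
  have hsg : ∀ (w : List Bool) (f : Fn),
      (Finsupp.single (Finsupp.single w f) (1 : ℤ)).sum (fun g c => (c : K) * g.prod χ) = χ w f := by
    intro w f
    rw [Finsupp.sum_single_index (h0 _), Int.cast_one, one_mul,
      Finsupp.prod_single_index (hχ.zero w)]
  induction t with
  | one =>
    change (1 : K) = (Finsupp.single (0 : List Bool →₀ Fn) (1 : ℤ)).sum _
    rw [Finsupp.sum_single_index (h0 _), Int.cast_one, one_mul, Finsupp.prod_zero_index]
  | var w => exact (hsg w 1).symm
  | add s t ihs iht =>
    change hv χ s + hv χ t = (rep s + rep t).sum _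
    rw [Finsupp.sum_add_index' h0 ha, ihs ht.1, iht ht.2]
  | mul s t ihs iht =>
    change hv χ s * hv χ t = ((rep s).sum fun g c => (rep t).sum fun g' c' =>
      Finsupp.single (g + g') (c * c')).sum _
    rw [Finsupp.sum_sum_index h0 ha, ihs ht.1, iht ht.2]
    rw [Finsupp.sum_mul]
    refine Finset.sum_congr rfl fun g hg => ?_
    change ((rep s g : ℤ) : K) * g.prod χ * (rep t).sum (fun g c => (c : K) * g.prod χ) =
      ((rep t).sum fun g' c' => Finsupp.single (g + g') (rep s g * c')).sum
        (fun g c => (c : K) * g.prod χ)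
    rw [Finsupp.sum_sum_index h0 ha, Finsupp.mul_sum]
    refine Finset.sum_congr rfl fun g' hg' => ?_
    change ((rep s g : ℤ) : K) * g.prod χ * (((rep t g' : ℤ) : K) * g'.prod χ) =
      (Finsupp.single (g + g') (rep s g * rep t g')).sum (fun g c => (c : K) * g.prod χ)
    rw [Finsupp.sum_single_index (h0 _), Rep_prod_add hχ (rep_mem ht.1 g hg) (rep_mem ht.2 g' hg'),
      Int.cast_mul]
    ring
  | pow b t _ _ => exact (hsg (nmB b) (vf t)).symm

end Pool.Agent.TW
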