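import Pool.Agent.H.MP_b2d7dd_lc.TW.GrA

/-!
# Module GrI: monomials are linearly independent

On the path the monomial with exponents `g` (integers) has the value `ta p ^ lg g p` (`zpow`). For
two different families `g ≠ g'` apply `lg_sign` to `g - g'`: eventually `lg g' p + 1 ≤ lg g p` or
the converse (integers), so eventually `ta p * m' ≤ m` or eventually `ta p * m ≤ m'`. Suppose that
some `c g ≠ 0`; choose among the `g` with `c g ≠ 0` the one which dominates the others; for large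
`t` (for fixed `s`) the sum of the other terms is at most half of this one in absolute value, a
contradiction at `x = pt p`.
-/

namespace Pool.Agent.TW

open Filter

/-- the value of a monomial on the path -/
theorem GrI_val (g : List Bool →₀ Fn) (p : ℕ × ℕ) :
    (g.prod fun w f => ((pt p).1 w : ℚ) ^ (f (pt p))) = (ta p : ℚ) ^ (lg g p) := by
  have h0 : (ta p : ℚ) ≠ 0 := by
    unfold ta
    positivity
  unfold lg Finsupp.prod Finsupp.sum
  rw [Finset.prod_congr rfl (g := fun w => (ta p : ℚ) ^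
    (g w (pt p) * (si p : ℤ) ^ Encodable.encode w))]
  · induction g.support using Finset.induction_on with
    | empty => simp
    | insert a S ha ih => rw [Finset.prod_insert ha, Finset.sum_insert ha, zpow_add₀ h0, ih]
  · intro w _
    show (((ta p ^ (si p ^ Encodable.encode w) : ℕ)) : ℚ) ^ (g w (pt p)) = _
    rw [Nat.cast_pow, ← zpow_natCast, ← zpow_mul]
    congr 1
    push_cast
    ring

theorem GrI_sub (g g' : List Bool →₀ Fn) (p : ℕ × ℕ) : lg (g - g') p = lg g p - lg g' p := by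
  unfold lg
  rw [Finsupp.sum_sub_index]
  intro w a b
  show (a - b) (pt p) * _ = _
  rw [Pi.sub_apply]
  ring

theorem lin_ind {V : AddSubgroup Fn} (hV : Tame V) (s : Finset (List Bool →₀ Fn))
    (hs : ∀ g ∈ s, ∀ w, g w ∈ V) (c : (List Bool →₀ Fn) → ℤ)
    (h : ∀ x : X, ∑ g ∈ s, (c g : ℚ) * (g.prod fun w f => (x.1 w : ℚ) ^ (f x)) = 0) :
    ∀ g ∈ s, c g = 0 := by
  classical
  by_contra hcon
  push Not at hcon
  obtain ⟨g1, hg1, hc1⟩ := hcon
  set S := s.filter fun g => c g ≠ 0 with hS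
  have hSne : S.Nonempty := ⟨g1, by rw [hS, Finset.mem_filter]; exact ⟨hg1, hc1⟩⟩
  have hSs : ∀ g ∈ S, g ∈ s ∧ c g ≠ 0 := fun g hg => by
    rw [hS, Finset.mem_filter] at hg
    exact hg
  let R : (List Bool →₀ Fn) → (List Bool →₀ Fn) → Prop := fun g g' =>
    ∀ᶠ p in F, lg g p < lg g' p
  have htot : ∀ g ∈ S, ∀ g' ∈ S, g ≠ g' → R g g' ∨ R g' g := by
    intro g hg g' hg' hne
    have hd : ∀ w, (g - g') w ∈ V := fun w => by
      rw [Finsupp.sub_apply]
      exact V.sub_mem (hs g (hSs g hg).1 w) (hs g' (hSs g' hg').1 w)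
    rcases lg_sign hV hd (sub_ne_zero.2 hne) with h1 | h1
    · right
      filter_upwards [h1] with p hp
      rw [GrI_sub] at hp
      linarith
    · left
      filter_upwards [h1] with p hp
      rw [GrI_sub] at hp
      linarith
  have hall : ∀ᶠ p in F, ∀ g ∈ S, ∀ g' ∈ S, R g g' → lg g p < lg g' p := by
    rw [Filter.eventually_all_finset]
    intro g _
    rw [Filter.eventually_all_finset]
    intro g' _
    by_cases hR : R g g'
    · filter_upwards [hR] with p hp _
      exact hp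
    · exact Filter.Eventually.of_forall fun p hh => absurd hh hR
  obtain ⟨p0, hp0⟩ := hall.exists
  obtain ⟨g0, hg0, hmax⟩ := Finset.exists_max_image S (fun g => lg g p0) hSne
  have hdom : ∀ g ∈ S.erase g0, R g g0 := by
    intro g hg
    have hgS : g ∈ S := Finset.mem_of_mem_erase hg
    rcases htot g hgS g0 hg0 (Finset.ne_of_mem_erase hg) with h1 | h1
    · exact h1
    · have h2 := hp0 g0 hg0 g hgS h1
      have h3 := hmax g hgS
      exact absurd h2 (not_lt.2 h3)
  have hdom' : ∀ᶠ p in F, ∀ g ∈ S.erase g0, lg g p < lg g0 p := by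
    rw [Filter.eventually_all_finset]
    exact hdom
  set M : ℤ := ∑ g ∈ S.erase g0, |c g| with hM
  obtain ⟨p, hp1, hp2⟩ := (hdom'.and (GrA_ta_ge fun _ => M + 1)).exists
  have hta : (0 : ℚ) < (ta p : ℚ) := by
    unfold ta
    positivity
  have hta1 : (1 : ℚ) ≤ (ta p : ℚ) := by
    have : 1 ≤ ta p := by unfold ta; omega
    exact_mod_cast this
  have hsum := h (pt p)
  have hsum2 : ∑ g ∈ S, (c g : ℚ) * (ta p : ℚ) ^ (lg g p) = 0 := by
    rw [← hsum, hS, Finset.sum_filter]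
    refine Finset.sum_congr rfl fun g _ => ?_
    by_cases hc : c g = 0
    · simp [hc]
    · rw [if_pos hc, GrI_val]
  rw [← Finset.add_sum_erase _ _ hg0] at hsum2
  have hb : ∀ g ∈ S.erase g0, |(c g : ℚ) * (ta p : ℚ) ^ (lg g p)| ≤
      (|c g| : ℚ) * (ta p : ℚ) ^ (lg g0 p - 1) := by
    intro g hg
    rw [abs_mul, abs_of_pos (zpow_pos hta _)]
    refine mul_le_mul_of_nonneg_left ?_ (abs_nonneg _)
    refine zpow_le_zpow_right₀ hta1 ?_
    have := hp1 g hg
    omega
  have hle : |∑ g ∈ S.erase g0, (c g : ℚ) * (ta p : ℚ) ^ (lg g p)| ≤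
      (M : ℚ) * (ta p : ℚ) ^ (lg g0 p - 1) := by
    refine (Finset.abs_sum_le_sum_abs _ _).trans ((Finset.sum_le_sum hb).trans ?_)
    rw [← Finset.sum_mul, hM]
    push_cast
    exact le_refl _
  have hc0 : c g0 ≠ 0 := (hSs g0 hg0).2
  have hc0' : (1 : ℚ) ≤ |(c g0 : ℚ)| := by
    have : (1 : ℤ) ≤ |c g0| := Int.one_le_abs hc0
    exact_mod_cast this
  have heq : |(c g0 : ℚ) * (ta p : ℚ) ^ (lg g0 p)| ≤ (M : ℚ) * (ta p : ℚ) ^ (lg g0 p - 1) := by
    have : (c g0 : ℚ) * (ta p : ℚ) ^ (lg g0 p) =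
        -∑ g ∈ S.erase g0, (c g : ℚ) * (ta p : ℚ) ^ (lg g p) := by linarith
    rw [this, abs_neg]
    exact hle
  rw [abs_mul, abs_of_pos (zpow_pos hta _)] at heq
  have hz : (ta p : ℚ) ^ (lg g0 p) = (ta p : ℚ) * (ta p : ℚ) ^ (lg g0 p - 1) := by
    rw [zpow_sub_one₀ hta.ne']
    field_simp
  rw [hz] at heq
  have hzp : (0 : ℚ) < (ta p : ℚ) ^ (lg g0 p - 1) := zpow_pos hta _
  have h4 : |(c g0 : ℚ)| * (ta p : ℚ) ≤ (M : ℚ) := by
    refine le_of_mul_le_mul_right ?_ hzp
    linarith [heq, mul_assoc (|(c g0 : ℚ)|) (ta p : ℚ) ((ta p : ℚ) ^ (lg g0 p - 1))]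
  have h5 : ((M : ℤ) : ℚ) + 1 ≤ (ta p : ℚ) := by
    have : M + 1 ≤ (ta p : ℤ) := hp2
    exact_mod_cast this
  have h6 : (ta p : ℚ) ≤ |(c g0 : ℚ)| * (ta p : ℚ) := by
    nlinarith
  linarith

end Pool.Agent.TW
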