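import Pool.Agent.H.MP_b2d7dd_lc.TW.Snd
import Pool.Agent.H.MP_b2d7dd_lc.TI.Read

/-!
# Module Acc: the test on strings

Compare TE/Top (`accept_code`, `accept_imp`). `accept_imp`: `tokz_some`, `shape_iff`, `Stk.toks`,
`Tm.code_eq`. `accept_valid`: `accept_code`, `test0_valid`, `Stk.pair`.
-/

namespace Pool.Agent.TW

open Pool.Agent.TI (Tm Tok names tokz Valid prob CoRP pairCode)
open Pool.Agent.TE (bl)
open Pool.Agent.H.MP_5be563_lc.PT

private theorem Acc_can (s t : Tm) : ∀ q ∈ s.toks ++ t.toks, Pool.Agent.TI.Can q := by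
  intro q hq
  rcases List.mem_append.1 hq with h | h
  · exact s.can_toks q h
  · exact t.can_toks q h

private theorem Acc_tokz {s t : Tm} {x : List Bool} (hx : x = s.code ++ t.code) :
    tokz x = some (s.toks ++ t.toks) := by
  have hT : x = (s.toks ++ t.toks).flatMap Pool.Agent.TI.tokCode := by
    rw [hx, s.code_eq, t.code_eq, List.flatMap_append]
  rw [hT]
  exact Pool.Agent.TI.tokz_toks (Acc_can s t)

private theorem Acc_all {n : ℕ} {T : List Tok} {r : List Bool} (h : shape T = true) :
    acceptT n T r = true ↔ ∀ j < KK n, test1 n T (bl (AA n) r j) = true := by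
  unfold acceptT
  rw [h, Bool.true_and, List.all_eq_true]
  simp only [List.mem_range]

/-- The test on the string of an identity. -/
theorem accept_code {s t : Tm} (hs : VB s) (ht : VB t) {x : List Bool}
    (hx : x = s.code ++ t.code) (r : List Bool) :
    accept x r = true ↔
      ∀ j < KK x.length, test1 x.length (s.toks ++ t.toks) (bl (AA x.length) r j) = true := by
  obtain ⟨U, hU⟩ := Stk.pair hs ht
  have hsh : shape (s.toks ++ t.toks) = true := (shape_iff (Acc_can s t)).2 ⟨s, t, U, hU⟩
  have hacc : accept x r = acceptT x.length (s.toks ++ t.toks) r := by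
    unfold accept
    rw [Acc_tokz hx]
  rw [hacc, Acc_all hsh]

theorem accept_imp {x r : List Bool} (h : accept x r = true) :
    ∃ s t : Tm, VB s ∧ VB t ∧ x = s.code ++ t.code := by
  rcases htk : tokz x with _ | T
  · unfold accept at h
    rw [htk] at h
    exact absurd h Bool.false_ne_true
  obtain ⟨hx, hcan⟩ := Pool.Agent.TI.tokz_some htk
  have hacc : accept x r = acceptT x.length T r := by
    unfold accept
    rw [htk]
  rw [hacc] at h
  have hsh : shape T = true := by
    unfold acceptT at h
    exact (Bool.and_eq_true_iff.1 h).1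
  obtain ⟨s, t, U, hU⟩ := (shape_iff hcan).1 hsh
  obtain ⟨h1, h2⟩ := hU.toks
  refine ⟨s, t, h2 s (by simp), h2 t (by simp), ?_⟩
  rw [hx, h1, s.code_eq, t.code_eq]
  simp only [List.flatMap_cons, List.flatMap_nil, List.append_nil, List.flatMap_append]

theorem accept_valid {x : List Bool} (h : x ∈ identitiesVB) (r : List Bool) :
    accept x r = true := by
  obtain ⟨s, t, hs, ht, hv, hx⟩ := h
  rw [accept_code hs ht hx]
  intro j _
  obtain ⟨U, hU⟩ := Stk.pair hs ht
  have hn : (s.toks ++ t.toks).length ≤ x.length := by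
    have h3 := s.sz_le_code
    have h4 := t.sz_le_code
    rw [List.length_append, Tm.length_toks, Tm.length_toks, hx, List.length_append]
    omega
  exact test0_valid hU hn hv _ _

end Pool.Agent.TW
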