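import Pool.Agent.H.MP_b2d7dd_lc.TW.Stk
import Pool.Agent.H.MP_b2d7dd_lc.TW.Rep2

/-!
# Module Chi: homomorphisms from integer coordinates

`ν` = a list of rows of integers. `Coh U ν`: every linear relation between the exponent functions
`ev U a` holds for every row. `Fai U ν`: conversely, a linear relation which holds for all the rows
holds for the functions. `Sp U` = the group generated by the exponent functions. `chi W ν U w f` for
`f = ∑ k_a ev U a` is `∏_b (W w b) ^ (∑ k_a ν_b a)`; by `Coh` this does not depend on `k`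
(`chi_eq`: the difference of two representations is a relation).
`row_rel`: `hv_rel` for the terms `tt (U.getD a)`, which are `1` or `U'.getD (a - 2)`
(`Stk.tt_eq`, `Stk.two_le`, `Stk.tail`), so that `Stk.atoms` applies to `T`, `U'`.
-/

namespace Pool.Agent.TW

open Pool.Agent.TI Finset

/-- Every relation between the exponent functions holds for the rows. -/
def Coh (U : List Tm) (ν : List (ℕ → ℤ)) : Prop :=
  ∀ k : ℕ → ℤ, ∑ a ∈ range U.length, k a • ev U a = 0 →
    ∀ row ∈ ν, ∑ a ∈ range U.length, k a * row a = 0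

/-- Every relation which holds for the rows is a relation between the exponent functions. -/
def Fai (U : List Tm) (ν : List (ℕ → ℤ)) : Prop :=
  ∀ k : ℕ → ℤ, (∀ row ∈ ν, ∑ a ∈ range U.length, k a * row a = 0) →
    ∑ a ∈ range U.length, k a • ev U a = 0

/-- The group generated by the exponent functions. -/
def Sp (U : List Tm) : AddSubgroup Fn where
  carrier := {f | ∃ k : ℕ → ℤ, f = ∑ a ∈ range U.length, k a • ev U a}
  zero_mem' := ⟨0, by simp⟩
  add_mem' := by
    rintro f g ⟨k, rfl⟩ ⟨l, rfl⟩
    exact ⟨k + l, by simp [add_smul, Finset.sum_add_distrib]⟩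
  neg_mem' := by
    rintro f ⟨k, rfl⟩
    exact ⟨-k, by simp [neg_smul]⟩

open Classical in
/-- The value of the power with base `w` and exponent function `f`. -/
noncomputable def chi {K : Type} [CommRing K] (W : List Bool → ℕ → Kˣ) (ν : List (ℕ → ℤ))
    (U : List Tm) (w : List Bool) (f : Fn) : K :=
  if h : ∃ k : ℕ → ℤ, f = ∑ a ∈ range U.length, k a • ev U a then
    ↑(∏ b ∈ range ν.length, W w b ^ (∑ a ∈ range U.length, h.choose a * (ν.getD b 0) a))
  else 1

theorem chi_eq {K : Type} [CommRing K] (W : List Bool → ℕ → Kˣ) {ν : List (ℕ → ℤ)}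
    {U : List Tm} (hc : Coh U ν) (w : List Bool) (k : ℕ → ℤ) :
    chi W ν U w (∑ a ∈ range U.length, k a • ev U a) =
      ↑(∏ b ∈ range ν.length, W w b ^ (∑ a ∈ range U.length, k a * (ν.getD b 0) a)) := by
  have h : ∃ k' : ℕ → ℤ, ∑ a ∈ range U.length, k a • ev U a =
      ∑ a ∈ range U.length, k' a • ev U a := ⟨k, rfl⟩
  unfold chi
  rw [dif_pos h]
  have h1 : ∑ a ∈ range U.length, (h.choose a - k a) • ev U a = 0 := by
    have h2 := h.choose_spec
    simp only [sub_smul, Finset.sum_sub_distrib]
    rw [← h2, sub_self]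
  congr 1
  refine Finset.prod_congr rfl fun b hb => ?_
  have hrow : ν.getD b 0 ∈ ν := by
    rw [List.getD_eq_getElem _ _ (mem_range.1 hb)]
    exact List.getElem_mem _
  have h3 := hc (fun a => h.choose a - k a) h1 _ hrow
  simp only [sub_mul, Finset.sum_sub_distrib] at h3
  rw [sub_eq_zero.1 h3]

/-- An exponent function as a combination. -/
theorem Chi_single {U : List Tm} {a : ℕ} (ha : a < U.length) :
    ev U a = ∑ a' ∈ range U.length, (if a' = a then (1 : ℤ) else 0) • ev U a' := by
  rw [Finset.sum_eq_single_of_mem a (mem_range.2 ha)]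
  · rw [if_pos rfl, one_smul]
  · intro b _ hb
    rw [if_neg hb, zero_smul]

theorem chi_ev {K : Type} [CommRing K] (W : List Bool → ℕ → Kˣ) {ν : List (ℕ → ℤ)}
    {U : List Tm} (hc : Coh U ν) (w : List Bool) {a : ℕ} (ha : a < U.length) :
    chi W ν U w (ev U a) = ↑(∏ b ∈ range ν.length, W w b ^ ((ν.getD b 0) a)) := by
  rw [Chi_single ha, chi_eq W hc w fun a' => if a' = a then (1 : ℤ) else 0]
  congr 1
  refine Finset.prod_congr rfl fun b _ => ?_
  rw [Finset.sum_eq_single_of_mem a (mem_range.2 ha)]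
  · rw [if_pos rfl, one_mul]
  · intro b _ hb
    rw [if_neg hb, zero_mul]

theorem chi_chr {K : Type} [CommRing K] (W : List Bool → ℕ → Kˣ) {ν : List (ℕ → ℤ)}
    {U : List Tm} (hc : Coh U ν) : Chr (Sp U) (chi W ν U) where
  zero := fun w => by
    have h1 : (0 : Fn) = ∑ a ∈ range U.length, (0 : ℕ → ℤ) a • ev U a := by simp
    rw [h1, chi_eq W hc w (0 : ℕ → ℤ)]
    simp
  add := by
    rintro w f ⟨k, rfl⟩ g ⟨l, rfl⟩
    have h1 : ∑ a ∈ range U.length, k a • ev U a + ∑ a ∈ range U.length, l a • ev U a =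
        ∑ a ∈ range U.length, (fun a => k a + l a) a • ev U a := by
      simp only [add_smul, Finset.sum_add_distrib]
    rw [h1, chi_eq W hc w k, chi_eq W hc w l, chi_eq W hc w fun a => k a + l a, ← Units.val_mul,
      ← Finset.prod_mul_distrib]
    congr 1
    refine Finset.prod_congr rfl fun b _ => ?_
    rw [← zpow_add, ← Finset.sum_add_distrib]
    congr 1
    exact Finset.sum_congr rfl fun a _ => add_mul _ _ _

theorem ev_mem_Sp {U : List Tm} {a : ℕ} (ha : a < U.length) : ev U a ∈ Sp U :=
  ⟨_, Chi_single ha⟩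

/-- The atoms of the subterms are in the group. -/
theorem Stk.at_Sp {T : List Tok} {st U : List Tm} (h : Stk T st U) (a : ℕ) :
    At {p | p.2 ∈ Sp U} (U.getD a .one) :=
  At.mono (fun p hp => by
    obtain ⟨-, b, hb, h2⟩ := hp
    change p.2 ∈ Sp U
    rw [h2]
    exact ev_mem_Sp hb) (h.atoms a)

/-- The atoms of the exponents up to the next token are in the group. -/
theorem Stk.tt_at_Sp {q : Tok} {T : List Tok} {st U' : List Tm} {u : Tm}
    (h : Stk (q :: T) st (U' ++ [u])) (a : ℕ) :
    At {p | p.2 ∈ Sp U'} (tt ((U' ++ [u]).getD a .one)) := by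
  obtain ⟨st', U'', u', h', he⟩ := h.tail
  have hU : U' = U'' := (List.append_inj' he rfl).1
  have hlen := h.length
  rw [← hU] at h'
  have hlen' := h'.length
  by_cases ha : a < (q :: T).length
  · rw [h.tt_eq ha]
    split_ifs with h3
    · have h2 := h.two_le ha h3
      rw [List.length_cons] at ha
      rw [List.getD_append _ _ _ _ (by omega)]
      exact h'.at_Sp (a - 2)
    · trivial
  · rw [← hlen, not_lt] at ha
    rw [List.getD_eq_default _ _ ha]
    trivial

/-- The values of the exponents satisfy all relations. -/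
theorem row_rel {K : Type} [CommRing K] (W : List Bool → ℕ → Kˣ) {ν : List (ℕ → ℤ)}
    {q : Tok} {T : List Tok} {st U' : List Tm} {u : Tm} (h : Stk (q :: T) st (U' ++ [u]))
    (hc : Coh U' ν) (k : ℕ → ℤ)
    (hk : ∑ a ∈ range (U' ++ [u]).length, k a • ev (U' ++ [u]) a = 0) :
    ∑ a ∈ range (U' ++ [u]).length,
      (k a : K) * hv (chi W ν U') (tt ((U' ++ [u]).getD a .one)) = 0 :=
  hv_rel (chi_chr W hc) (range (U' ++ [u]).length) (fun a => tt ((U' ++ [u]).getD a .one))
    (fun a _ => (h.vb a).2) (fun a _ => h.tt_at_Sp a) k hk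

end Pool.Agent.TW
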