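import Pool.Agent.H.MP_b2d7dd_lc.TW.StgC

/-!
# Module Chn: the error probability of the stages

`tabF_append`: the table depends on the first `T.length` blocks of length `SS n` only.
`chain`: induction on `T`, `cnt_append` with `a = T.length * SS n`, `b = SS n` and
`A z = ¬ Fai U' (tabF z T)`, `stage_cnt`, `tabF_coh`, `tabF_bound`.
-/

namespace Pool.Agent.TW

open Pool.Agent.TI (Tm Tok names Valid)
open Pool.Agent.TE (bl)
open Pool.Agent.H.MP_5be563_lc.PT Finset

theorem tabF_append (n : ℕ) (e : List Bool) (N : List (List Bool)) (T : List Tok)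
    (x y : List Bool) (hx : T.length * SS n ≤ x.length) :
    tabF n e N (x ++ y) T = tabF n e N x T := by
  induction T with
  | nil => rfl
  | cons q T ih =>
    rw [List.length_cons, Nat.succ_mul] at hx
    have h1 : bl (SS n) (x ++ y) T.length = bl (SS n) x T.length := by
      unfold bl
      rw [List.drop_append_of_le_length (by omega),
        List.take_append_of_le_length (by rw [List.length_drop]; omega)]
    show nxt n e N (q :: T) (tabF n e N (x ++ y) T) (bl (SS n) (x ++ y) T.length) =
      nxt n e N (q :: T) (tabF n e N x T) (bl (SS n) x T.length)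
    rw [h1, ih (by omega)]

private theorem Chn_cnt_false {m : ℕ} {P : List Bool → Prop} (h : ∀ z, ¬ P z) : cnt m P = 0 := by
  unfold cnt
  have : IsEmpty {r : Fin m → Bool // P (List.ofFn r)} := ⟨fun r => h _ r.2⟩
  exact Nat.card_of_isEmpty

private theorem Chn_bl (w : ℕ) (k : ℕ) (x y : List Bool) (hx : x.length = k * w)
    (hy : y.length = w) : bl w (x ++ y) k = y := by
  unfold bl
  rw [List.drop_append_of_le_length (by omega), List.drop_of_length_le (by omega),
    List.nil_append, List.take_of_length_le (by omega)]

theorem chain {n : ℕ} {T : List Tok} {st U : List Tm} (h : Stk T st U) (hn : T.length ≤ n)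
    {e : List Bool} (he : 2 ^ vv n ≤ bval e) (he2 : bval e < 2 ^ (2 * vv n))
    (hp : (bval e + 2).Prime) {N : List (List Bool)} (hNT : ∀ w ∈ names T, w ∈ N)
    (hN : N.length ≤ n) :
    8 * (n + 1) * cnt (T.length * SS n) (fun z => ¬ Fai U ((tabF n e N z T).map irow)) ≤
      T.length * 2 ^ (T.length * SS n) := by
  induction T generalizing st U with
  | nil =>
    cases h
    rw [Chn_cnt_false, mul_zero]
    · exact Nat.zero_le _
    · intro z hz
      apply hz
      intro k _
      simp
  | cons q T ih =>
    obtain ⟨st', U', u, h', rfl⟩ := h.tail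
    rw [List.length_cons] at hn
    have hNT' : ∀ w ∈ names T, w ∈ N := by
      intro w hw
      apply hNT
      have h2 : names (q :: T) = names [q] ++ names T := Pool.Agent.TI.names_append [q] T
      rw [h2]
      exact List.mem_append_right _ hw
    have h1 := ih h' (by omega) hNT'
    have h2 := cnt_append (a := T.length * SS n) (b := SS n) (K := 8 * (n + 1)) (c := 1)
      (fun z => ¬ Fai (U' ++ [u]) ((tabF n e N z (q :: T)).map irow))
      (fun z => ¬ Fai U' ((tabF n e N z T).map irow)) (by
        intro x hx hA
        have hf : Fai U' ((tabF n e N x T).map irow) := not_not.1 hA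
        have hb := tabF_bound n e N T x
        have h3 := stage_cnt h (by rw [List.length_cons]; exact hn) he he2 hp hNT' hN
          (tabF_coh h' (by omega) he N x) hf hb.2 (hb.1.trans (by omega))
        rw [one_mul]
        refine le_trans (Nat.mul_le_mul_left _ (cnt_mono ?_)) h3
        intro y hy hP
        have h4 : tabF n e N (x ++ y) (q :: T) = nxt n e N (q :: T) (tabF n e N x T) y := by
          show nxt n e N (q :: T) (tabF n e N (x ++ y) T) (bl (SS n) (x ++ y) T.length) = _
          rw [Chn_bl (SS n) T.length x y hx hy, tabF_append n e N T x y (by omega)]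
        rw [h4] at hP
        exact hP)
    have h5 : (q :: T).length * SS n = T.length * SS n + SS n := by
      rw [List.length_cons, Nat.succ_mul]
    rw [h5]
    refine h2.trans ?_
    rw [List.length_cons, pow_add, one_mul, Nat.add_mul, one_mul]
    have h6 := Nat.mul_le_mul_right (2 ^ SS n) h1
    calc 8 * (n + 1) * (cnt (T.length * SS n)
            (fun z => ¬ Fai U' ((tabF n e N z T).map irow)) * 2 ^ SS n) +
          2 ^ (T.length * SS n) * 2 ^ SS n
        = 8 * (n + 1) * cnt (T.length * SS n)
            (fun z => ¬ Fai U' ((tabF n e N z T).map irow)) * 2 ^ SS n +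
          2 ^ (T.length * SS n) * 2 ^ SS n := by rw [mul_assoc (8 * (n + 1))]
      _ ≤ T.length * 2 ^ (T.length * SS n) * 2 ^ SS n +
          2 ^ (T.length * SS n) * 2 ^ SS n := Nat.add_le_add_right h6 _
      _ = _ := by rw [mul_assoc]

end Pool.Agent.TW
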