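import Pool.Agent.H.MP_b2d7dd_lc.TW.Chi

/-!
# Module Crd: coordinates

`crd ν U f b` = the coordinate number `b` of the function `f`: for `f = ∑ k_a ev U a` it is
`∑ k_a ν_b a` (`crd_eq`, by `Coh`). `chi_crd`: by definition.
`crd_bound`: for an element `g` of the support of `rep t`, `rep_supp` gives a list `l` of at most
`t.sz` pairs, all of them in `atoms T U`, with `g w = ∑ p.2` over the `p ∈ l` with `p.1 = w`.
`crd_inj`: `Fai` for the difference of the coefficients.
-/

namespace Pool.Agent.TW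

open Pool.Agent.TI Finset

open Classical in
/-- The coordinates of a function. -/
noncomputable def crd (ν : List (ℕ → ℤ)) (U : List Tm) (f : Fn) (b : ℕ) : ℤ :=
  if h : ∃ k : ℕ → ℤ, f = ∑ a ∈ range U.length, k a • ev U a then
    ∑ a ∈ range U.length, h.choose a * (ν.getD b 0) a
  else 0

theorem chi_crd {K : Type} [CommRing K] (W : List Bool → ℕ → Kˣ) (ν : List (ℕ → ℤ))
    (U : List Tm) (w : List Bool) (f : Fn) :
    chi W ν U w f = ↑(∏ b ∈ range ν.length, W w b ^ crd ν U f b) := by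
  unfold chi crd
  by_cases h : ∃ k : ℕ → ℤ, f = ∑ a ∈ range U.length, k a • ev U a
  · rw [dif_pos h]
    congr 1
    refine Finset.prod_congr rfl fun b _ => ?_
    rw [dif_pos h]
  · rw [dif_neg h]
    simp only [dif_neg h, zpow_zero, Finset.prod_const_one, Units.val_one]

theorem crd_eq {ν : List (ℕ → ℤ)} {U : List Tm} (hc : Coh U ν) (k : ℕ → ℤ) (b : ℕ) :
    crd ν U (∑ a ∈ range U.length, k a • ev U a) b =
      ∑ a ∈ range U.length, k a * (ν.getD b 0) a := by
  have h : ∃ k' : ℕ → ℤ, ∑ a ∈ range U.length, k a • ev U a =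
      ∑ a ∈ range U.length, k' a • ev U a := ⟨k, rfl⟩
  unfold crd
  rw [dif_pos h]
  rcases Nat.lt_or_ge b ν.length with hb | hb
  · have hrow : ν.getD b 0 ∈ ν := by
      rw [List.getD_eq_getElem _ _ hb]
      exact List.getElem_mem _
    have h1 : ∑ a ∈ range U.length, (h.choose a - k a) • ev U a = 0 := by
      have h2 := h.choose_spec
      simp only [sub_smul, Finset.sum_sub_distrib]
      rw [← h2, sub_self]
    have h3 := hc (fun a => h.choose a - k a) h1 _ hrow
    simp only [sub_mul, Finset.sum_sub_distrib] at h3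
    exact sub_eq_zero.1 h3
  · rw [List.getD_eq_default _ _ hb]
    simp

theorem crd_zero {ν : List (ℕ → ℤ)} {U : List Tm} (hc : Coh U ν) (b : ℕ) :
    crd ν U 0 b = 0 := by
  have h1 : (0 : Fn) = ∑ a ∈ range U.length, (0 : ℕ → ℤ) a • ev U a := by simp
  rw [h1, crd_eq hc (0 : ℕ → ℤ) b]
  simp

theorem crd_inj {ν : List (ℕ → ℤ)} {U : List Tm} (hc : Coh U ν) (hf : Fai U ν) {f f' : Fn}
    (h : f ∈ Sp U) (h' : f' ∈ Sp U) (he : ∀ b < ν.length, crd ν U f b = crd ν U f' b) :
    f = f' := by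
  obtain ⟨k, rfl⟩ := h
  obtain ⟨k', rfl⟩ := h'
  have h1 : ∑ a ∈ range U.length, (k a - k' a) • ev U a = 0 := by
    refine hf (fun a => k a - k' a) fun row hrow => ?_
    obtain ⟨b, hb, e⟩ := List.mem_iff_getElem.1 hrow
    have h2 := he b hb
    rw [crd_eq hc k b, crd_eq hc k' b, List.getD_eq_getElem _ _ hb, e] at h2
    simp only [sub_mul, Finset.sum_sub_distrib]
    rw [h2, sub_self]
  simp only [sub_smul, Finset.sum_sub_distrib] at h1
  exact sub_eq_zero.1 h1

/-- The coordinates are additive. -/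
private theorem Crd_add {ν : List (ℕ → ℤ)} {U : List Tm} (hc : Coh U ν) {f f' : Fn}
    (h : f ∈ Sp U) (h' : f' ∈ Sp U) (b : ℕ) :
    crd ν U (f + f') b = crd ν U f b + crd ν U f' b := by
  obtain ⟨k, rfl⟩ := h
  obtain ⟨l, rfl⟩ := h'
  have h1 : ∑ a ∈ range U.length, k a • ev U a + ∑ a ∈ range U.length, l a • ev U a =
      ∑ a ∈ range U.length, (fun a => k a + l a) a • ev U a := by
    simp only [add_smul, Finset.sum_add_distrib]
  rw [h1, crd_eq hc k b, crd_eq hc l b, crd_eq hc (fun a => k a + l a) b,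
    ← Finset.sum_add_distrib]
  exact Finset.sum_congr rfl fun a _ => add_mul _ _ _

/-- The coordinates of an exponent function. -/
private theorem Crd_ev {ν : List (ℕ → ℤ)} {U : List Tm} (hc : Coh U ν) {a : ℕ}
    (ha : a < U.length) (b : ℕ) : crd ν U (ev U a) b = (ν.getD b 0) a := by
  rw [Chi_single ha, crd_eq hc (fun a' => if a' = a then (1 : ℤ) else 0) b,
    Finset.sum_eq_single_of_mem a (mem_range.2 ha)]
  · rw [if_pos rfl, one_mul]
  · intro c _ hca
    rw [if_neg hca, zero_mul]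

private theorem Crd_ev_le {ν : List (ℕ → ℤ)} {U : List Tm} (hc : Coh U ν) {P : ℕ}
    (hP : ∀ row ∈ ν, ∀ a, |row a| ≤ P) {a : ℕ} (ha : a < U.length) (b : ℕ) :
    |crd ν U (ev U a) b| ≤ P := by
  rw [Crd_ev hc ha b]
  rcases Nat.lt_or_ge b ν.length with hb | hb
  · rw [List.getD_eq_getElem _ _ hb]
    exact hP _ (List.getElem_mem _) a
  · rw [List.getD_eq_default _ _ hb]
    simp

/-- The sums of the single monomials. -/
private theorem Crd_list {T : List Tok} {U : List Tm} (w : List Bool) :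
    ∀ l : List (List Bool × Fn), (∀ p ∈ l, p ∈ atoms T U) →
      (l.map fun p => Finsupp.single p.1 p.2).sum w ∈ Sp U ∧
      ((l.map fun p => Finsupp.single p.1 p.2).sum w ≠ 0 → w ∈ names T) := by
  classical
  intro l
  induction l with
  | nil =>
    intro _
    simp only [List.map_nil, List.sum_nil, Finsupp.coe_zero, Pi.zero_apply]
    exact ⟨zero_mem _, fun h => absurd rfl h⟩
  | cons p l ih =>
    intro hl
    obtain ⟨h1, h2⟩ := ih fun q hq => hl q (List.mem_cons_of_mem _ hq)
    obtain ⟨hp, a, ha, hpa⟩ := hl p List.mem_cons_self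
    rw [List.map_cons, List.sum_cons, Finsupp.add_apply]
    by_cases hw : p.1 = w
    · rw [Finsupp.single_apply, if_pos hw]
      refine ⟨add_mem ?_ h1, fun _ => ?_⟩
      · rw [hpa]
        exact ev_mem_Sp ha
      · rw [← hw]
        exact hp
    · rw [Finsupp.single_apply, if_neg hw, zero_add]
      exact ⟨h1, h2⟩

private theorem Crd_list_le {ν : List (ℕ → ℤ)} {T : List Tok} {U : List Tm} (hc : Coh U ν)
    {P : ℕ} (hP : ∀ row ∈ ν, ∀ a, |row a| ≤ P) (w : List Bool) (b : ℕ) :
    ∀ l : List (List Bool × Fn), (∀ p ∈ l, p ∈ atoms T U) →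
      |crd ν U ((l.map fun p => Finsupp.single p.1 p.2).sum w) b| ≤ l.length * P := by
  classical
  intro l
  induction l with
  | nil =>
    intro _
    simp only [List.map_nil, List.sum_nil, Finsupp.coe_zero, Pi.zero_apply]
    rw [crd_zero hc b]
    simp
  | cons p l ih =>
    intro hl
    have h0 : ∀ q ∈ l, q ∈ atoms T U := fun q hq => hl q (List.mem_cons_of_mem _ hq)
    have h1 := ih h0
    have h2 := (Crd_list w l h0).1
    obtain ⟨-, a, ha, hpa⟩ := hl p List.mem_cons_self
    rw [List.map_cons, List.sum_cons, Finsupp.add_apply, List.length_cons]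
    push_cast
    by_cases hw : p.1 = w
    · rw [Finsupp.single_apply, if_pos hw, hpa, Crd_add hc (ev_mem_Sp ha) h2 b]
      refine (abs_add_le _ _).trans ?_
      have h3 := Crd_ev_le hc hP ha b
      linarith
    · rw [Finsupp.single_apply, if_neg hw, zero_add]
      have h3 : (0 : ℤ) ≤ P := Int.natCast_nonneg P
      linarith

theorem crd_bound {ν : List (ℕ → ℤ)} {T : List Tok} {U : List Tm} (hc : Coh U ν) {P : ℕ}
    (hP : ∀ row ∈ ν, ∀ a, |row a| ≤ P) {t : Tm} (ht : At (atoms T U) t) {m : ℕ}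
    (hm : t.sz ≤ m) {g : List Bool →₀ Fn} (hg : g ∈ (rep t).support) (w : List Bool) (b : ℕ) :
    |crd ν U (g w) b| ≤ m * P := by
  obtain ⟨l, hl, hA, rfl⟩ := rep_supp ht g hg
  refine (Crd_list_le hc hP w b l hA).trans ?_
  have h1 : (l.length : ℤ) ≤ m := by exact_mod_cast hl.trans hm
  exact mul_le_mul_of_nonneg_right h1 (Int.natCast_nonneg P)

/-- The support and the exponents of the monomials of a term. -/
theorem supp_atoms {T : List Tok} {U : List Tm} {t : Tm} (ht : At (atoms T U) t)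
    {g : List Bool →₀ Fn} (hg : g ∈ (rep t).support) :
    (∀ w, g w ∈ Sp U) ∧ ∀ w, g w ≠ 0 → w ∈ names T := by
  obtain ⟨l, -, hA, rfl⟩ := rep_supp ht g hg
  exact ⟨fun w => (Crd_list w l hA).1, fun w => (Crd_list w l hA).2⟩

end Pool.Agent.TW
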