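import Pool.Agent.H.MP_b2d7dd_lc.TI.Defs

/-!
# Definitions used in the statement

Terms in which every base of an exponentiation is a variable. The terms, their values, their
strings and the class coRP are defined in `Pool.Agent.TI` (module TI/Defs).
-/

namespace Pool.Agent.TW

open Pool.Agent.TI

/-- Every base of an exponentiation is a variable (the exponents are arbitrary terms of this
kind, of any height). -/
def VB : Tm → Prop
  | .one => True
  | .var _ => True
  | .add s t => VB s ∧ VB t
  | .mul s t => VB s ∧ VB t
  | .pow s t => (∃ w, s = .var w) ∧ VB t

/-- The strings of the identities `s = t` which hold in `N_HS`, where every base of an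
exponentiation in `s` and `t` is a variable. -/
def identitiesVB : Set (List Bool) :=
  {x | ∃ s t : Tm, VB s ∧ VB t ∧ Valid s t ∧ x = s.code ++ t.code}

end Pool.Agent.TW
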