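import Pool.Agent.H.MP_b2d7dd_lc.TW.Defs

/-!
# Module Fn: functions, the path, growth

`X` = assignments of positive integers, `Fn` = integer-valued functions on `X`, `vf t` = the
function of the term `t`. The path is `x_w = (t + 2) ^ ((s + 1) ^ encode w)`; eventually means:
for all large `s`, for all large `t` (depending on `s`), the filter `F = atTop.curry atTop`
(`Filter.eventually_curry_iff`).
-/

namespace Pool.Agent.TW

open Pool.Agent.TI Filter

/-- Assignments of positive integers. -/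
abbrev X : Type := {x : List Bool → ℕ // ∀ w, 0 < x w}

/-- Integer-valued functions. -/
abbrev Fn : Type := X → ℤ

/-- The function of a term. -/
def vf (t : Tm) : Fn := fun x => (t.val x.1 : ℤ)

/-- The filter. -/
def F : Filter (ℕ × ℕ) := (atTop : Filter ℕ).curry (atTop : Filter ℕ)

theorem ev_iff {P : ℕ × ℕ → Prop} :
    (∀ᶠ p in F, P p) ↔ ∀ᶠ s in (atTop : Filter ℕ), ∀ᶠ t in (atTop : Filter ℕ), P (s, t) :=
  Filter.eventually_curry_iff

instance : F.NeBot := by
  refine ⟨fun h => ?_⟩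
  have h1 : ∀ᶠ p in F, False := by rw [h]; exact Filter.eventually_bot
  rw [ev_iff] at h1
  obtain ⟨s, hs⟩ := h1.exists
  obtain ⟨t, ht⟩ := hs.exists
  exact ht

/-- The basis of the powers. -/
def ta (p : ℕ × ℕ) : ℕ := p.2 + 2

/-- The basis of the exponents. -/
def si (p : ℕ × ℕ) : ℕ := p.1 + 1

/-- The point of the path. -/
def pt (p : ℕ × ℕ) : X :=
  ⟨fun w => ta p ^ (si p ^ Encodable.encode w), fun _ => by unfold ta; positivity⟩

/-- The logarithm (with respect to the basis `ta p`) of the monomial with exponents `d`. -/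
def lg (d : List Bool →₀ Fn) (p : ℕ × ℕ) : ℤ :=
  d.sum fun w f => f (pt p) * (si p : ℤ) ^ Encodable.encode w

/-- Growth properties of a set of functions: the non-zero functions have eventually a constant
sign, and any two of them have the same order of growth, or one of them is larger by a factor of
order at least `ta p`. -/
structure Tame (V : AddSubgroup Fn) : Prop where
  sgn : ∀ d ∈ V, d ≠ 0 → (∀ᶠ p in F, 0 < d (pt p)) ∨ (∀ᶠ p in F, d (pt p) < 0)
  cmp : ∀ d ∈ V, ∀ d' ∈ V, d ≠ 0 → d' ≠ 0 →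
    (∃ C : ℤ, ∀ᶠ p in F, (ta p : ℤ) * |d' (pt p)| ≤ C * |d (pt p)|) ∨
    (∃ C : ℤ, ∀ᶠ p in F, (ta p : ℤ) * |d (pt p)| ≤ C * |d' (pt p)|) ∨
    (∃ C : ℤ, ∀ᶠ p in F, |d (pt p)| ≤ C * |d' (pt p)| ∧ |d' (pt p)| ≤ C * |d (pt p)|)

end Pool.Agent.TW
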