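import Pool.Agent.H.MP_b2d7dd_lc.TW.Fn

/-!
# Module GrA: the logarithm of a non-trivial monomial

Let `V` be tame and `d ≠ 0` a finitely supported family of functions in `V`. For `w ≠ w'` in the
support, either for every `K` eventually `K |d_{w'}| σ ^ i' ≤ |d_w| σ ^ i` or the same with `w`,
`w'` exchanged (`σ = si p`, `i = encode w`, `i' = encode w'`; `Encodable.encode_injective`):
in the first case of `cmp` `|d_{w'}| σ ^ i' K ≤ (C K σ ^ i' / τ) |d_w| ≤ |d_w| σ ^ i` if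
`τ = ta p ≥ C K σ ^ i'` (for fixed `s` this holds for all large `t`); in the third case the
larger exponent of `σ` wins for `σ ≥ K C`. So (induction on the finite support) there is `w0`
which dominates all the others with `K = 2 * card`, and `lg d` has eventually the sign of
`d_{w0}`.
-/

namespace Pool.Agent.TW

open Filter

theorem GrA_ta_ge (g : ℕ → ℤ) : ∀ᶠ p in F, g p.1 ≤ (ta p : ℤ) := by
  rw [ev_iff]
  refine Filter.Eventually.of_forall fun s => ?_
  filter_upwards [eventually_ge_atTop (g s).toNat] with t ht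
  have h1 : g s ≤ ((g s).toNat : ℤ) := Int.self_le_toNat _
  have h2 : ((g s).toNat : ℤ) ≤ (t : ℤ) := by exact_mod_cast ht
  show g s ≤ ((t + 2 : ℕ) : ℤ)
  push_cast
  omega

theorem GrA_si_ge (N : ℤ) : ∀ᶠ p in F, N ≤ (si p : ℤ) := by
  rw [ev_iff]
  filter_upwards [eventually_ge_atTop N.toNat] with s hs
  refine Filter.Eventually.of_forall fun t => ?_
  have h1 : N ≤ (N.toNat : ℤ) := Int.self_le_toNat _
  have h2 : (N.toNat : ℤ) ≤ (s : ℤ) := by exact_mod_cast hs
  show N ≤ ((s + 1 : ℕ) : ℤ)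
  push_cast
  omega

theorem GrA_si_one (p : ℕ × ℕ) : (1 : ℤ) ≤ (si p : ℤ) := by
  unfold si
  push_cast
  omega

theorem GrA_ta_pos (p : ℕ × ℕ) : (0 : ℤ) < (ta p : ℤ) := by
  unfold ta
  push_cast
  omega

/-- a function larger by the factor `τ` dominates -/
theorem GrA_dom_far {f f' : Fn} {C : ℤ}
    (h : ∀ᶠ p in F, (ta p : ℤ) * |f' (pt p)| ≤ C * |f (pt p)|) (i i' : ℕ) (K : ℤ) :
    ∀ᶠ p in F, K * |f' (pt p) * (si p : ℤ) ^ i'| ≤ |f (pt p) * (si p : ℤ) ^ i| := by
  filter_upwards [h, GrA_ta_ge fun s => |C| * |K| * (((s + 1 : ℕ) : ℤ)) ^ i'] with p h1 h2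
  have hs : (1 : ℤ) ≤ (si p : ℤ) := GrA_si_one p
  have ht : (0 : ℤ) < (ta p : ℤ) := GrA_ta_pos p
  have h2' : |C| * |K| * (si p : ℤ) ^ i' ≤ (ta p : ℤ) := h2
  have hpi : (1 : ℤ) ≤ (si p : ℤ) ^ i := one_le_pow₀ hs
  have hpi' : (0 : ℤ) ≤ (si p : ℤ) ^ i' := by positivity
  have e1 : |f' (pt p) * (si p : ℤ) ^ i'| = |f' (pt p)| * (si p : ℤ) ^ i' := by
    rw [abs_mul, abs_of_nonneg hpi']
  have e2 : |f (pt p) * (si p : ℤ) ^ i| = |f (pt p)| * (si p : ℤ) ^ i := by
    rw [abs_mul, abs_of_nonneg (by linarith : (0 : ℤ) ≤ (si p : ℤ) ^ i)]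
  rw [e1, e2]
  have hx : 0 ≤ |f (pt p)| := abs_nonneg _
  have hx' : 0 ≤ |f' (pt p)| := abs_nonneg _
  have hKp : 0 ≤ |K| * (si p : ℤ) ^ i' := mul_nonneg (abs_nonneg _) hpi'
  have s1 : (ta p : ℤ) * (|K| * (|f' (pt p)| * (si p : ℤ) ^ i')) ≤ (ta p : ℤ) * |f (pt p)| := by
    calc (ta p : ℤ) * (|K| * (|f' (pt p)| * (si p : ℤ) ^ i'))
        = (|K| * (si p : ℤ) ^ i') * ((ta p : ℤ) * |f' (pt p)|) := by ring
      _ ≤ (|K| * (si p : ℤ) ^ i') * (C * |f (pt p)|) := mul_le_mul_of_nonneg_left h1 hKp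
      _ ≤ (|K| * (si p : ℤ) ^ i') * (|C| * |f (pt p)|) :=
          mul_le_mul_of_nonneg_left (mul_le_mul_of_nonneg_right (le_abs_self C) hx) hKp
      _ = (|C| * |K| * (si p : ℤ) ^ i') * |f (pt p)| := by ring
      _ ≤ (ta p : ℤ) * |f (pt p)| := mul_le_mul_of_nonneg_right h2' hx
  have s2 : |K| * (|f' (pt p)| * (si p : ℤ) ^ i') ≤ |f (pt p)| := le_of_mul_le_mul_left s1 ht
  calc K * (|f' (pt p)| * (si p : ℤ) ^ i') ≤ |K| * (|f' (pt p)| * (si p : ℤ) ^ i') :=
        mul_le_mul_of_nonneg_right (le_abs_self K) (mul_nonneg hx' hpi')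
    _ ≤ |f (pt p)| * 1 := by rw [mul_one]; exact s2
    _ ≤ |f (pt p)| * (si p : ℤ) ^ i := mul_le_mul_of_nonneg_left hpi hx

/-- functions of the same order: the larger exponent dominates -/
theorem GrA_dom_near {f f' : Fn} {C : ℤ}
    (h : ∀ᶠ p in F, |f' (pt p)| ≤ C * |f (pt p)|) {i i' : ℕ} (hi : i' < i) (K : ℤ) :
    ∀ᶠ p in F, K * |f' (pt p) * (si p : ℤ) ^ i'| ≤ |f (pt p) * (si p : ℤ) ^ i| := by
  filter_upwards [h, GrA_si_ge (|K| * |C|)] with p h1 h2
  have hs : (1 : ℤ) ≤ (si p : ℤ) := GrA_si_one p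
  have hpi : (0 : ℤ) ≤ (si p : ℤ) ^ i := by positivity
  have hpi' : (0 : ℤ) ≤ (si p : ℤ) ^ i' := by positivity
  have e1 : |f' (pt p) * (si p : ℤ) ^ i'| = |f' (pt p)| * (si p : ℤ) ^ i' := by
    rw [abs_mul, abs_of_nonneg hpi']
  have e2 : |f (pt p) * (si p : ℤ) ^ i| = |f (pt p)| * (si p : ℤ) ^ i := by
    rw [abs_mul, abs_of_nonneg hpi]
  rw [e1, e2]
  have hx : 0 ≤ |f (pt p)| := abs_nonneg _
  have hx' : 0 ≤ |f' (pt p)| := abs_nonneg _
  calc K * (|f' (pt p)| * (si p : ℤ) ^ i') ≤ |K| * (|f' (pt p)| * (si p : ℤ) ^ i') :=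
        mul_le_mul_of_nonneg_right (le_abs_self K) (mul_nonneg hx' hpi')
    _ ≤ |K| * ((|C| * |f (pt p)|) * (si p : ℤ) ^ i') :=
        mul_le_mul_of_nonneg_left (mul_le_mul_of_nonneg_right
          (h1.trans (mul_le_mul_of_nonneg_right (le_abs_self C) hx)) hpi') (abs_nonneg _)
    _ = (|K| * |C|) * (|f (pt p)| * (si p : ℤ) ^ i') := by ring
    _ ≤ (si p : ℤ) * (|f (pt p)| * (si p : ℤ) ^ i') :=
        mul_le_mul_of_nonneg_right h2 (mul_nonneg hx hpi')
    _ = |f (pt p)| * (si p : ℤ) ^ (i' + 1) := by ring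
    _ ≤ |f (pt p)| * (si p : ℤ) ^ i :=
        mul_le_mul_of_nonneg_left (pow_le_pow_right₀ hs hi) hx

/-- a dominating member of a finite family -/
theorem GrA_exists_max {ι : Type*} [DecidableEq ι] (A : ι → ℕ × ℕ → ℤ) (S : Finset ι)
    (hS : S.Nonempty)
    (h : ∀ w ∈ S, ∀ w' ∈ S, w ≠ w' → (∀ K : ℤ, ∀ᶠ p in F, K * |A w' p| ≤ |A w p|) ∨
      (∀ K : ℤ, ∀ᶠ p in F, K * |A w p| ≤ |A w' p|)) :
    ∃ w0 ∈ S, ∀ w ∈ S, w ≠ w0 → ∀ K : ℤ, ∀ᶠ p in F, K * |A w p| ≤ |A w0 p| := by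
  induction hS using Finset.Nonempty.cons_induction with
  | singleton a =>
    refine ⟨a, Finset.mem_singleton_self a, ?_⟩
    intro w hw hne
    exact absurd (Finset.mem_singleton.1 hw) hne
  | cons a s ha hs ih =>
    obtain ⟨w0, hw0, hmax⟩ := ih fun w hw w' hw' hne =>
      h w (Finset.mem_cons_of_mem hw) w' (Finset.mem_cons_of_mem hw') hne
    have hne : a ≠ w0 := fun e => ha (e ▸ hw0)
    rcases h a (Finset.mem_cons_self a s) w0 (Finset.mem_cons_of_mem hw0) hne with hd | hd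
    · refine ⟨a, Finset.mem_cons_self a s, ?_⟩
      intro w hw hwa K
      rcases Finset.mem_cons.1 hw with rfl | hw
      · exact absurd rfl hwa
      · by_cases hww : w = w0
        · subst hww
          exact hd K
        · filter_upwards [hmax w hw hww K, hd 1] with p h1 h2
          rw [one_mul] at h2
          exact h1.trans h2
    · refine ⟨w0, Finset.mem_cons_of_mem hw0, ?_⟩
      intro w hw hww K
      rcases Finset.mem_cons.1 hw with rfl | hw
      · exact hd K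
      · exact hmax w hw hww K

theorem lg_sign {V : AddSubgroup Fn} (hV : Tame V) {d : List Bool →₀ Fn} (hd : ∀ w, d w ∈ V)
    (h0 : d ≠ 0) : (∀ᶠ p in F, 0 < lg d p) ∨ (∀ᶠ p in F, lg d p < 0) := by
  classical
  set A : List Bool → ℕ × ℕ → ℤ := fun w p => d w (pt p) * (si p : ℤ) ^ Encodable.encode w with hA
  have hS : d.support.Nonempty := Finsupp.support_nonempty_iff.2 h0
  obtain ⟨w0, hw0, hmax⟩ := GrA_exists_max A d.support hS (by
    intro w hw w' hw' hne
    have hwne : d w ≠ 0 := Finsupp.mem_support_iff.1 hw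
    have hwne' : d w' ≠ 0 := Finsupp.mem_support_iff.1 hw'
    have hie : Encodable.encode w ≠ Encodable.encode w' :=
      fun e => hne (Encodable.encode_injective e)
    rcases hV.cmp (d w) (hd w) (d w') (hd w') hwne hwne' with ⟨C, hC⟩ | ⟨C, hC⟩ | ⟨C, hC⟩
    · exact Or.inl fun K => GrA_dom_far hC _ _ K
    · exact Or.inr fun K => GrA_dom_far hC _ _ K
    · rcases lt_or_gt_of_ne hie with hlt | hgt
      · exact Or.inr fun K => GrA_dom_near (hC.mono fun p hp => hp.1) hlt K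
      · exact Or.inl fun K => GrA_dom_near (hC.mono fun p hp => hp.2) hgt K)
  have hlg : ∀ p, lg d p = A w0 p + ∑ w ∈ d.support.erase w0, A w p := by
    intro p
    unfold lg
    rw [Finsupp.sum, Finset.add_sum_erase _ (fun w => A w p) hw0]
  have hsmall : ∀ᶠ p in F, 2 * |∑ w ∈ d.support.erase w0, A w p| ≤ |A w0 p| := by
    have hev : ∀ᶠ p in F, ∀ w ∈ d.support.erase w0,
        (2 * (d.support.card : ℤ)) * |A w p| ≤ |A w0 p| := by
      rw [Filter.eventually_all_finset]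
      intro w hw
      exact hmax w (Finset.mem_of_mem_erase hw) (Finset.ne_of_mem_erase hw) _
    filter_upwards [hev] with p hp
    have hc : (0 : ℤ) < (d.support.card : ℤ) := by exact_mod_cast Finset.card_pos.2 hS
    have h1 : |∑ w ∈ d.support.erase w0, A w p| ≤ ∑ w ∈ d.support.erase w0, |A w p| :=
      Finset.abs_sum_le_sum_abs _ _
    have h2 : ∑ w ∈ d.support.erase w0, (2 * (d.support.card : ℤ)) * |A w p| ≤
        ∑ w ∈ d.support.erase w0, |A w0 p| := Finset.sum_le_sum hp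
    rw [← Finset.mul_sum, Finset.sum_const, nsmul_eq_mul] at h2
    have h3 : ((d.support.erase w0).card : ℤ) ≤ (d.support.card : ℤ) := by
      exact_mod_cast Finset.card_erase_le
    have h4 : ((d.support.erase w0).card : ℤ) * |A w0 p| ≤ (d.support.card : ℤ) * |A w0 p| :=
      mul_le_mul_of_nonneg_right h3 (abs_nonneg _)
    have h5 : (d.support.card : ℤ) * (2 * |∑ w ∈ d.support.erase w0, A w p|) ≤
        (d.support.card : ℤ) * |A w0 p| := by
      calc (d.support.card : ℤ) * (2 * |∑ w ∈ d.support.erase w0, A w p|)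
          = (2 * (d.support.card : ℤ)) * |∑ w ∈ d.support.erase w0, A w p| := by ring
        _ ≤ (2 * (d.support.card : ℤ)) * ∑ w ∈ d.support.erase w0, |A w p| :=
            mul_le_mul_of_nonneg_left h1 (by positivity)
        _ ≤ _ := h2.trans h4
    exact le_of_mul_le_mul_left h5 hc
  have hw0ne : d w0 ≠ 0 := Finsupp.mem_support_iff.1 hw0
  rcases hV.sgn (d w0) (hd w0) hw0ne with hpos | hneg
  · left
    filter_upwards [hpos, hsmall] with p h1 h2
    have hApos : 0 < A w0 p := mul_pos h1 (pow_pos (by linarith [GrA_si_one p]) _)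
    rw [abs_of_pos hApos] at h2
    rw [hlg p]
    have h3 := neg_abs_le (∑ w ∈ d.support.erase w0, A w p)
    linarith
  · right
    filter_upwards [hneg, hsmall] with p h1 h2
    have hAneg : A w0 p < 0 := mul_neg_of_neg_of_pos h1 (pow_pos (by linarith [GrA_si_one p]) _)
    rw [abs_of_neg hAneg] at h2
    rw [hlg p]
    have h3 := le_abs_self (∑ w ∈ d.support.erase w0, A w p)
    linarith

end Pool.Agent.TW
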