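import Pool.Agent.H.MP_b2d7dd_lc.TW.GrA

/-!
# Module GrB: the sums of monomials are tame

`Mon V` = the functions `x ↦ ∏ x_w ^ g_w(x)` with `g_w ∈ V`, `g_w ≥ 0`. On the path such a
function has the value `ta p ^ (lg g p).toNat` (`lg g p ≥ 0`). For two different families
`g ≠ g'` apply `lg_sign` to `g - g'`: eventually `ta p * m' ≤ m` or eventually `ta p * m ≤ m'`.
A non-zero element of the closure is a sum `∑ c_i m_i` with distinct `m_i` and `c_i ≠ 0`; there is
an `i0` with eventually `ta p * m_j ≤ m_{i0}` for all `j ≠ i0`, hence for large `t` (`ta p → ∞` for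
fixed `s`) `|d - c_{i0} m_{i0}| ≤ m_{i0} / 2`. This gives `tame_closure`.
-/

namespace Pool.Agent.TW

open Filter

/-- Monomials with exponents in `V`. -/
def Mon (V : AddSubgroup Fn) : Set Fn :=
  {m | ∃ g : List Bool →₀ Fn, (∀ w, g w ∈ V) ∧ (∀ w x, 0 ≤ g w x) ∧
    ∀ x : X, m x = g.prod fun w f => (x.1 w : ℤ) ^ (f x).toNat}

/-- admissible families of exponents -/
def GrBOk (V : AddSubgroup Fn) (g : List Bool →₀ Fn) : Prop :=
  (∀ w, g w ∈ V) ∧ ∀ w x, 0 ≤ g w x

/-- the monomial with the exponents `g` -/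
def GrBm (g : List Bool →₀ Fn) : Fn := fun x => g.prod fun w f => (x.1 w : ℤ) ^ (f x).toNat

theorem GrB_ta (p : ℕ × ℕ) : (2 : ℤ) ≤ ta p := by
  unfold ta
  push_cast
  omega

theorem GrB_lg_nonneg {V : AddSubgroup Fn} {g : List Bool →₀ Fn} (hg : GrBOk V g) (p : ℕ × ℕ) :
    0 ≤ lg g p :=
  Finset.sum_nonneg fun w _ => mul_nonneg (hg.2 w _) (by positivity)

/-- the value on the path -/
theorem GrB_pt {V : AddSubgroup Fn} {g : List Bool →₀ Fn} (hg : GrBOk V g) (p : ℕ × ℕ) :
    GrBm g (pt p) = (ta p : ℤ) ^ (lg g p).toNat := by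
  have h1 : (lg g p).toNat = ∑ w ∈ g.support, si p ^ Encodable.encode w * (g w (pt p)).toNat := by
    have h2 : lg g p =
        ((∑ w ∈ g.support, si p ^ Encodable.encode w * (g w (pt p)).toNat : ℕ) : ℤ) := by
      rw [lg, Finsupp.sum]
      push_cast
      refine Finset.sum_congr rfl fun w _ => ?_
      rw [Int.toNat_of_nonneg (hg.2 w _), mul_comm]
    rw [h2, Int.toNat_natCast]
  rw [h1, GrBm, Finsupp.prod, ← Finset.prod_pow_eq_pow_sum]
  refine Finset.prod_congr rfl fun w _ => ?_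
  rw [pow_mul]
  simp only [pt]
  push_cast
  rfl

theorem GrB_pos {V : AddSubgroup Fn} {g : List Bool →₀ Fn} (hg : GrBOk V g) (p : ℕ × ℕ) :
    0 < GrBm g (pt p) := by
  rw [GrB_pt hg]
  have := GrB_ta p
  positivity

theorem GrB_le {V : AddSubgroup Fn} {g g' : List Bool →₀ Fn} (hg : GrBOk V g) (hg' : GrBOk V g')
    {p : ℕ × ℕ} (h : lg g' p < lg g p) : (ta p : ℤ) * GrBm g' (pt p) ≤ GrBm g (pt p) := by
  rw [GrB_pt hg, GrB_pt hg', ← pow_succ']
  refine pow_le_pow_right₀ (by have := GrB_ta p; omega) ?_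
  have h1 := GrB_lg_nonneg hg p
  have h2 := GrB_lg_nonneg hg' p
  omega

theorem GrB_cmp {V : AddSubgroup Fn} (hV : Tame V) {g g' : List Bool →₀ Fn} (hg : GrBOk V g)
    (hg' : GrBOk V g') (hne : g ≠ g') :
    (∀ᶠ p in F, (ta p : ℤ) * GrBm g' (pt p) ≤ GrBm g (pt p)) ∨
      (∀ᶠ p in F, (ta p : ℤ) * GrBm g (pt p) ≤ GrBm g' (pt p)) := by
  have h1 : ∀ w, (g - g') w ∈ V := fun w => by
    rw [Finsupp.sub_apply]
    exact V.sub_mem (hg.1 w) (hg'.1 w)
  have h2 : ∀ p, lg (g - g') p = lg g p - lg g' p := fun p => by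
    rw [lg, lg, lg]
    refine Finsupp.sum_sub_index fun w a b => ?_
    rw [Pi.sub_apply, sub_mul]
  rcases lg_sign hV h1 (sub_ne_zero.2 hne) with h | h
  · left
    filter_upwards [h] with p hp
    rw [h2] at hp
    exact GrB_le hg hg' (by omega)
  · right
    filter_upwards [h] with p hp
    rw [h2] at hp
    exact GrB_le hg' hg (by omega)

/-- one of finitely many monomials dominates the others -/
theorem GrB_dom {V : AddSubgroup Fn} (hV : Tame V) (s : Finset (List Bool →₀ Fn))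
    (hs : ∀ g ∈ s, GrBOk V g) (hne : s.Nonempty) :
    ∃ g₀ ∈ s, ∀ g ∈ s, g ≠ g₀ → ∀ᶠ p in F, (ta p : ℤ) * GrBm g (pt p) ≤ GrBm g₀ (pt p) := by
  classical
  induction s using Finset.induction_on with
  | empty => exact absurd hne Finset.not_nonempty_empty
  | insert a s ha ih =>
    rcases s.eq_empty_or_nonempty with rfl | hn
    · refine ⟨a, by simp, fun g hg hga => ?_⟩
      simp at hg
      exact absurd hg hga
    · obtain ⟨g₀, h0, h1⟩ := ih (fun g hg => hs g (Finset.mem_insert_of_mem hg)) hn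
      have hg0 := hs g₀ (Finset.mem_insert_of_mem h0)
      have hga := hs a (Finset.mem_insert_self a s)
      have hag : g₀ ≠ a := fun h => ha (h ▸ h0)
      rcases GrB_cmp hV hg0 hga hag with h2 | h2
      · refine ⟨g₀, Finset.mem_insert_of_mem h0, fun g hg hgg => ?_⟩
        rcases Finset.mem_insert.1 hg with rfl | hg
        · exact h2
        · exact h1 g hg hgg
      · refine ⟨a, Finset.mem_insert_self a s, fun g hg hgg => ?_⟩
        rcases Finset.mem_insert.1 hg with rfl | hg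
        · exact absurd rfl hgg
        by_cases hg1 : g = g₀
        · rw [hg1]
          exact h2
        · filter_upwards [h1 g hg hg1, h2] with p hp hp2
          have h3 := GrB_pos hg0 p
          have h4 := GrB_ta p
          nlinarith

/-- representation of the elements of the closure -/
theorem GrB_repr {V : AddSubgroup Fn} {d : Fn} (hd : d ∈ AddSubgroup.closure (Mon V)) :
    ∃ c : (List Bool →₀ Fn) →₀ ℤ, (∀ g ∈ c.support, GrBOk V g) ∧
      d = c.sum fun g n => n • GrBm g := by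
  classical
  induction hd using AddSubgroup.closure_induction with
  | mem x hx =>
    obtain ⟨g, h1, h2, h3⟩ := hx
    refine ⟨Finsupp.single g 1, fun g' hg' => ?_, ?_⟩
    · have := Finsupp.support_single_subset hg'
      rw [Finset.mem_singleton] at this
      rw [this]
      exact ⟨h1, h2⟩
    · rw [Finsupp.sum_single_index (by simp), one_smul]
      funext x
      exact h3 x
  | zero => exact ⟨0, by simp, by simp⟩
  | add x y _ _ hx hy =>
    obtain ⟨c, h1, h2⟩ := hx
    obtain ⟨c', h1', h2'⟩ := hy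
    refine ⟨c + c', fun g hg => ?_, ?_⟩
    · rcases Finset.mem_union.1 (Finsupp.support_add hg) with h | h
      · exact h1 g h
      · exact h1' g h
    · rw [Finsupp.sum_add_index' (h := fun g n => n • GrBm g) (fun g => zero_smul ℤ (GrBm g))
        (fun g a b => add_smul a b (GrBm g)), ← h2, ← h2']
  | neg x _ hx =>
    obtain ⟨c, h1, h2⟩ := hx
    refine ⟨-c, fun g hg => h1 g (by rwa [Finsupp.support_neg] at hg), ?_⟩
    rw [Finsupp.sum_neg_index (fun g => zero_smul ℤ (GrBm g)), h2, Finsupp.sum, Finsupp.sum,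
      ← Finset.sum_neg_distrib]
    refine Finset.sum_congr rfl fun g _ => ?_
    rw [neg_smul]

theorem GrB_large (K : ℤ) : ∀ᶠ p in F, K ≤ (ta p : ℤ) := by
  rw [ev_iff]
  refine Eventually.of_forall fun s => ?_
  filter_upwards [eventually_ge_atTop K.toNat] with t ht
  simp only [ta]
  push_cast
  omega

/-- the leading monomial -/
theorem GrB_lead {V : AddSubgroup Fn} (hV : Tame V) {d : Fn}
    (hd : d ∈ AddSubgroup.closure (Mon V)) (h0 : d ≠ 0) :
    ∃ (g₀ : List Bool →₀ Fn) (c₀ : ℤ), GrBOk V g₀ ∧ c₀ ≠ 0 ∧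
      ∀ᶠ p in F, 2 * |d (pt p) - c₀ * GrBm g₀ (pt p)| ≤ GrBm g₀ (pt p) := by
  classical
  obtain ⟨c, h1, h2⟩ := GrB_repr hd
  have hne : c.support.Nonempty := by
    rw [Finsupp.support_nonempty_iff]
    rintro rfl
    exact h0 (by rw [h2, Finsupp.sum_zero_index])
  obtain ⟨g₀, hg0, hdom⟩ := GrB_dom hV c.support h1 hne
  refine ⟨g₀, c g₀, h1 g₀ hg0, Finsupp.mem_support_iff.1 hg0, ?_⟩
  set S : ℤ := 1 + ∑ g ∈ c.support.erase g₀, |c g| with hS
  have hS1 : 1 ≤ S := by
    have : 0 ≤ ∑ g ∈ c.support.erase g₀, |c g| := Finset.sum_nonneg fun g _ => abs_nonneg _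
    omega
  have hall : ∀ᶠ p in F, ∀ g ∈ c.support.erase g₀, (ta p : ℤ) * GrBm g (pt p) ≤ GrBm g₀ (pt p) := by
    rw [Finset.eventually_all]
    intro g hg
    exact hdom g (Finset.mem_of_mem_erase hg) (Finset.ne_of_mem_erase hg)
  filter_upwards [hall, GrB_large (2 * S)] with p hp hta
  have hm := GrB_pos (h1 g₀ hg0) p
  have h3 : d (pt p) - c g₀ * GrBm g₀ (pt p) = ∑ g ∈ c.support.erase g₀, c g * GrBm g (pt p) := by
    have h4 : d (pt p) = ∑ g ∈ c.support, c g * GrBm g (pt p) := by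
      conv_lhs => rw [h2]
      rw [Finsupp.sum, Finset.sum_apply]
      refine Finset.sum_congr rfl fun g _ => ?_
      rw [Pi.smul_apply, smul_eq_mul]
    rw [h4, ← Finset.add_sum_erase _ _ hg0]
    ring
  have h5 : (ta p : ℤ) * |d (pt p) - c g₀ * GrBm g₀ (pt p)| ≤ S * GrBm g₀ (pt p) := by
    rw [h3]
    have h6 : |∑ g ∈ c.support.erase g₀, c g * GrBm g (pt p)| ≤
        ∑ g ∈ c.support.erase g₀, |c g| * GrBm g (pt p) := by
      refine (Finset.abs_sum_le_sum_abs _ _).trans (Finset.sum_le_sum fun g hg => ?_)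
      rw [abs_mul, abs_of_pos (GrB_pos (h1 g (Finset.mem_of_mem_erase hg)) p)]
    have h7 : (ta p : ℤ) * ∑ g ∈ c.support.erase g₀, |c g| * GrBm g (pt p) ≤
        (∑ g ∈ c.support.erase g₀, |c g|) * GrBm g₀ (pt p) := by
      rw [Finset.mul_sum, Finset.sum_mul]
      refine Finset.sum_le_sum fun g hg => ?_
      have := mul_le_mul_of_nonneg_left (hp g hg) (abs_nonneg (c g))
      calc (ta p : ℤ) * (|c g| * GrBm g (pt p)) = |c g| * ((ta p : ℤ) * GrBm g (pt p)) := by ring
        _ ≤ |c g| * GrBm g₀ (pt p) := this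
    have h8 : (ta p : ℤ) * |∑ g ∈ c.support.erase g₀, c g * GrBm g (pt p)| ≤
        (ta p : ℤ) * ∑ g ∈ c.support.erase g₀, |c g| * GrBm g (pt p) :=
      mul_le_mul_of_nonneg_left h6 (by have := GrB_ta p; omega)
    have h9 : (∑ g ∈ c.support.erase g₀, |c g|) * GrBm g₀ (pt p) ≤ S * GrBm g₀ (pt p) :=
      mul_le_mul_of_nonneg_right (by omega) hm.le
    omega
  have h10 : 2 * S * |d (pt p) - c g₀ * GrBm g₀ (pt p)| ≤
      (ta p : ℤ) * |d (pt p) - c g₀ * GrBm g₀ (pt p)| :=
    mul_le_mul_of_nonneg_right hta (abs_nonneg _)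
  have h11 : S * (2 * |d (pt p) - c g₀ * GrBm g₀ (pt p)|) ≤ S * GrBm g₀ (pt p) := by
    calc S * (2 * |d (pt p) - c g₀ * GrBm g₀ (pt p)|) =
        2 * S * |d (pt p) - c g₀ * GrBm g₀ (pt p)| := by ring
      _ ≤ S * GrBm g₀ (pt p) := h10.trans h5
  exact le_of_mul_le_mul_left h11 (by omega)

/-- bounds from the leading monomial -/
theorem GrB_bd {D m c : ℤ} (hm : 0 < m) (hc : c ≠ 0) (h : 2 * |D - c * m| ≤ m) :
    |D| ≤ (|c| + 1) * m ∧ m ≤ 2 * |D| := by
  have h1 : |D| ≤ |D - c * m| + |c| * m := by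
    calc |D| = |(D - c * m) + c * m| := by ring_nf
      _ ≤ |D - c * m| + |c * m| := abs_add_le _ _
      _ = |D - c * m| + |c| * m := by rw [abs_mul, abs_of_pos hm]
  have h2 : |c| * m ≤ |D| + |D - c * m| := by
    calc |c| * m = |c * m| := by rw [abs_mul, abs_of_pos hm]
      _ = |D - (D - c * m)| := by ring_nf
      _ ≤ |D| + |D - c * m| := abs_sub _ _
  have h3 : 1 ≤ |c| := Int.one_le_abs hc
  constructor
  · nlinarith [abs_nonneg (D - c * m)]
  · nlinarith

theorem tame_closure {V : AddSubgroup Fn} (hV : Tame V) :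
    Tame (AddSubgroup.closure (Mon V)) := by
  constructor
  · intro d hd h0
    obtain ⟨g, c, hg, hc, h⟩ := GrB_lead hV hd h0
    rcases lt_or_gt_of_ne hc with hc1 | hc1
    · right
      filter_upwards [h] with p hp
      have hm := GrB_pos hg p
      have h1 := le_abs_self (d (pt p) - c * GrBm g (pt p))
      nlinarith
    · left
      filter_upwards [h] with p hp
      have hm := GrB_pos hg p
      have h1 := neg_abs_le (d (pt p) - c * GrBm g (pt p))
      nlinarith
  · intro d hd d' hd' h0 h0'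
    obtain ⟨g, c, hg, hc, h⟩ := GrB_lead hV hd h0
    obtain ⟨g', c', hg', hc', h'⟩ := GrB_lead hV hd' h0'
    by_cases hgg : g = g'
    · right; right
      subst hgg
      refine ⟨2 * (|c| + |c'| + 1), ?_⟩
      filter_upwards [h, h'] with p hp hp'
      have hm := GrB_pos hg p
      obtain ⟨a1, a2⟩ := GrB_bd hm hc hp
      obtain ⟨b1, b2⟩ := GrB_bd hm hc' hp'
      have e1 := abs_nonneg c
      have e2 := abs_nonneg c'
      constructor
      · calc |d (pt p)| ≤ (|c| + 1) * GrBm g (pt p) := a1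
          _ ≤ (|c| + |c'| + 1) * (2 * |d' (pt p)|) :=
            mul_le_mul (by omega) b2 hm.le (by omega)
          _ = 2 * (|c| + |c'| + 1) * |d' (pt p)| := by ring
      · calc |d' (pt p)| ≤ (|c'| + 1) * GrBm g (pt p) := b1
          _ ≤ (|c| + |c'| + 1) * (2 * |d (pt p)|) :=
            mul_le_mul (by omega) a2 hm.le (by omega)
          _ = 2 * (|c| + |c'| + 1) * |d (pt p)| := by ring
    · rcases GrB_cmp hV hg hg' hgg with h2 | h2
      · left
        refine ⟨2 * (|c'| + 1), ?_⟩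
        filter_upwards [h, h', h2] with p hp hp' hp2
        obtain ⟨a1, a2⟩ := GrB_bd (GrB_pos hg p) hc hp
        obtain ⟨b1, b2⟩ := GrB_bd (GrB_pos hg' p) hc' hp'
        have e2 := abs_nonneg c'
        have e3 := GrB_ta p
        calc (ta p : ℤ) * |d' (pt p)| ≤ ta p * ((|c'| + 1) * GrBm g' (pt p)) :=
              mul_le_mul_of_nonneg_left b1 (by omega)
          _ = (|c'| + 1) * (ta p * GrBm g' (pt p)) := by ring
          _ ≤ (|c'| + 1) * (2 * |d (pt p)|) :=
              mul_le_mul_of_nonneg_left (hp2.trans a2) (by omega)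
          _ = 2 * (|c'| + 1) * |d (pt p)| := by ring
      · right; left
        refine ⟨2 * (|c| + 1), ?_⟩
        filter_upwards [h, h', h2] with p hp hp' hp2
        obtain ⟨a1, a2⟩ := GrB_bd (GrB_pos hg p) hc hp
        obtain ⟨b1, b2⟩ := GrB_bd (GrB_pos hg' p) hc' hp'
        have e2 := abs_nonneg c
        have e3 := GrB_ta p
        calc (ta p : ℤ) * |d (pt p)| ≤ ta p * ((|c| + 1) * GrBm g (pt p)) :=
              mul_le_mul_of_nonneg_left a1 (by omega)
          _ = (|c| + 1) * (ta p * GrBm g (pt p)) := by ring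
          _ ≤ (|c| + 1) * (2 * |d' (pt p)|) :=
              mul_le_mul_of_nonneg_left (hp2.trans b2) (by omega)
          _ = 2 * (|c| + 1) * |d' (pt p)| := by ring

end Pool.Agent.TW
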