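import Mathlib

/-!
# Module Rat: rational reconstruction (half of the Euclidean algorithm)

State `(r0, r1, t0, t1)`, start `(r, c, 0, 1)` for `c < r`. As long as `r1 > N`:
`(r0, r1, t0, t1) ↦ (r1, r0 mod r1, t1, (t0 + (r0 / r1) t1) mod r)`. Invariants (`1 ≤ N`):
`r1 < r0`, `r0 t1 + r1 t0 = r` (without the reduction modulo `r`; it has no effect, since
`r0 > N ≥ 1` gives `t1 < r`), `1 ≤ t1`, and with the sign `e` (alternating)
`t1 c ≡ e r1`, `t0 c ≡ -e r0 (mod r)`. Two steps halve `r0`, so after `k ≥ 2 log r` steps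
`r1 ≤ N`.

`den_small`: let `D' c ≡ n (mod r)`, `0 < D' ≤ N`, `|n| ≤ N`, `r` prime, `N ^ 2 (N + 1) < r`. If
`c = 0` nothing happens, `t1 = 1`. Otherwise `n ≠ 0` (`r` is prime, `D' < r`). At the end
`r0 > N` (or `r0 = r > N`), `t1 ≤ r / r0 ≤ r / (N + 1)`, and `n t1 ≡ e D' r1 (mod r)`, where
`|n| t1 + D' r1 ≤ N r / (N + 1) + N ^ 2 < r`; so `n t1 = e D' r1` and `t1 ≤ D' r1 ≤ N ^ 2`.
-/

namespace Pool.Agent.TW

/-- One step. -/
def hstep (r N : ℕ) (s : ℕ × ℕ × ℕ × ℕ) : ℕ × ℕ × ℕ × ℕ :=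
  if s.2.1 ≤ N then s
  else (s.2.1, s.1 % s.2.1, s.2.2.2, (s.2.2.1 + (s.1 / s.2.1) * s.2.2.2) % r)

/-- The denominator found after `k` steps. -/
def den (r N k c : ℕ) : ℕ := ((hstep r N)^[k] (r, c, 0, 1)).2.2.2

/-- The basic invariants. -/
private def Inv0 (r : ℕ) (s : ℕ × ℕ × ℕ × ℕ) : Prop :=
  s.2.1 < s.1 ∧ s.1 * s.2.2.2 + s.2.1 * s.2.2.1 = r ∧ 1 ≤ s.2.2.2 ∧ s.2.2.2 < r

private theorem inv0_start {r c : ℕ} (hr : 2 ≤ r) (hc : c < r) : Inv0 r (r, c, 0, 1) :=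
  ⟨hc, by simp, le_rfl, hr⟩

private theorem inv0_mod {r r0 r1 t0 t1 : ℕ} (h1 : 2 ≤ r1)
    (h2 : r1 < r0) (h3 : r0 * t1 + r1 * t0 = r) (h4 : 1 ≤ t1) :
    r1 * (t0 + r0 / r1 * t1) + r0 % r1 * t1 = r ∧ t0 + r0 / r1 * t1 < r ∧
      1 ≤ t0 + r0 / r1 * t1 := by
  have h5 := Nat.div_add_mod r0 r1
  have h6 : r1 * (t0 + r0 / r1 * t1) + r0 % r1 * t1 = r := by
    calc r1 * (t0 + r0 / r1 * t1) + r0 % r1 * t1
        = (r1 * (r0 / r1) + r0 % r1) * t1 + r1 * t0 := by ring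
      _ = r := by rw [h5, h3]
  have h7 : 1 ≤ r0 / r1 := (Nat.one_le_div_iff (by omega)).2 h2.le
  have h8 : 1 ≤ r0 / r1 * t1 := Nat.mul_pos h7 h4
  have h9 : 2 * (t0 + r0 / r1 * t1) ≤ r1 * (t0 + r0 / r1 * t1) := Nat.mul_le_mul_right _ h1
  refine ⟨h6, ?_, by omega⟩
  have h10 : 0 ≤ r0 % r1 * t1 := Nat.zero_le _
  omega

private theorem inv0_step {r N : ℕ} (hN : 1 ≤ N) {s : ℕ × ℕ × ℕ × ℕ} (h : Inv0 r s) :
    Inv0 r (hstep r N s) := by
  obtain ⟨r0, r1, t0, t1⟩ := s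
  obtain ⟨h1, h2, h3, h4⟩ := h
  simp only at h1 h2 h3 h4
  unfold hstep
  simp only
  split_ifs with hc
  · exact ⟨h1, h2, h3, h4⟩
  · have h5 := inv0_mod (by omega : 2 ≤ r1) h1 h2 h3
    rw [Nat.mod_eq_of_lt h5.2.1]
    exact ⟨Nat.mod_lt _ (by omega), h5.1, h5.2.2, h5.2.1⟩

private theorem inv0_iter {r N c : ℕ} (hN : 1 ≤ N) (hr : 2 ≤ r) (hc : c < r) (k : ℕ) :
    Inv0 r ((hstep r N)^[k] (r, c, 0, 1)) := by
  induction k with
  | zero => exact inv0_start hr hc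
  | succ k ih => rw [Function.iterate_succ_apply']; exact inv0_step hN ih

theorem den_pos {r N k c : ℕ} (hN : 1 ≤ N) (hr : 2 ≤ r) (hc : c < r) :
    0 < den r N k c ∧ den r N k c < r := by
  have h := inv0_iter (N := N) hN hr hc k
  exact ⟨h.2.2.1, h.2.2.2⟩

/-- The congruences. -/
private def Inv1 (r N c : ℕ) (s : ℕ × ℕ × ℕ × ℕ) : Prop :=
  N < s.1 ∧ ∃ e : ℤ, (e = 1 ∨ e = -1) ∧ (s.2.2.2 : ℤ) * c ≡ e * s.2.1 [ZMOD r] ∧
    (s.2.2.1 : ℤ) * c ≡ -e * s.1 [ZMOD r]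

private theorem inv1_start {r N c : ℕ} (hN : N < r) : Inv1 r N c (r, c, 0, 1) := by
  refine ⟨hN, 1, Or.inl rfl, ?_, ?_⟩
  · simp
  · have h : ((0 : ℕ) : ℤ) * c = -1 * (r : ℤ) + r * 1 := by push_cast; ring
    simp only
    rw [h]
    exact (Int.modEq_iff_dvd.2 ⟨1, by ring⟩ : (-1 * (r : ℤ)) ≡ -1 * (r : ℤ) + r * 1 [ZMOD r]).symm

private theorem inv1_step {r N c : ℕ} (hN : 1 ≤ N) {s : ℕ × ℕ × ℕ × ℕ} (h0 : Inv0 r s)
    (h : Inv1 r N c s) : Inv1 r N c (hstep r N s) := by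
  obtain ⟨r0, r1, t0, t1⟩ := s
  obtain ⟨h1, h2, h3, h4⟩ := h0
  obtain ⟨g0, e, he, g1, g2⟩ := h
  simp only at h1 h2 h3 h4 g0 g1 g2
  unfold hstep
  simp only
  split_ifs with hc
  · exact ⟨g0, e, he, g1, g2⟩
  · have h5 := inv0_mod (by omega : 2 ≤ r1) h1 h2 h3
    rw [Nat.mod_eq_of_lt h5.2.1]
    refine ⟨by simp only; omega, -e, ?_, ?_, ?_⟩
    · rcases he with he | he
      · right; rw [he]
      · left; rw [he]; norm_num
    · simp only
      have h6 : (r0 : ℤ) = r1 * (r0 / r1 : ℕ) + (r0 % r1 : ℕ) := by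
        exact_mod_cast (Nat.div_add_mod r0 r1).symm
      have h7 : ((t0 + r0 / r1 * t1 : ℕ) : ℤ) * c = (t0 : ℤ) * c + (r0 / r1 : ℕ) * ((t1 : ℤ) * c) := by
        push_cast
        ring
      have h8 : -e * ((r0 % r1 : ℕ) : ℤ) = -e * (r0 : ℤ) + (r0 / r1 : ℕ) * (e * (r1 : ℤ)) := by
        rw [h6]
        ring
      rw [h7, h8]
      exact Int.ModEq.add g2 (Int.ModEq.mul_left _ g1)
    · simp only
      rw [neg_neg]
      exact g1

private theorem inv1_iter {r N c : ℕ} (hN : 1 ≤ N) (hr : 2 ≤ r) (hc : c < r) (hNr : N < r)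
    (k : ℕ) : Inv1 r N c ((hstep r N)^[k] (r, c, 0, 1)) := by
  induction k with
  | zero => exact inv1_start hNr
  | succ k ih =>
    rw [Function.iterate_succ_apply']
    exact inv1_step hN (inv0_iter hN hr hc k) ih

private theorem hstep_fix {r N : ℕ} {s : ℕ × ℕ × ℕ × ℕ} (h : s.2.1 ≤ N) (k : ℕ) :
    (hstep r N)^[k] s = s := by
  apply Function.iterate_fixed
  unfold hstep
  rw [if_pos h]

private theorem hstep_end (r N : ℕ) (hN : 1 ≤ N) (j : ℕ) : ∀ s : ℕ × ℕ × ℕ × ℕ, s.2.1 < s.1 →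
    s.1 ≤ 2 ^ j → ((hstep r N)^[2 * j] s).2.1 ≤ N := by
  induction j with
  | zero =>
    intro s h1 h2
    rw [pow_zero] at h2
    simp only [mul_zero, Function.iterate_zero, id]
    omega
  | succ j ih =>
    intro s h1 h2
    by_cases hc : s.2.1 ≤ N
    · rw [hstep_fix hc]; exact hc
    have e1 : hstep r N s = (s.2.1, s.1 % s.2.1, s.2.2.2,
        (s.2.2.1 + (s.1 / s.2.1) * s.2.2.2) % r) := by
      unfold hstep; rw [if_neg hc]
    rw [show 2 * (j + 1) = 2 * j + 1 + 1 by ring, Function.iterate_succ_apply,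
      Function.iterate_succ_apply, e1]
    by_cases hc2 : s.1 % s.2.1 ≤ N
    · have e2 : hstep r N (s.2.1, s.1 % s.2.1, s.2.2.2,
        (s.2.2.1 + (s.1 / s.2.1) * s.2.2.2) % r) = (s.2.1, s.1 % s.2.1, s.2.2.2,
        (s.2.2.1 + (s.1 / s.2.1) * s.2.2.2) % r) := by
        unfold hstep; rw [if_pos hc2]
      rw [e2, hstep_fix hc2]
      exact hc2
    · refine ih _ ?_ ?_
      · unfold hstep
        rw [if_neg hc2]
        have h3 : 0 < s.1 % s.2.1 := by omega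
        exact Nat.mod_lt _ h3
      · unfold hstep
        rw [if_neg hc2]
        have h3 := Nat.div_add_mod s.1 s.2.1
        have h4 : 1 ≤ s.1 / s.2.1 := (Nat.one_le_div_iff (by omega)).2 h1.le
        have h5 : s.1 % s.2.1 < s.2.1 := Nat.mod_lt _ (by omega)
        have h6 : s.2.1 * 1 ≤ s.2.1 * (s.1 / s.2.1) := Nat.mul_le_mul_left _ h4
        have h7 : 2 ^ (j + 1) = 2 * 2 ^ j := by ring
        simp only
        omega

theorem den_small {r N k c : ℕ} (hN : 1 ≤ N) (hr : r.Prime) (hc : c < r)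
    (hk : r ≤ 2 ^ (k / 2)) (hNr : N ^ 2 * (N + 1) < r) {n : ℤ} {D' : ℕ} (hn : |n| ≤ N)
    (hD0 : 0 < D') (hD : D' ≤ N) (h : (D' : ℤ) * c ≡ n [ZMOD r]) :
    den r N k c ≤ N ^ 2 ∧ ∃ n1 : ℤ, |n1| ≤ N ∧ (den r N k c : ℤ) * c ≡ n1 [ZMOD r] := by
  have hN2 : N ≤ N ^ 2 := by nlinarith
  have hNr' : N < r := by nlinarith
  rcases Nat.eq_zero_or_pos c with hc0 | hc0
  · have h1 : den r N k c = 1 := by
      unfold den
      rw [hstep_fix (by simp [hc0])]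
    rw [h1]
    refine ⟨by omega, 0, by simp, ?_⟩
    rw [hc0]
    simp
  have hn0 : n ≠ 0 := by
    rintro rfl
    have h2 : ((r : ℕ) : ℤ) ∣ ((D' * c : ℕ) : ℤ) := by
      have := Int.modEq_zero_iff_dvd.1 h
      exact_mod_cast this
    have h3 : r ∣ D' * c := by exact_mod_cast h2
    rcases (Nat.Prime.dvd_mul hr).1 h3 with h4 | h4
    · exact absurd (Nat.le_of_dvd hD0 h4) (by omega)
    · exact absurd (Nat.le_of_dvd hc0 h4) (by omega)
  have i0 := inv0_iter hN hr.two_le hc (N := N) k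
  have i1 := inv1_iter hN hr.two_le hc hNr' k
  have i2 : ((hstep r N)^[k] (r, c, 0, 1)).2.1 ≤ N := by
    have h1 := hstep_end r N hN (k / 2) (r, c, 0, 1) hc hk
    have h2 : k = (k - 2 * (k / 2)) + 2 * (k / 2) := by omega
    rw [h2, Function.iterate_add_apply, hstep_fix h1]
    exact h1
  unfold den
  set s := (hstep r N)^[k] (r, c, 0, 1) with hs
  obtain ⟨r0, r1, t0, t1⟩ := s
  obtain ⟨h1, h2, h3, h4⟩ := i0
  obtain ⟨g0, e, he, g1, -⟩ := i1
  simp only at h1 h2 h3 h4 g0 g1 i2 ⊢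
  have key : n * t1 ≡ e * (D' * r1) [ZMOD r] := by
    have a1 : (D' : ℤ) * c * t1 ≡ n * t1 [ZMOD r] := h.mul_right _
    have a2 : (D' : ℤ) * ((t1 : ℤ) * c) ≡ D' * (e * r1) [ZMOD r] := g1.mul_left _
    have a3 : (D' : ℤ) * c * t1 = (D' : ℤ) * ((t1 : ℤ) * c) := by ring
    have a4 : e * ((D' : ℤ) * r1) = D' * (e * r1) := by ring
    rw [a4]
    exact (a1.symm.trans (by rw [a3])).trans a2
  have ht : (N + 1) * t1 ≤ r := by
    calc (N + 1) * t1 ≤ r0 * t1 := Nat.mul_le_mul_right _ g0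
      _ ≤ r := by omega
  have hsmall : N * t1 + N * N < r := by
    have b1 : (N + 1) * (N * t1 + N * N) < (N + 1) * r := by
      calc (N + 1) * (N * t1 + N * N) = N * ((N + 1) * t1) + N ^ 2 * (N + 1) := by ring
        _ < N * r + r := by
          have := Nat.mul_le_mul_left N ht
          omega
        _ = (N + 1) * r := by ring
    exact lt_of_mul_lt_mul_left b1 (by omega)
  have hea : |e| = 1 := by rcases he with he | he <;> simp [he]
  have hDr : D' * r1 ≤ N * N := Nat.mul_le_mul hD i2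
  have habs : |n * t1 - e * (D' * r1)| < r := by
    have c1 : |n * t1| ≤ (N : ℤ) * t1 := by
      rw [abs_mul, Nat.abs_cast]
      exact mul_le_mul_of_nonneg_right hn (by positivity)
    have c2 : |e * ((D' : ℤ) * r1)| ≤ (N : ℤ) * N := by
      rw [abs_mul, hea, one_mul, abs_of_nonneg (by positivity)]
      exact_mod_cast hDr
    have c3 := abs_sub (n * t1) (e * ((D' : ℤ) * r1))
    have c4 : (N : ℤ) * t1 + N * N < r := by exact_mod_cast hsmall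
    linarith
  have heq : n * t1 = e * (D' * r1) := by
    have d1 : (r : ℤ) ∣ n * t1 - e * (D' * r1) := (Int.modEq_iff_dvd.1 key.symm)
    have d2 := Int.eq_zero_of_abs_lt_dvd d1 habs
    linarith
  refine ⟨?_, e * r1, ?_, g1⟩
  · have f1 : |n * t1| = ((D' * r1 : ℕ) : ℤ) := by
      rw [heq, abs_mul, hea, one_mul, abs_of_nonneg (by positivity)]
      push_cast
      ring
    rw [abs_mul, Nat.abs_cast] at f1
    have f2 : 1 ≤ |n| := Int.one_le_abs hn0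
    have f3 : (1 : ℤ) * t1 ≤ |n| * t1 := mul_le_mul_of_nonneg_right f2 (by positivity)
    have f4 : (t1 : ℤ) ≤ ((D' * r1 : ℕ) : ℤ) := by linarith
    have f5 : t1 ≤ D' * r1 := by exact_mod_cast f4
    calc t1 ≤ D' * r1 := f5
      _ ≤ N * N := hDr
      _ = N ^ 2 := by ring
  · rw [abs_mul, hea, one_mul, Nat.abs_cast]
    exact_mod_cast i2

end Pool.Agent.TW
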