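import Pool.Agent.H.MP_b2d7dd_lc.TW.Res
import Pool.Agent.H.MP_b2d7dd_lc.TW.Rat

/-!
# Module MRat: rational reconstruction on bit lists

`bdm a b` = quotient and remainder (long division from the most significant bit, for `bval b ≠ 0`;
compare `bmod` in TI/Ar), the remainder is trimmed. `mhstep`, `mden` are the bit versions of `hstep`,
`den` (module Rat). In `mden_val` all the values of the state agree with those of `hstep` (as long as
`r1 > N` the divisor is not zero; the product `q t1` is reduced modulo `bval e + 2`).
Lengths: `r0`, `r1`, `t0`, `t1` have length at most `e.length + 4`: they are the start values,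
remainders (trimmed, smaller than a number of at most this length), or results of `bmod _ (md e)`.
For the proof of polynomial time use `Poly.iterate` or `Poly.foldr`.
-/

namespace Pool.Agent.TW

open Pool.Agent.TI Pool.Agent.H.MP_5be563_lc.PT

variable {α : Type} [Enc α]

/-- Quotient and remainder. -/
def bdm (a b : List Bool) : List Bool × List Bool :=
  a.foldr (fun x s => bif ble b (x :: s.2) then (true :: s.1, btrim (bsub (x :: s.2) b))
    else (false :: s.1, btrim (x :: s.2))) ([], [])

private theorem MRat_bdm_cons (x : Bool) (a b : List Bool) :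
    bdm (x :: a) b = bif ble b (x :: (bdm a b).2) then
      (true :: (bdm a b).1, btrim (bsub (x :: (bdm a b).2) b))
    else (false :: (bdm a b).1, btrim (x :: (bdm a b).2)) := rfl

theorem bdm_val (a b : List Bool) (hb : bval b ≠ 0) :
    bval (bdm a b).1 = bval a / bval b ∧ bval (bdm a b).2 = bval a % bval b := by
  induction a with
  | nil => simp [bdm]
  | cons x a ih =>
    obtain ⟨h1, h2⟩ := ih
    have hb0 : 0 < bval b := Nat.pos_of_ne_zero hb
    have hx := Bool.toNat_le x
    have h3 := Nat.div_add_mod (bval a) (bval b)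
    have h4 := Nat.mod_lt (bval a) hb0
    have key : ∀ Q R, R + bval b * Q = bval (x :: a) → R < bval b →
        Q = bval (x :: a) / bval b ∧ R = bval (x :: a) % bval b := by
      intro Q R h5 h6
      have h7 := (Nat.div_mod_unique hb0).2 ⟨h5, h6⟩
      exact ⟨h7.1.symm, h7.2.symm⟩
    rw [MRat_bdm_cons]
    cases hc : ble b (x :: (bdm a b).2) with
    | true =>
      have h5 := (ble_iff _ _).1 hc
      rw [cond_true]
      simp only
      rw [bval_btrim, bval_bsub h5]
      rw [bval_cons, h2] at h5
      apply key
      · simp only [bval_cons, h1, h2, Bool.toNat_true]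
        have h6 : bval b * (1 + 2 * (bval a / bval b)) = bval b + 2 * (bval b * (bval a / bval b)) := by
          ring
        rw [h6]
        omega
      · rw [bval_cons, h2]
        omega
    | false =>
      have h5 : ¬ bval b ≤ bval (x :: (bdm a b).2) := by
        rw [← ble_iff, hc]
        simp
      rw [cond_false]
      simp only
      rw [bval_btrim]
      rw [bval_cons, h2] at h5
      apply key
      · simp only [bval_cons, h1, h2, Bool.toNat_false]
        have h6 : bval b * (0 + 2 * (bval a / bval b)) = 2 * (bval b * (bval a / bval b)) := by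
          ring
        rw [h6]
        omega
      · rw [bval_cons, h2]
        omega

private theorem MRat_bdm_le (a b : List Bool) : bval (bdm a b).2 ≤ bval a := by
  induction a with
  | nil => simp [bdm]
  | cons x a ih =>
    rw [MRat_bdm_cons, bval_cons]
    cases hc : ble b (x :: (bdm a b).2) with
    | true =>
      have h5 := (ble_iff _ _).1 hc
      rw [cond_true]
      simp only
      rw [bval_btrim, bval_bsub h5, bval_cons]
      omega
    | false =>
      rw [cond_false]
      simp only
      rw [bval_btrim, bval_cons]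
      omega

private theorem MRat_bdm_trim (a b : List Bool) : ∃ l, (bdm a b).2 = btrim l := by
  cases a with
  | nil => exact ⟨[], rfl⟩
  | cons x a =>
    rw [MRat_bdm_cons]
    cases hc : ble b (x :: (bdm a b).2) with
    | true => exact ⟨_, rfl⟩
    | false => exact ⟨_, rfl⟩

private theorem MRat_bdm_len_le (a b : List Bool) {k : ℕ} (h : bval (bdm a b).2 < 2 ^ k) :
    (bdm a b).2.length ≤ k := by
  obtain ⟨l, hl⟩ := MRat_bdm_trim a b
  rw [hl] at h ⊢
  rw [bval_btrim] at h
  exact length_btrim_le h

theorem bdm_len (a b : List Bool) : (bdm a b).1.length = a.length ∧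
    (bval b ≠ 0 → (bdm a b).2.length ≤ b.length) := by
  refine ⟨?_, fun hb => ?_⟩
  · induction a with
    | nil => rfl
    | cons x a ih =>
      rw [MRat_bdm_cons]
      cases hc : ble b (x :: (bdm a b).2) with
      | true =>
        rw [cond_true]
        simp only [List.length_cons, ih]
      | false =>
        rw [cond_false]
        simp only [List.length_cons, ih]
  · apply MRat_bdm_len_le
    rw [(bdm_val a b hb).2]
    exact (Nat.mod_lt _ (Nat.pos_of_ne_zero hb)).trans (bval_lt b)

private theorem MRat_bdm_sz (a b : List Bool) : sz (bdm a b) ≤ 4 * sz a + 3 := by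
  have h1 : (bdm a b).2.length ≤ a.length :=
    MRat_bdm_len_le a b ((MRat_bdm_le a b).trans_lt (bval_lt a))
  have h2 := (bdm_len a b).1
  have h3 := (sz_bool_list (bdm a b).1).2
  have h4 := (sz_bool_list (bdm a b).2).2
  have h5 := (sz_bool_list a).1
  rw [sz_prod]
  omega

@[fun_prop]
theorem Poly.bdm {f g : α → List Bool} (hf : Poly f) (hg : Poly g) :
    Poly (fun a => bdm (f a) (g a)) := by
  have := H.MP_5be563_lc.PT.Poly.foldr
    (f := fun p : α × (List Bool × List Bool) × Bool =>
      bif ble (g p.1) (p.2.2 :: p.2.1.2) then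
        (true :: p.2.1.1, TI.btrim (TI.bsub (p.2.2 :: p.2.1.2) (g p.1)))
      else (false :: p.2.1.1, TI.btrim (p.2.2 :: p.2.1.2)))
    (l := f) (s0 := fun _ => (([], []) : List Bool × List Bool)) (B := fun a => 4 * sz (f a) + 3)
    (by fun_prop) hf (by fun_prop) (((PBdd.const 4).mul hf.sz_le).add (PBdd.const 3)) (by
      intro a l₁ l₂ h
      have h1 := MRat_bdm_sz l₂ (g a)
      have h3 : sz l₂ ≤ sz (f a) := by rw [h]; exact sz_sublist_le (List.sublist_append_right _ _)
      change sz (TW.bdm l₂ (g a)) ≤ _
      omega)
  exact this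

/-- One step of the Euclidean algorithm. -/
def mhstep (e NB : List Bool) (s : List Bool × List Bool × List Bool × List Bool) :
    List Bool × List Bool × List Bool × List Bool :=
  bif ble s.2.1 NB then s
  else (s.2.1, (bdm s.1 s.2.1).2, s.2.2.2,
    bmod (badd s.2.2.1 (bmul (bdm s.1 s.2.1).1 s.2.2.2)) (md e))

/-- The denominator. -/
def mden (e NB : List Bool) (k : ℕ) (c : List Bool) : List Bool :=
  ((mhstep e NB)^[k] (badd (md e) [true], bmod c (md e), [], [true])).2.2.2

private def MRat_vals (s : List Bool × List Bool × List Bool × List Bool) : ℕ × ℕ × ℕ × ℕ :=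
  (bval s.1, bval s.2.1, bval s.2.2.1, bval s.2.2.2)

private theorem MRat_step (e NB : List Bool) (s : List Bool × List Bool × List Bool × List Bool) :
    MRat_vals (mhstep e NB s) = hstep (bval e + 2) (bval NB) (MRat_vals s) := by
  obtain ⟨r0, r1, t0, t1⟩ := s
  unfold mhstep hstep MRat_vals
  cases hc : ble r1 NB with
  | true =>
    have h1 := (ble_iff _ _).1 hc
    simp only [hc, cond_true]
    rw [if_pos h1]
  | false =>
    have h1 : ¬ bval r1 ≤ bval NB := by
      rw [← ble_iff, hc]
      simp
    have h2 : bval r1 ≠ 0 := by omega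
    simp only [hc, cond_false]
    rw [if_neg h1, (bdm_val r0 r1 h2).2, bval_bmod_md, bval_badd, bval_bmul, (bdm_val r0 r1 h2).1]

theorem mden_val (e NB : List Bool) (k : ℕ) (c : List Bool) :
    bval (mden e NB k c) = den (bval e + 2) (bval NB) k (bval c % (bval e + 2)) := by
  have h1 : Function.Semiconj MRat_vals (mhstep e NB) (hstep (bval e + 2) (bval NB)) :=
    fun s => MRat_step e NB s
  have h2 := (h1.iterate_right k) (badd (md e) [true], bmod c (md e), [], [true])
  have h3 : MRat_vals (badd (md e) [true], bmod c (md e), [], [true]) =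
      (bval e + 2, bval c % (bval e + 2), 0, 1) := by
    unfold MRat_vals
    simp only
    rw [bval_badd, bval_bmod_md]
    have h4 : bval [true] = 1 := rfl
    rw [h4, bval_md, bval_nil]
  rw [h3] at h2
  exact congrArg (fun s : ℕ × ℕ × ℕ × ℕ => s.2.2.2) h2

/-- The lengths of the state. -/
private def MRat_len (K : ℕ) (s : List Bool × List Bool × List Bool × List Bool) : Prop :=
  s.1.length ≤ K ∧ s.2.1.length ≤ K ∧ s.2.2.1.length ≤ K ∧ s.2.2.2.length ≤ K

private theorem MRat_len_step (e NB : List Bool) {K : ℕ} (hK : e.length + 4 ≤ K)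
    {s : List Bool × List Bool × List Bool × List Bool} (h : MRat_len K s) :
    MRat_len K (mhstep e NB s) := by
  obtain ⟨r0, r1, t0, t1⟩ := s
  obtain ⟨h1, h2, h3, h4⟩ := h
  simp only at h1 h2 h3 h4
  unfold mhstep
  cases hc : ble r1 NB with
  | true =>
    simp only [hc, cond_true]
    exact ⟨h1, h2, h3, h4⟩
  | false =>
    have h5 : ¬ bval r1 ≤ bval NB := by
      rw [← ble_iff, hc]
      simp
    have h6 : bval r1 ≠ 0 := by omega
    simp only [hc, cond_false]
    refine ⟨h2, ((bdm_len r0 r1).2 h6).trans h2, h4, ?_⟩
    have h7 := length_bmod_le (badd t0 (bmul (bdm r0 r1).1 t1)) (md e)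
    have h8 := length_md_le e
    simp only
    omega

private theorem MRat_len_iter (e NB : List Bool) (k : ℕ) (c : List Bool) :
    MRat_len (e.length + 4) ((mhstep e NB)^[k] (badd (md e) [true], bmod c (md e), [], [true])) := by
  induction k with
  | zero =>
    have h1 := length_badd (md e) [true]
    have h2 := length_bmod_le c (md e)
    have h3 := length_md_le e
    simp only [List.length_cons, List.length_nil] at h1
    refine ⟨?_, ?_, ?_, ?_⟩
    · simp only [Function.iterate_zero, id]
      omega
    · simp only [Function.iterate_zero, id]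
      omega
    · simp
    · simp
  | succ k ih =>
    rw [Function.iterate_succ_apply']
    exact MRat_len_step e NB le_rfl ih

theorem length_mden_le (e NB : List Bool) (k : ℕ) (c : List Bool) :
    (mden e NB k c).length ≤ e.length + 4 := (MRat_len_iter e NB k c).2.2.2

theorem poly_mden {fe fN fc : α → List Bool} {fk : α → ℕ} (he : Poly fe) (hN : Poly fN)
    (hk : Poly fk) (hc : Poly fc) : Poly (fun a => mden (fe a) (fN a) (fk a) (fc a)) := by
  have h := H.MP_5be563_lc.PT.Poly.iterate
    (f := fun (a : α) (s : List Bool × List Bool × List Bool × List Bool) =>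
      mhstep (fe a) (fN a) s)
    (s := fun a => (badd (TW.md (fe a)) [true], TI.bmod (fc a) (TW.md (fe a)), ([] : List Bool), [true]))
    (n := fk) (B := fun a => 16 * sz (fe a) + 80)
    (by unfold mhstep; fun_prop) (by fun_prop) hk
    (((PBdd.const 16).mul he.sz_le).add (PBdd.const 80)) (by
      intro a k _
      obtain ⟨h1, h2, h3, h4⟩ := MRat_len_iter (fe a) (fN a) k (fc a)
      have h5 := (sz_bool_list (fe a)).1
      generalize (mhstep (fe a) (fN a))^[k] (badd (TW.md (fe a)) [true],
        TI.bmod (fc a) (TW.md (fe a)), ([] : List Bool), [true]) = s at h1 h2 h3 h4 ⊢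
      have i1 := (sz_bool_list s.1).2
      have i2 := (sz_bool_list s.2.1).2
      have i3 := (sz_bool_list s.2.2.1).2
      have i4 := (sz_bool_list s.2.2.2).2
      rw [sz_prod, sz_prod s.2, sz_prod s.2.2]
      omega)
  exact H.MP_5be563_lc.PT.Poly.snd.comp (H.MP_5be563_lc.PT.Poly.snd.comp
    (H.MP_5be563_lc.PT.Poly.snd.comp h))

end Pool.Agent.TW
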