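import Pool.Agent.H.MP_b2d7dd_lc.TI.Ar

/-!
# Module Res: residues as bit lists

The modulus is `bval e + 2`; `md e` = the bits of `bval e + 1`, so `bmod x (md e)` is the remainder.
`zv e x` = the residue class of `bval x`. `rne` multiplies by `md e`, which is `-1`. `rin` is the power
with exponent `bval e`, the inverse modulo a prime.
-/

namespace Pool.Agent.TW

open Pool.Agent.TI Pool.Agent.H.MP_5be563_lc.PT

variable {α : Type} [Enc α]

/-- The modulus minus one. -/
def md (e : List Bool) : List Bool := badd e [true]

theorem bval_md (e : List Bool) : bval (md e) + 1 = bval e + 2 := by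
  unfold md
  rw [bval_badd]
  rfl

/-- The residue class. -/
def zv (e x : List Bool) : ZMod (bval e + 2) := ((bval x : ℕ) : ZMod (bval e + 2))

/-- Sum. -/
def rad (e x y : List Bool) : List Bool := bmod (badd x y) (md e)

/-- Product. -/
def rmu (e x y : List Bool) : List Bool := bmod (bmul x y) (md e)

/-- Negative. -/
def rne (e x : List Bool) : List Bool := rmu e (md e) x

/-- Difference. -/
def rsb (e x y : List Bool) : List Bool := rad e x (rne e y)

/-- The power with exponent `bval e`. -/
def rin (e x : List Bool) : List Bool := bpw x e (md e)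

/-- The residue is not zero. -/
def rnz (e x : List Bool) : Bool := !beqv (bmod x (md e)) []

theorem zv_bmod (e x : List Bool) : zv e (bmod x (md e)) = zv e x := by
  unfold zv
  rw [bval_bmod, bval_md, ZMod.natCast_mod]

theorem bval_bmod_md (e x : List Bool) : bval (bmod x (md e)) = bval x % (bval e + 2) := by
  rw [bval_bmod, bval_md]

theorem zv_rad (e x y : List Bool) : zv e (rad e x y) = zv e x + zv e y := by
  rw [rad, zv_bmod]
  unfold zv
  rw [bval_badd, Nat.cast_add]

theorem zv_rmu (e x y : List Bool) : zv e (rmu e x y) = zv e x * zv e y := by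
  rw [rmu, zv_bmod]
  unfold zv
  rw [bval_bmul, Nat.cast_mul]

theorem zv_rne (e x : List Bool) : zv e (rne e x) = -zv e x := by
  rw [rne, zv_rmu]
  have h : zv e (md e) = -1 := by
    have h1 : ((bval (md e) + 1 : ℕ) : ZMod (bval e + 2)) = 0 := by
      rw [bval_md, ZMod.natCast_self]
    rw [Nat.cast_add, Nat.cast_one] at h1
    exact eq_neg_of_add_eq_zero_left h1
  rw [h, neg_one_mul]

theorem zv_rsb (e x y : List Bool) : zv e (rsb e x y) = zv e x - zv e y := by
  rw [rsb, zv_rad, zv_rne, sub_eq_add_neg]

theorem zv_bpw (e x k : List Bool) : zv e (bpw x k (md e)) = zv e x ^ bval k := by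
  unfold zv
  rw [bval_bpw, bval_md, ZMod.natCast_mod, Nat.cast_pow]

theorem zv_rin (e x : List Bool) : zv e (rin e x) = zv e x ^ bval e := zv_bpw e x e

theorem zv_nil (e : List Bool) : zv e [] = 0 := by
  simp [zv]

theorem zv_one (e : List Bool) : zv e [true] = 1 := by
  simp [zv]

theorem rnz_iff (e x : List Bool) : rnz e x = true ↔ zv e x ≠ 0 := by
  have h : beqv (bmod x (md e)) [] = true ↔ zv e x = 0 := by
    rw [beqv_iff, bval_bmod_md, bval_nil, zv, ZMod.natCast_eq_zero_iff, Nat.dvd_iff_mod_eq_zero]
  rw [rnz, Bool.not_eq_true', ← Bool.not_eq_true, h]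

/-- Equality of residues. -/
theorem beqv_bmod_iff (e x y : List Bool) :
    beqv (bmod x (md e)) (bmod y (md e)) = true ↔ zv e x = zv e y := by
  rw [beqv_iff, bval_bmod_md, bval_bmod_md, zv, zv, ZMod.natCast_eq_natCast_iff']

/-- The lengths of the results. -/
theorem length_md_le (e : List Bool) : (md e).length ≤ e.length + 2 := by
  rw [md, length_badd]
  simp only [List.length_cons, List.length_nil]
  omega

theorem length_rad_le (e x y : List Bool) : (rad e x y).length ≤ e.length + 4 := by
  have h1 := length_bmod_le (badd x y) (md e)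
  have h2 := length_md_le e
  rw [rad]
  omega

theorem length_rmu_le (e x y : List Bool) : (rmu e x y).length ≤ e.length + 4 := by
  have h1 := length_bmod_le (bmul x y) (md e)
  have h2 := length_md_le e
  rw [rmu]
  omega

theorem length_rsb_le (e x y : List Bool) : (rsb e x y).length ≤ e.length + 4 :=
  length_rad_le e x (rne e y)

theorem length_rin_le (e x : List Bool) : (rin e x).length ≤ e.length + 4 := by
  have h1 := length_bpw_le x e (md e)
  have h2 := length_md_le e
  rw [rin]
  omega

/-- In a prime field the function `x ↦ x ^ (r - 2)` is the inverse. -/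
theorem pow_eq_inv {r : ℕ} [Fact r.Prime] (h : 2 < r) :
    (fun x : ZMod r => x ^ (r - 2)) = fun x => x⁻¹ := by
  funext x
  by_cases hx : x = 0
  · rw [hx, inv_zero, zero_pow (by omega)]
  · refine eq_inv_of_mul_eq_one_left ?_
    rw [← pow_succ, (by omega : r - 2 + 1 = r - 1)]
    exact ZMod.pow_card_sub_one_eq_one hx

@[fun_prop]
theorem Poly.md {f : α → List Bool} (hf : Poly f) : Poly (fun a => md (f a)) := by
  unfold TW.md
  fun_prop

@[fun_prop]
theorem Poly.rad {f g h : α → List Bool} (hf : Poly f) (hg : Poly g) (hh : Poly h) :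
    Poly (fun a => rad (f a) (g a) (h a)) := by
  unfold TW.rad
  fun_prop

@[fun_prop]
theorem Poly.rmu {f g h : α → List Bool} (hf : Poly f) (hg : Poly g) (hh : Poly h) :
    Poly (fun a => rmu (f a) (g a) (h a)) := by
  unfold TW.rmu
  fun_prop

@[fun_prop]
theorem Poly.rsb {f g h : α → List Bool} (hf : Poly f) (hg : Poly g) (hh : Poly h) :
    Poly (fun a => rsb (f a) (g a) (h a)) := by
  unfold TW.rsb TW.rne
  fun_prop

@[fun_prop]
theorem Poly.rin {f g : α → List Bool} (hf : Poly f) (hg : Poly g) :
    Poly (fun a => rin (f a) (g a)) := by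
  unfold TW.rin
  fun_prop

@[fun_prop]
theorem Poly.rnz {f g : α → List Bool} (hf : Poly f) (hg : Poly g) :
    Poly (fun a => rnz (f a) (g a)) := by
  unfold TW.rnz
  fun_prop

end Pool.Agent.TW
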