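import Pool.Agent.H.MP_b2d7dd_lc.TW.Snd
import Pool.Agent.H.MP_b2d7dd_lc.TW.Cmb

/-!
# Module StgC: a stage rarely fails

`r = bval e + 2` prime. Take a basis `S, D, n'` (`exists_bas`, `NB_le`; `r ∤ D` because
`|D| ≤ 2 ^ eN n < r`, `par_Pr`). If the new table is not faithful, then by `fai_ltab` (`hrow_rel`,
`hrow_length`, `par_k`, `par_N`, `par_P`, `par_Pr`) there is `θ ≠ 0`, supported on `S`, with
`∑_{s ∈ S} θ s * (entry s of the hash row number j) = 0` for all `j < Rr n`. There are at most `r ^ n`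
such `θ` (functions on `S`, extended by zero; `card S ≤ n`), and for each of them the number of the
strings is `(number for one hash) ^ Rr n` (`cnt_blocks`), where the number for one hash is at most
`Aa n * (2 ^ vv n) ^ Qw n / 2 ^ vv n` (`cnt_comb` for `T`, `U'` and the terms `tt (U.getD s)`,
`s ∈ S`; `hrow_val`, `Bas.indr`; the terms are `1` or subterms of `T`, as in `Stk.tt_at_Sp`).
`par_union`.
-/

namespace Pool.Agent.TW

open Pool.Agent.TI (Tm Tok names Valid)
open Pool.Agent.TE (bl)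
open Pool.Agent.H.MP_5be563_lc.PT Finset

/-- The atoms of the exponents up to the next token. -/
theorem tt_atoms {q : Tok} {T : List Tok} {st U' : List Tm} {u : Tm}
    (h : Stk (q :: T) st (U' ++ [u])) (a : ℕ) :
    At (atoms T U') (tt ((U' ++ [u]).getD a .one)) := by
  obtain ⟨st', U'', u', h', he⟩ := h.tail
  have hU : U' = U'' := (List.append_inj' he rfl).1
  have hlen := h.length
  rw [← hU] at h'
  have hlen' := h'.length
  by_cases ha : a < (q :: T).length
  · rw [h.tt_eq ha]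
    split_ifs with h3
    · have h2 := h.two_le ha h3
      rw [List.length_cons] at ha
      rw [List.getD_append _ _ _ _ (by omega)]
      exact h'.atoms (a - 2)
    · trivial
  · rw [← hlen, not_lt] at ha
    rw [List.getD_eq_default _ _ ha]
    trivial

private theorem StgC_SS (n : ℕ) : SS n = Rr n * (Qw n * vv n) := rfl

private theorem StgC_Aa (n : ℕ) :
    2 * ((n + 1) * 2 ^ eP n) * ((n + 1) * (n + 1)) + (n + 1) * (n + 1) = Aa n := rfl

private theorem StgC_Qq (n : ℕ) : (n + 1) * (n + 1) = Qw n := rfl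

/-- The function on `ℕ` with the given values on `S`. -/
private def StgC_ext {K : Type} [Zero K] (S : Finset ℕ) (ψ : {s // s ∈ S} → K) (s : ℕ) : K :=
  if h : s ∈ S then ψ ⟨s, h⟩ else 0

/-- One hash. -/
private def StgC_Q (n : ℕ) (e : List Bool) (N : List (List Bool)) (tab : List (List SI))
    (U' : List Tm) (u : Tm) (S : Finset ℕ) (θ : ℕ → ZMod (bval e + 2)) (Z : List Bool) : Prop :=
  ∑ s ∈ S, θ s * hv (chi (wfun e (vv n) (n + 1) N Z) (tab.map irow) U')
    (tt ((U' ++ [u]).getD s .one)) = 0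

/-- The number of the strings for one block. -/
private theorem StgC_blk (n : ℕ) (Q : List Bool → Prop) :
    cnt (SS n) (fun zz => ∀ j < Rr n, Q (bl (Qw n * vv n) zz j)) =
      cnt (Qw n * vv n) Q ^ Rr n := by
  rw [StgC_SS]
  exact cnt_blocks Q

attribute [local irreducible] SS Rr Qw vv uu eP eN kk Aa cnt

private theorem StgC_one {n : ℕ} {q : Tok} {T : List Tok} {st U' : List Tm} {u : Tm}
    (h : Stk (q :: T) st (U' ++ [u])) (hn : (q :: T).length ≤ n) {e : List Bool}
    (he : 2 ^ vv n ≤ bval e) (hp : (bval e + 2).Prime)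
    {N : List (List Bool)} (hNT : ∀ w ∈ names T, w ∈ N) (hN : N.length ≤ n)
    {tab : List (List SI)} (hc : Coh U' (tab.map irow)) (hf : Fai U' (tab.map irow))
    (hP : ∀ row ∈ tab.map irow, ∀ a, |row a| ≤ (2 ^ eP n : ℕ)) (hl : tab.length ≤ n)
    {S : Finset ℕ} {D : ℤ} {m : ℕ → ℕ → ℤ} (hB : Bas (U' ++ [u]) (2 ^ eN n) S D m)
    (θ : ℕ → ZMod (bval e + 2)) (hθ : ∃ s ∈ S, θ s ≠ 0) :
    2 ^ vv n * cnt (Qw n * vv n) (StgC_Q n e N tab U' u S θ) ≤
      Aa n * (2 ^ vv n) ^ Qw n := by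
  obtain ⟨st', U'', u', h', hU⟩ := h.tail
  have hU' : U' = U'' := (List.append_inj' hU rfl).1
  rw [← hU'] at h'
  have hr : 2 ^ vv n < bval e + 2 := by omega
  have key : (∃ g, ∑ j ∈ S, θ j *
      ((rep (tt ((U' ++ [u]).getD j .one)) g : ℤ) : ZMod (bval e + 2)) ≠ 0) →
      2 ^ vv n * cnt (Qw n * vv n) (StgC_Q n e N tab U' u S θ) ≤
      Aa n * (2 ^ vv n) ^ Qw n := by
    intro hg
    have h0 := cnt_comb h' hp hr.le hNT hN hc hf hP hl S (fun j => tt ((U' ++ [u]).getD j .one))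
      (fun j _ => tt_atoms h j) (fun j _ => ((h.sz j).2).trans (by omega)) θ hg
    rw [StgC_Aa, StgC_Qq] at h0
    exact h0
  refine key ?_
  by_contra h1
  push Not at h1
  obtain ⟨s, hs, hs0⟩ := hθ
  refine hs0 (hB.indr (bval e + 2) hp ?_ θ h1 s hs)
  intro h2
  have h3 : |D| < ((bval e + 2 : ℕ) : ℤ) := by
    refine lt_of_le_of_lt hB.Dle ?_
    have h4 : 2 ^ eN n < bval e + 2 := by
      have h5 := par_Pr (n := n) hr
      have h6 : 1 ≤ 2 ^ eP n := Nat.one_le_two_pow
      nlinarith [Nat.one_le_two_pow (n := eN n)]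
    exact_mod_cast h4
  exact hB.D0 (Int.eq_zero_of_abs_lt_dvd h2 h3)

theorem stage_cnt {n : ℕ} {q : Tok} {T : List Tok} {st U' : List Tm} {u : Tm}
    (h : Stk (q :: T) st (U' ++ [u])) (hn : (q :: T).length ≤ n) {e : List Bool}
    (he : 2 ^ vv n ≤ bval e) (he2 : bval e < 2 ^ (2 * vv n)) (hp : (bval e + 2).Prime)
    {N : List (List Bool)} (hNT : ∀ w ∈ names T, w ∈ N) (hN : N.length ≤ n)
    {tab : List (List SI)} (hc : Coh U' (tab.map irow)) (hf : Fai U' (tab.map irow))
    (hP : ∀ row ∈ tab.map irow, ∀ a, |row a| ≤ (2 ^ eP n : ℕ)) (hl : tab.length ≤ n) :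
    8 * (n + 1) * cnt (SS n) (fun zz =>
      ¬ Fai (U' ++ [u]) ((nxt n e N (q :: T) tab zz).map irow)) ≤ 2 ^ SS n := by
  classical
  have hfact : Fact (bval e + 2).Prime := ⟨hp⟩
  have hlU := h.length
  have hL : (U' ++ [u]).length ≤ n := by
    rw [hlU]
    exact hn
  have hr : 2 ^ vv n < bval e + 2 := by omega
  obtain ⟨S, D, m, hB⟩ := exists_bas h (NB_le hL)
  set F : Finset ({s // s ∈ S} → ZMod (bval e + 2)) := Finset.univ.filter fun ψ => ψ ≠ 0 with hF
  have h1 : cnt (SS n) (fun zz => ¬ Fai (U' ++ [u]) ((nxt n e N (q :: T) tab zz).map irow)) ≤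
      cnt (SS n) (fun zz => ∃ ψ ∈ F, ∀ j < Rr n,
        StgC_Q n e N tab U' u S (StgC_ext S ψ) (bl (Qw n * vv n) zz j)) := by
    refine cnt_mono fun zz _ hz => ?_
    by_contra hcon
    push Not at hcon
    refine hz ?_
    unfold nxt
    rw [← hlU]
    refine fai_ltab h (D := D) (S := S) (n := m) ?_ ?_ ?_ hp ?_ ?_ ?_ ?_ _ ?_ ?_ ?_
    · rw [bval_pow2]
      exact NB_le hL
    · rw [bval_pow2]
      exact Nat.one_le_two_pow
    · rw [bval_pow2]
      exact hB
    · exact par_k he2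
    · rw [bval_pow2]
      exact par_N hr
    · rw [bval_pow2, bval_pow2]
      exact par_P hL
    · rw [bval_pow2, bval_pow2]
      exact par_Pr hr
    · intro v hv
      obtain ⟨j, -, rfl⟩ := List.mem_map.1 hv
      rw [hrow_length, hlU]
    · intro v hv κ hκ
      obtain ⟨j, -, rfl⟩ := List.mem_map.1 hv
      exact hrow_rel e (vv n) (n + 1) N _ h hc κ hκ
    · intro θ hθ1 hθ2
      have hψ : StgC_ext S (fun s => θ s.1) = θ := by
        funext s
        unfold StgC_ext
        split_ifs with hs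
        · rfl
        · exact (hθ1 s hs).symm
      by_contra hne
      push Not at hne
      obtain ⟨s, hs⟩ := hne
      have hsS : s ∈ S := by
        by_contra h2
        exact hs (hθ1 s h2)
      obtain ⟨j, hj, hj2⟩ := hcon (fun s => θ s.1) (by
        rw [hF, Finset.mem_filter]
        refine ⟨Finset.mem_univ _, fun h2 => hs ?_⟩
        exact congrFun h2 ⟨s, hsS⟩)
      refine hj2 ?_
      rw [hψ]
      unfold StgC_Q
      have h3 := hθ2 _ (List.mem_map_of_mem (f := fun j =>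
        hrow e (vv n) (n + 1) N tab (q :: T) (bl (Qw n * vv n) zz j)) (List.mem_range.2 hj))
      refine Eq.trans (Finset.sum_congr rfl fun s hs => ?_) h3
      rw [hrow_val e (vv n) (n + 1) N _ h hc (mem_range.1 (hB.sub hs))]
  have h2 := cnt_exists (m := SS n) F (fun ψ zz => ∀ j < Rr n,
        StgC_Q n e N tab U' u S (StgC_ext S ψ) (bl (Qw n * vv n) zz j))
  have h3 : ∀ ψ ∈ F, (2 ^ vv n) ^ Rr n * cnt (SS n) (fun zz => ∀ j < Rr n,
        StgC_Q n e N tab U' u S (StgC_ext S ψ) (bl (Qw n * vv n) zz j)) ≤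
      Aa n ^ Rr n * 2 ^ SS n := by
    intro ψ hψ
    have h4 : ∃ s ∈ S, StgC_ext S ψ s ≠ 0 := by
      by_contra h5
      push Not at h5
      rw [hF, Finset.mem_filter] at hψ
      refine hψ.2 ?_
      funext s
      have h6 := h5 s.1 s.2
      unfold StgC_ext at h6
      rw [dif_pos s.2] at h6
      exact h6
    have h5 := StgC_one h hn he hp hNT hN hc hf hP hl hB (StgC_ext S ψ) h4
    have h6 : cnt (SS n) (fun zz => ∀ j < Rr n,
        StgC_Q n e N tab U' u S (StgC_ext S ψ) (bl (Qw n * vv n) zz j)) =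
        cnt (Qw n * vv n) (StgC_Q n e N tab U' u S (StgC_ext S ψ)) ^ Rr n :=
      StgC_blk n (StgC_Q n e N tab U' u S (StgC_ext S ψ))
    rw [h6, ← mul_pow]
    refine (Nat.pow_le_pow_left h5 _).trans (le_of_eq ?_)
    rw [mul_pow]
    congr 1
    rw [StgC_SS, ← pow_mul, ← pow_mul]
    congr 1
    ring
  have h4 : F.card ≤ (bval e + 2) ^ n := by
    refine (Finset.card_le_univ _).trans ?_
    rw [Fintype.card_fun, ZMod.card, Fintype.card_coe]
    refine Nat.pow_le_pow_right (by omega) ?_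
    have h5 := Finset.card_le_card hB.sub
    rw [card_range] at h5
    omega
  have h5 := par_union (n := n) (r := bval e + 2) (by omega)
  have h6 : (2 ^ vv n) ^ Rr n * cnt (SS n) (fun zz =>
      ¬ Fai (U' ++ [u]) ((nxt n e N (q :: T) tab zz).map irow)) ≤
      (bval e + 2) ^ n * (Aa n ^ Rr n * 2 ^ SS n) := by
    refine (Nat.mul_le_mul_left _ (h1.trans h2)).trans ?_
    rw [Finset.mul_sum]
    refine (Finset.sum_le_card_nsmul _ _ _ h3).trans ?_
    rw [smul_eq_mul]
    exact Nat.mul_le_mul_right _ h4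
  have h7 : 0 < (2 ^ vv n) ^ Rr n := by positivity
  refine Nat.le_of_mul_le_mul_left ?_ h7
  calc (2 ^ vv n) ^ Rr n * (8 * (n + 1) * cnt (SS n) (fun zz =>
        ¬ Fai (U' ++ [u]) ((nxt n e N (q :: T) tab zz).map irow))) =
      8 * (n + 1) * ((2 ^ vv n) ^ Rr n * cnt (SS n) (fun zz =>
        ¬ Fai (U' ++ [u]) ((nxt n e N (q :: T) tab zz).map irow))) := by ring
    _ ≤ 8 * (n + 1) * ((bval e + 2) ^ n * (Aa n ^ Rr n * 2 ^ SS n)) := Nat.mul_le_mul_left _ h6
    _ = 8 * (n + 1) * ((bval e + 2) ^ n * Aa n ^ Rr n) * 2 ^ SS n := by ring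
    _ ≤ (2 ^ vv n) ^ Rr n * 2 ^ SS n := Nat.mul_le_mul_right _ h5

end Pool.Agent.TW
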